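import Pool.Agent.Helper81.AD.Typ

/-! POLYNOMIAL LEAVES WHICH CONTAIN THE POINT TYPICALLY: on a typical event the point is the value of a polynomial chart;
off this event the leaf is cut into the cells of the point. Windows, parameter and fullness are unchanged. -/

set_option autoImplicit false

namespace Pool.Agent.Helper7.GZ

open Finset Filter Topology Matrix Pool.Agent.Helper69.RK Pool.Agent.Helper31.EC Pool.Agent.Helper31.EC.Sp
open Pool.Agent.Helper40.EL Pool.Agent.Helper89.LX Pool.Agent.Helper3.LF Pool.Agent.Helper84.MT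
open Pool.Agent.Helper81.AD

noncomputable section

variable {S : Sp} {M : ℕ}

/-- the cells of the point off the event -/
def offS (Q : S.VV M) (A : ∀ k, (S.F k).Ω → Prop) (k : ℕ) : Setoid (S.F k).Ω :=
  glS (A k) ⊤ (Setoid.ker (Q.cellv 1 k))

def offP (Q : S.VV M) (A : ∀ k, (S.F k).Ω → Prop) : Part S := fun k => fc (offS Q A k)

theorem offP_nul (Q : S.VV M) {A : ∀ k, (S.F k).Ω → Prop} (hA : Typ A) : PLe (offP Q A) (fun _ => ⊥) := by
  apply PLe_of_typ hA
  · apply PLe_of_ev_eq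
    filter_upwards [pb_ne_zero (Sp.ul_pr_typ_pos A hA)] with k h0
    have h2 : (fc (offS Q A k) : FL ((S.F k).rest (A k))) = fc (F := (S.F k).rest (A k)) ⊤ := by
      apply fc_rest_eq h0
      intro ω ω' a b
      exact glS_pos a b
    exact h2
  · obtain ⟨C, hC⟩ := pcd_Bd (Q.rest fun k ω => ¬ A k ω)
    refine ⟨C, ?_⟩
    filter_upwards [hC] with k hk h0
    refine (h_le_H _ _).trans ?_
    have h1 : (S.F k).rmap (fun ω => ¬ A k ω) (offP Q A k) = pcd (Q.rest fun k ω => ¬ A k ω) k := by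
      apply fc_rest_eq h0
      intro ω ω' a b
      exact glS_neg a b
    rw [h1]
    have h2 : H (pcd (Q.rest fun k ω => ¬ A k ω) k) / (S.F k).n ≤ C := (le_abs_self _).trans hk
    rwa [div_le_iff₀ (S.F k).pos] at h2

/-- partitions of rate zero do not change conditions -/
theorem PLe_inf_nul {La W : ∀ k, Setoid (S.F k).Ω} (hW : PLe (fun k => (fc (W k) : FL (S.F k))) (fun _ => ⊥)) :
    PLe (fun k => fc (La k ⊓ W k)) (fun k => fc (La k)) := by
  have e1 : (fun k => fc (La k ⊓ W k) : Part S) = fun k => fc (La k) ⊔ fc (W k) := funext fun k => fc_inf _ _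
  rw [e1]
  exact (PLe.refl _).sup_le (hW.trans (PLe_of_le fun k => bot_le))

theorem h_inf_nul {La W : ∀ k, Setoid (S.F k).Ω} (hW : PLe (fun k => (fc (W k) : FL (S.F k))) (fun _ => ⊥))
    (X : Part S) {v : ℝ} (h0 : Tendsto (fun k => h (X k) (fc (La k)) / (S.F k).n) UF (𝓝 v)) :
    Tendsto (fun k => h (X k) (fc (La k ⊓ W k)) / (S.F k).n) UF (𝓝 v) := by
  have h1 := PLe_inf_nul (La := La) hW
  have t1 := h0.sub h1
  rw [sub_zero] at t1
  refine tendsto_of_tendsto_of_tendsto_of_le_of_le t1 h0 (fun k => ?_) (fun k => ?_)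
  · show h (X k) (fc (La k)) / (S.F k).n - h (fc (La k ⊓ W k)) (fc (La k)) / (S.F k).n ≤ _
    rw [← sub_div]
    apply div_le_div_of_nonneg_right _ (S.F k).pos.le
    have a1 := h_triangle' (X k) (fc (La k ⊓ W k)) (fc (La k))
    linarith
  · show _ ≤ h (X k) (fc (La k)) / (S.F k).n
    apply div_le_div_of_nonneg_right _ (S.F k).pos.le
    apply h_anti
    rw [fc_inf]
    exact le_sup_left

open Classical in
/-- POLYNOMIAL LEAF through the point on a typical event -/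
def ofPolyT {Q : S.VV M} (g : ℕ) (hg : 1 ≤ g) (e : ℕ) (he : e ≤ g) (La : ∀ k, Setoid (S.F k).Ω) (Y : S.VV e)
    (G : ∀ k, (S.F k).Ω → Fin M → MvPolynomial (Fin e) ℝ) (deg : ∀ k ω i, (G k ω i).totalDegree ≤ g)
    (fn : ∀ᶠ k in UF, ∀ ω ω', (S.F k).μ ω ≠ 0 → (S.F k).μ ω' ≠ 0 → (S.F k).Z ω ω' → La k ω ω' → G k ω = G k ω')
    (A : ∀ k, (S.F k).Ω → Prop) (hA : Typ A)
    (pt : ∃ K : ℕ → ℝ, S.Sub K ∧ ∀ᶠ k in UF, ∀ ω, (S.F k).μ ω ≠ 0 → A k ω → (∀ i a, |(G k ω i).coeff a| ≤ K k) ∧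
      ∀ i, |Q.v k ω i - MvPolynomial.eval (Y.v k ω) (G k ω i)| ≤ K k * S.dl 1 k)
    (full : Tendsto (fun k => h (fc (Setoid.ker (Y.cellv 1 k))) (fc (La k)) / (S.F k).n) UF (𝓝 e)) :
    Leaf S Q (lin g) :=
  Leaf.ofPoly g hg e he (fun k => La k ⊓ offS Q A k) Y
    (fun k ω i => if A k ω then G k ω i else MvPolynomial.C (rnd (S.dl 1 k) (Q.v k ω i)))
    (fun k ω i => by
      split_ifs
      · exact deg k ω i
      · rw [MvPolynomial.totalDegree_C]
        exact Nat.zero_le _)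
    (by
      filter_upwards [fn] with k hk ω ω' a b z r
      funext i
      by_cases hA : A k ω
      · have hA' : A k ω' := r.2.1.1 hA
        rw [if_pos hA, if_pos hA', hk ω ω' a b z r.1]
      · have hA' : ¬ A k ω' := fun c => hA (r.2.1.2 c)
        rw [if_neg hA, if_neg hA']
        have h1 : Q.cellv 1 k ω = Q.cellv 1 k ω' := r.2.2.2 hA
        rw [rnd_of_cell h1 i])
    (by
      obtain ⟨K, hK, h1⟩ := pt
      obtain ⟨L, hL, h2⟩ := Q.bd
      refine ⟨fun k => K k + (L k + 1), hK.add (hL.add (S.Sub_const zero_le_one)), ?_⟩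
      filter_upwards [h1, h2, hK.1, hL.1] with k a b hK0 hL0 ω hω i m
      by_cases hA : A k ω
      · rw [if_pos hA]
        have := (a ω hω hA).1 i m
        linarith
      · rw [if_neg hA, MvPolynomial.coeff_C]
        have h3 := rnd_abs (S.dl_pos 1 k) (dl_one_le S k) (Q.v k ω i)
        have h4 := b ω hω i
        split_ifs
        · linarith
        · rw [abs_zero]
          linarith)
    (by
      obtain ⟨K, hK, h1⟩ := pt
      refine ⟨fun k => K k + 1, hK.add (S.Sub_const zero_le_one), ?_⟩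
      filter_upwards [h1, hK.1] with k a hK0 ω hω i
      have hd := S.dl_pos 1 k
      by_cases hA : A k ω
      · rw [if_pos hA]
        refine ((a ω hω hA).2 i).trans ?_
        nlinarith
      · rw [if_neg hA, MvPolynomial.eval_C]
        have h3 := rnd_le hd (Q.v k ω i)
        nlinarith)
    (h_inf_nul (offP_nul Q hA) _ full)

section
variable {Q : S.VV M} (g : ℕ) (hg : 1 ≤ g) (e : ℕ) (he : e ≤ g) (La : ∀ k, Setoid (S.F k).Ω) (Y : S.VV e)
    (G : ∀ k, (S.F k).Ω → Fin M → MvPolynomial (Fin e) ℝ) (deg : ∀ k ω i, (G k ω i).totalDegree ≤ g)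
    (fn : ∀ᶠ k in UF, ∀ ω ω', (S.F k).μ ω ≠ 0 → (S.F k).μ ω' ≠ 0 → (S.F k).Z ω ω' → La k ω ω' → G k ω = G k ω')
    (A : ∀ k, (S.F k).Ω → Prop) (hA : Typ A)
    (pt : ∃ K : ℕ → ℝ, S.Sub K ∧ ∀ᶠ k in UF, ∀ ω, (S.F k).μ ω ≠ 0 → A k ω → (∀ i a, |(G k ω i).coeff a| ≤ K k) ∧
      ∀ i, |Q.v k ω i - MvPolynomial.eval (Y.v k ω) (G k ω i)| ≤ K k * S.dl 1 k)
    (full : Tendsto (fun k => h (fc (Setoid.ker (Y.cellv 1 k))) (fc (La k)) / (S.F k).n) UF (𝓝 e))

theorem ofPolyT_e : (ofPolyT g hg e he La Y G deg fn A hA pt full).e = e := rfl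

theorem ofPolyT_win_eq (c : ℝ) : (ofPolyT g hg e he La Y G deg fn A hA pt full).win c =
    fun k => fc (La k ⊓ offS Q A k ⊓ Setoid.ker (Y.cellv c k)) := rfl

theorem ofPolyT_win_ge (c : ℝ) : PLe (fun k => fc (La k ⊓ Setoid.ker (Y.cellv c k)))
    ((ofPolyT g hg e he La Y G deg fn A hA pt full).win c) := by
  apply PLe_of_le
  intro k
  apply fc_le
  intro ω ω' _ _ _ r
  exact ⟨r.1.1, r.2⟩

theorem ofPolyT_win_le (c : ℝ) : PLe ((ofPolyT g hg e he La Y G deg fn A hA pt full).win c)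
    (fun k => fc (La k ⊓ Setoid.ker (Y.cellv c k))) := by
  have h1 := PLe_inf_nul (La := fun k => La k ⊓ Setoid.ker (Y.cellv c k)) (offP_nul Q hA)
  refine PLe.trans (PLe_of_le ?_) h1
  intro k
  apply fc_le
  intro ω ω' _ _ _ r
  exact ⟨⟨r.1.1, r.2⟩, r.1.2⟩

end

end

end Pool.Agent.Helper7.GZ
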