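import Pool.Agent.Helper7.GZ.Fr
import Pool.Agent.Helper7.GZ.Pt
import Pool.Agent.Helper89.TAY.Lf

/-! ZOOM IN THE COORDINATES OF ROWS: a label of the window `c > 0` carries polynomials of degree at most `D` (rows) whose
coefficients are at most `2 ^ (Λ n)`, which are tame at the point and do not vary by more than `2 ^ (-u n)` at the finest
resolution. The values of the rows are the point of a system of polynomial leaves in the space over the label with the
unit `u`; its leaves are the windows `c` of the leaves of the system. -/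

set_option autoImplicit false

namespace Pool.Agent.Helper7.GZ

open Finset Filter Topology Matrix Pool.Agent.Helper69.RK Pool.Agent.Helper31.EC Pool.Agent.Helper31.EC.Sp
open Pool.Agent.Helper40.EL Pool.Agent.Helper89.LX Pool.Agent.Helper3.LF Pool.Agent.Helper84.MT
open Pool.Agent.Helper89.TAY

noncomputable section

variable {S : Sp} {M M' : ℕ} {E : ℕ → ℕ} {ι : Type}

/-- finite intersections of typical events -/
theorem Typ_all {κ : Type} [Finite κ] (B : κ → ∀ k, (S.F k).Ω → Prop) (h : ∀ j, Typ (B j)) :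
    Typ (fun k ω => ∀ j, B j k ω) := by
  classical
  cases nonempty_fintype κ
  have h1 : ∀ s : Finset κ, Typ (fun k ω => ∀ j ∈ s, B j k ω) := by
    intro s
    induction s using Finset.induction_on with
    | empty =>
      refine (Typ_true (S := S)).mono (Eventually.of_forall fun k ω _ _ j hj => ?_)
      exact absurd hj (Finset.notMem_empty j)
    | insert a s ha ih =>
      refine ((h a).and ih).mono (Eventually.of_forall fun k ω _ hh j hj => ?_)
      rcases Finset.mem_insert.1 hj with h2 | h2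
      · rw [h2]
        exact hh.1
      · exact hh.2 j h2
  refine (h1 Finset.univ).mono (Eventually.of_forall fun k ω _ hh j => hh j (Finset.mem_univ j))

/-- ROWS of a label -/
structure Rows (Q : S.VV M) (l : Lab S) (M' D : ℕ) (Λ u : ℝ) where
  p : ∀ k, (l k).T.Ω → Fin M' → MvPolynomial (Fin M) ℝ
  deg : ∀ k ω j, (p k ω j).totalDegree ≤ D
  fn : ∀ᶠ k in UF, ∀ ω ω', (l k).T.μ ω ≠ 0 → (l k).T.μ ω' ≠ 0 → (l k).T.Z ω ω' → (l k).V ω ω' → p k ω = p k ω'
  cf : ∃ K : ℕ → ℝ, S.Sub K ∧ ∀ᶠ k in UF, ∀ ω, (l k).T.μ ω ≠ 0 → ∀ j a,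
    |(p k ω j).coeff a| ≤ K k * 2 ^ (Λ * (S.F k).n)
  bd : ∃ K : ℕ → ℝ, S.Sub K ∧ Typ (S := l.sp) (fun k (ω : (l k).T.Ω) => ∀ j,
    |MvPolynomial.eval (Q.v k ((l k).p.π ω)) (p k ω j)| ≤ K k)
  lp : ∀ L : ℕ → ℝ, S.Sub L → ∃ K : ℕ → ℝ, S.Sub K ∧ Typ (S := l.sp) (fun k (ω : (l k).T.Ω) =>
    ∀ y : Fin M → ℝ, (∀ i, |y i - Q.v k ((l k).p.π ω) i| ≤ L k * S.dl 1 k) → ∀ j,
      |MvPolynomial.eval y (p k ω j) - MvPolynomial.eval (Q.v k ((l k).p.π ω)) (p k ω j)| ≤ K k * S.dl u k)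

section

variable {Q : S.VV M} (Z : ZU S) {D : ℕ} {Λ : ℝ} (R : Rows Q Z.l M' D Λ Z.u)

/-- the value of the rows -/
def Rows.val (k : ℕ) (ω : (Z.l k).T.Ω) (j : Fin M') : ℝ := MvPolynomial.eval (Q.v k ((Z.l k).p.π ω)) (R.p k ω j)

open Classical in
/-- the point of the zoom: the value of the rows, cut off at a tame size -/
def rQ : Z.sp.VV M' where
  v := fun k (ω : (Z.l k).T.Ω) j => if |Rows.val Z R k ω j| ≤ R.bd.choose k then Rows.val Z R k ω j else 0
  bd := by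
    refine ⟨R.bd.choose, Z.Sub_sp.1 R.bd.choose_spec.1, ?_⟩
    filter_upwards [R.bd.choose_spec.1.1] with k h0 ω _ j
    split_ifs with h1
    · exact h1
    · rw [abs_zero]
      exact h0

theorem rQ_eq (k : ℕ) (ω : (Z.l k).T.Ω) (j : Fin M') (h : |Rows.val Z R k ω j| ≤ R.bd.choose k) :
    (rQ Z R).v k ω j = Rows.val Z R k ω j := by
  unfold rQ
  exact if_pos h

/-- typically the point is the value of the rows -/
theorem rQ_typ : Typ (S := Z.sp) (fun k (ω : (Z.l k).T.Ω) => ∀ j, (rQ Z R).v k ω j = Rows.val Z R k ω j) := by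
  have h1 : Typ (S := Z.sp) (fun k (ω : (Z.l k).T.Ω) => ∀ j,
    |MvPolynomial.eval (Q.v k ((Z.l k).p.π ω)) (R.p k ω j)| ≤ R.bd.choose k) := R.bd.choose_spec.2
  exact h1.mono (Eventually.of_forall fun k ω _ hh j => rQ_eq Z R k ω j (hh j))

/-- the vector `X` is the value of the rows, up to `2 ^ (-u n)`, typically -/
def Rows.IsX (X : Z.sp.VV M') : Prop := ∃ K : ℕ → ℝ, S.Sub K ∧ Typ (S := Z.sp) (fun k (ω : (Z.l k).T.Ω) => ∀ j,
  |X.v k ω j - Rows.val Z R k ω j| ≤ K k * S.dl Z.u k)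

theorem rQ_isX : Rows.IsX Z R (rQ Z R) := by
  refine ⟨fun _ => 0, S.Sub_const le_rfl, (rQ_typ Z R).mono (Eventually.of_forall fun k ω _ hh j => ?_)⟩
  rw [hh j, sub_self, abs_zero, zero_mul]

end

/-- TAYLOR POLYNOMIALS of the rows on the window of a type -/
theorem rows_tay {Q : S.VV M} (Z : ZU S) (hc : 0 < Z.c) {D : ℕ} {Λ : ℝ} (R : Rows Q Z.l M' D Λ Z.u) (l : Leaf S Q E)
    (hl : Nul S (fun k => (Z.l k).leak (l.win Z.c k))) {κ : ℕ} (hκ : Λ + Z.u ≤ Z.c * (κ + 1))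
    {X : Z.sp.VV M'} (hX : Rows.IsX Z R X) :
    ∃ G : ∀ k, (Z.l k).T.Ω → Fin M' → MvPolynomial (Fin l.e) ℝ, (∀ k ω j, (G k ω j).totalDegree ≤ κ) ∧
      (∀ᶠ k in UF, ∀ ω ω', (Z.l k).T.μ ω ≠ 0 → (Z.l k).T.μ ω' ≠ 0 → (Z.l k).T.Z ω ω' → (Z.l k).V ω ω' →
        (Z.zLa l k) ω ω' → G k ω = G k ω') ∧
      ∃ K : ℕ → ℝ, S.Sub K ∧ Typ (S := Z.sp) (fun k (ω : (Z.l k).T.Ω) => (∀ j a, |(G k ω j).coeff a| ≤ K k) ∧
        ∀ j, |X.v k ω j - MvPolynomial.eval ((Z.fr l.Y).v k ω) (G k ω j)| ≤ K k * Z.sp.dl 1 k) ∧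
      Typ (S := Z.sp) (fun k (ω : (Z.l k).T.Ω) => ∀ y : Fin l.e → ℝ, (∀ i, |y i - (Z.fr l.Y).v k ω i| < 1) → ∀ j,
        |MvPolynomial.eval (l.F k ((Z.l k).p.π ω) (fun i => crn l Z.c k ((Z.l k).p.π ω) i + S.dl Z.c k * y i))
          (R.p k ω j) - MvPolynomial.eval y (G k ω j)| ≤ K k * S.dl Z.u k) := by
  classical
  obtain ⟨KX, hKX, hX⟩ := hX
  have hc1 : Z.c < 1 := by linarith [Z.h1, Z.hu]
  obtain ⟨Kc, hKc, hcf⟩ := R.cf
  obtain ⟨Kb, hKb, hbd⟩ := R.bd
  obtain ⟨Kp, hKp, hpt⟩ := l.pt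
  obtain ⟨KF, hKF, hF⟩ := l.bd
  obtain ⟨KL, hKL, hlp⟩ := R.lp Kp hKp
  set K0 : ℕ → ℝ := fun k => ((D : ℝ) + 1) ^ M * (Kc k * (KF k + 1) ^ D) + (Kb k + KL k) with hK0
  have hK0s : S.Sub K0 := by
    have h0 : (0 : ℝ) ≤ ((D : ℝ) + 1) ^ M := by positivity
    exact ((S.Sub_const h0).mul (hKc.mul (Sub_pow' (hKF.add (S.Sub_const zero_le_one)) _))).add (hKb.add hKL)
  -- the value of the rows at the point of the chart
  have hlp' : Typ (S := Z.l.sp) (fun k (ω : (Z.l k).T.Ω) => ∀ j,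
      |MvPolynomial.eval (l.F k ((Z.l k).p.π ω) (l.Y.v k ((Z.l k).p.π ω))) (R.p k ω j) -
        MvPolynomial.eval (Q.v k ((Z.l k).p.π ω)) (R.p k ω j)| ≤ KL k * S.dl Z.u k) := by
    refine hlp.mono ?_
    filter_upwards [hpt] with k h1 ω hω h2
    apply h2
    intro i
    rw [abs_sub_comm]
    exact h1 _ ((Z.l k).p.supp ω hω) i
  have key : ∀ j : Fin M', ∃ G : ∀ k, (Z.l k).T.Ω → MvPolynomial (Fin l.e) ℝ, (∀ k w, (G k w).totalDegree ≤ κ) ∧
      (∀ᶠ k in UF, ∀ w w', (Z.l k).T.μ w ≠ 0 → (Z.l k).T.μ w' ≠ 0 → (Z.l k).T.Z w w' → (Z.l k).V w w' →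
        l.La k ((Z.l k).p.π w) ((Z.l k).p.π w') → (∀ i, ⌊l.Y.v k ((Z.l k).p.π w) i / S.dl Z.c k⌋ =
          ⌊l.Y.v k ((Z.l k).p.π w') i / S.dl Z.c k⌋) → G k w = G k w') ∧
      ∃ K' : ℕ → ℝ, S.Sub K' ∧ Typ (S := Z.l.sp) (fun k w => (∀ m, |(G k w).coeff m| ≤ K' k) ∧
        ∀ y : Fin l.e → ℝ, (∀ i, |y i - l.Y.v k ((Z.l k).p.π w) i| < S.dl Z.c k) →
          |MvPolynomial.eval (l.F k ((Z.l k).p.π w) y) (R.p k w j) -
            MvPolynomial.eval (fun i => (y i - crn l Z.c k ((Z.l k).p.π w) i) / S.dl Z.c k) (G k w)| ≤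
            K' k * S.dl Z.u k) := by
    intro j
    refine tay_leaf l hc hc1 Z.l hl (D := D) (κ := κ)
      (fun k w y => MvPolynomial.eval (l.F k ((Z.l k).p.π w) y) (R.p k w j)) ?_ ?_ hκ hK0s ?_ ?_
    · filter_upwards [l.eval_mem D] with k h1 w hw
      exact ⟨_, h1 _ ((Z.l k).p.supp w hw) _ (R.deg k w j), fun y _ => rfl⟩
    · filter_upwards [R.fn, l.fn] with k h1 h2 w w' a b z v la cc
      have h3 := h1 w w' a b z v
      have h4 := h2 _ _ ((Z.l k).p.supp w a) ((Z.l k).p.supp w' b) (((Z.l k).p.hZ w w' a b).1 z) la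
      rw [h3, h4]
    · refine (Typ_true (S := Z.l.sp)).mono ?_
      filter_upwards [hcf, hF, hKc.1, hKF.1, hKb.1, hKL.1] with k h1 h2 h3 h4 h5 h6 w hw _ y hy
      have h7 := eval_le_of_coeff (R.p k w j) (R.deg k w j) (Kc k * 2 ^ (Λ * (S.F k).n)) (KF k + 1)
        (mul_nonneg h3 (by positivity)) (by linarith) (h1 w hw j) (l.F k ((Z.l k).p.π w) y) (fun i => by
          have := h2 _ ((Z.l k).p.supp w hw) y (fun i => (hy i).le) i
          linarith)
      refine h7.trans ?_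
      rw [hK0]
      beta_reduce
      have h8 : 0 ≤ (Kb k + KL k) * 2 ^ (Λ * (S.F k).n) := mul_nonneg (by linarith) (by positivity)
      have e1 : ((D : ℝ) + 1) ^ M * (Kc k * 2 ^ (Λ * (S.F k).n) * (KF k + 1) ^ D) =
          ((D : ℝ) + 1) ^ M * (Kc k * (KF k + 1) ^ D) * 2 ^ (Λ * (S.F k).n) := by ring
      rw [e1, add_mul]
      linarith
    · refine (hbd.and hlp').mono ?_
      filter_upwards [hKc.1, hKF.1, hKb.1, hKL.1] with k h3 h4 h5 h6 w hw h7
      have h8 := h7.1 j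
      have h9 := h7.2 j
      have h10 : S.dl Z.u k ≤ 1 := by
        rw [← S.dl_zero k]
        exact S.dl_anti Z.hu.le k
      have h11 : KL k * S.dl Z.u k ≤ KL k * 1 := mul_le_mul_of_nonneg_left h10 h6
      have h12 := abs_add_le (MvPolynomial.eval (l.F k ((Z.l k).p.π w) (l.Y.v k ((Z.l k).p.π w))) (R.p k w j) -
        MvPolynomial.eval (Q.v k ((Z.l k).p.π w)) (R.p k w j)) (MvPolynomial.eval (Q.v k ((Z.l k).p.π w)) (R.p k w j))
      rw [sub_add_cancel] at h12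
      have h13 : 0 ≤ ((D : ℝ) + 1) ^ M * (Kc k * (KF k + 1) ^ D) := by positivity
      rw [hK0]
      beta_reduce
      linarith
  choose G hG1 hG2 K' hK' hT using key
  have hT2 : Typ (S := Z.l.sp) (fun k w => ∀ j, ((∀ m, |(G j k w).coeff m| ≤ K' j k) ∧
        ∀ y : Fin l.e → ℝ, (∀ i, |y i - l.Y.v k ((Z.l k).p.π w) i| < S.dl Z.c k) →
          |MvPolynomial.eval (l.F k ((Z.l k).p.π w) y) (R.p k w j) -
            MvPolynomial.eval (fun i => (y i - crn l Z.c k ((Z.l k).p.π w) i) / S.dl Z.c k) (G j k w)| ≤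
            K' j k * S.dl Z.u k)) := Typ_all _ hT
  have hpos : ∀ᶠ k in UF, ∀ j, 0 ≤ K' j k := eventually_all.2 fun j => (hK' j).1
  refine ⟨fun k ω j => G j k ω, fun k ω j => hG1 j k ω, ?_, fun k => ∑ j, K' j k + (KL k + KX k), ?_, ?_, ?_⟩
  · have h1 : ∀ᶠ k in UF, ∀ j, ∀ w w', (Z.l k).T.μ w ≠ 0 → (Z.l k).T.μ w' ≠ 0 → (Z.l k).T.Z w w' → (Z.l k).V w w' →
        l.La k ((Z.l k).p.π w) ((Z.l k).p.π w') → (∀ i, ⌊l.Y.v k ((Z.l k).p.π w) i / S.dl Z.c k⌋ =
          ⌊l.Y.v k ((Z.l k).p.π w') i / S.dl Z.c k⌋) → G j k w = G j k w' := eventually_all.2 hG2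
    filter_upwards [h1] with k hk ω ω' a b z v r
    funext j
    exact hk j ω ω' a b z v r.1 (fun i => congrFun r.2 i)
  · have h1 : S.Sub (fun k => ∑ j, K' j k) := by
      have h2 : ∀ s : Finset (Fin M'), S.Sub (fun k => ∑ j ∈ s, K' j k) := by
        intro s
        induction s using Finset.induction_on with
        | empty =>
          simp only [Finset.sum_empty]
          exact S.Sub_const le_rfl
        | insert a s ha ih =>
          simp only [Finset.sum_insert ha]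
          exact (hK' a).add ih
      exact h2 _
    exact h1.add (hKL.add hKX)
  · have hT4 := (hT2.and hlp').and hX
    refine Typ.mono (S := Z.sp) hT4 ?_
    filter_upwards [hpos, hKL.1, hKX.1] with k h0 h1 h1X
    intro (w : (Z.l k).T.Ω) hw h2
    obtain ⟨⟨h2, h3⟩, h4⟩ := h2
    have hsum : ∀ j, K' j k ≤ ∑ j, K' j k := fun j =>
      Finset.single_le_sum (f := fun j => K' j k) (fun i _ => h0 i) (Finset.mem_univ j)
    have hsum0 : 0 ≤ ∑ j, K' j k := Finset.sum_nonneg fun j _ => h0 j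
    refine ⟨fun j a => ((h2 j).1 a).trans (by linarith [hsum j]), fun j => ?_⟩
    rw [Z.sp_dl1]
    have h5 := (h2 j).2 (l.Y.v k ((Z.l k).p.π w)) (fun i => by
      rw [sub_self, abs_zero]
      exact S.dl_pos _ _)
    have h6 : (fun i => (l.Y.v k ((Z.l k).p.π w) i - crn l Z.c k ((Z.l k).p.π w) i) / S.dl Z.c k) =
        (Z.fr l.Y).v k w := by
      funext i
      have hd := (S.dl_pos Z.c k).ne'
      rw [Z.fr_v]
      unfold crn
      field_simp
    rw [h6] at h5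
    have h7 := h3 j
    have h8 := abs_add_le (Rows.val Z R k w j - MvPolynomial.eval (l.F k ((Z.l k).p.π w) (l.Y.v k ((Z.l k).p.π w)))
      (R.p k w j)) (MvPolynomial.eval (l.F k ((Z.l k).p.π w) (l.Y.v k ((Z.l k).p.π w))) (R.p k w j) -
        MvPolynomial.eval ((Z.fr l.Y).v k w) (G j k w))
    rw [sub_add_sub_cancel] at h8
    have h9 : |Rows.val Z R k w j - MvPolynomial.eval (l.F k ((Z.l k).p.π w) (l.Y.v k ((Z.l k).p.π w)))
      (R.p k w j)| ≤ KL k * S.dl Z.u k := by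
      rw [abs_sub_comm]
      exact h7
    have h10 := mul_le_mul_of_nonneg_right (hsum j) (S.dl_pos Z.u k).le
    have h11 := h4 j
    have h12 := abs_add_le (X.v k w j - Rows.val Z R k w j) (Rows.val Z R k w j - MvPolynomial.eval ((Z.fr l.Y).v k w) (G j k w))
    rw [sub_add_sub_cancel] at h12
    rw [add_mul, add_mul]
    linarith
  · refine Typ.mono (S := Z.sp) hT2 ?_
    filter_upwards [hpos, hKL.1, hKX.1] with k h0 h1 h1X
    intro (w : (Z.l k).T.Ω) hw h2 y hy j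
    have hd := S.dl_pos Z.c k
    have hsum : K' j k ≤ ∑ j, K' j k :=
      Finset.single_le_sum (f := fun j => K' j k) (fun i _ => h0 i) (Finset.mem_univ j)
    have h5 := (h2 j).2 (fun i => crn l Z.c k ((Z.l k).p.π w) i + S.dl Z.c k * y i) (fun i => by
      have e1 : crn l Z.c k ((Z.l k).p.π w) i + S.dl Z.c k * y i - l.Y.v k ((Z.l k).p.π w) i =
          S.dl Z.c k * (y i - (Z.fr l.Y).v k w i) := by
        rw [Z.fr_v]
        unfold crn
        field_simp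
        ring
      rw [e1, abs_mul, abs_of_pos hd]
      exact mul_lt_of_lt_one_right hd (hy i))
    have e2 : (fun i => (crn l Z.c k ((Z.l k).p.π w) i + S.dl Z.c k * y i - crn l Z.c k ((Z.l k).p.π w) i) /
        S.dl Z.c k) = y := by
      funext i
      field_simp
      ring
    rw [e2] at h5
    refine h5.trans (mul_le_mul_of_nonneg_right ?_ (S.dl_pos Z.u k).le)
    linarith

end

end Pool.Agent.Helper7.GZ
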