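import Pool.Agent.Helper7.GZ.Row

/-! ZOOM IN THE COORDINATES OF ROWS, the system: the values of the rows are the point of a system of polynomial leaves
over the label, in the unit `u`. Windows, labels, connectedness. -/

set_option autoImplicit false

namespace Pool.Agent.Helper7.GZ

open Finset Filter Topology Matrix Pool.Agent.Helper69.RK Pool.Agent.Helper31.EC Pool.Agent.Helper31.EC.Sp
open Pool.Agent.Helper40.EL Pool.Agent.Helper89.LX Pool.Agent.Helper3.LF Pool.Agent.Helper84.MT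
open Pool.Agent.Helper81.AD

noncomputable section

variable {S : Sp} {M M' : ℕ} {E : ℕ → ℕ} {ι : Type}

/-- digits which are known on a typical event -/
theorem PLe_cell_typ {m : ℕ} (y : S.VV m) (r : ℝ) (B : ∀ k, Setoid (S.F k).Ω) (K : ℕ → ℝ) (hK : S.Sub K)
    {A : ∀ k, (S.F k).Ω → Prop} (hA : Typ A)
    (hh : ∀ᶠ k in UF, ∀ ω ω', (S.F k).μ ω ≠ 0 → (S.F k).μ ω' ≠ 0 → A k ω → A k ω' → (S.F k).Z ω ω' → B k ω ω' →
      ∀ i, |y.v k ω i - y.v k ω' i| ≤ K k * S.dl r k) :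
    PLe (fun k => fc (Setoid.ker (y.cellv r k))) (fun k => fc (B k)) := by
  apply PLe_of_typ' hA
  · have h1 : PLe (S := S.rest A) (fun k => fc (F := (S.F k).rest (A k)) (Setoid.ker ((y.rest A).cellv r k)))
        (fun k => fc (F := (S.F k).rest (A k)) (B k)) := by
      refine PLe_cell (S := S.rest A) (y.rest A) r B K hK ?_
      filter_upwards [hh, pb_ne_zero (Sp.ul_pr_typ_pos A hA)] with k hk h0 ω ω' a b z c i
      have a' : ((S.F k).rest (A k)).μ ω ≠ 0 := a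
      have b' : ((S.F k).rest (A k)).μ ω' ≠ 0 := b
      exact hk ω ω' ((S.F k).rest_supp (A k) ω a').1 ((S.F k).rest_supp (A k) ω' b').1
        (((S.F k).rest_supp (A k) ω a').2 h0) (((S.F k).rest_supp (A k) ω' b').2 h0) z c i
    exact h1
  · exact rpI_Bd (((y.rest fun k ω => ¬ A k ω).bdd r).toInf)

/-- the data of the zoom in the coordinates of rows -/
structure RZ (s : MSys S M E ι) (M' : ℕ) where
  Z : ZU S
  hc : 0 < Z.c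
  dm : s.DMc Z.c Z.l
  D : ℕ
  Λ : ℝ
  R : Rows s.Q Z.l M' D Λ Z.u
  X : Z.sp.VV M'
  hX : Rows.IsX Z R X
  κ : ℕ
  hκ1 : 1 ≤ κ
  he : ∀ i, (s.lf i).e ≤ κ
  hκ : Λ + Z.u ≤ Z.c * (κ + 1)

namespace RZ

variable {s : MSys S M E ι} (z : RZ s M')

/-- the Taylor polynomials -/
def G (i : ι) : ∀ k, (z.Z.l k).T.Ω → Fin M' → MvPolynomial (Fin (s.lf i).e) ℝ :=
  (rows_tay z.Z z.hc z.R (s.lf i) (z.dm (some i)) z.hκ z.hX).choose

theorem G_deg (i : ι) : ∀ k ω j, (z.G i k ω j).totalDegree ≤ z.κ :=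
  (rows_tay z.Z z.hc z.R (s.lf i) (z.dm (some i)) z.hκ z.hX).choose_spec.1

theorem G_fn (i : ι) : ∀ᶠ k in UF, ∀ ω ω', (z.Z.l k).T.μ ω ≠ 0 → (z.Z.l k).T.μ ω' ≠ 0 → (z.Z.l k).T.Z ω ω' →
    (z.Z.l k).V ω ω' → (z.Z.zLa (s.lf i) k) ω ω' → z.G i k ω = z.G i k ω' :=
  (rows_tay z.Z z.hc z.R (s.lf i) (z.dm (some i)) z.hκ z.hX).choose_spec.2.1

/-- the bound of the Taylor polynomials -/
def K (i : ι) : ℕ → ℝ := (rows_tay z.Z z.hc z.R (s.lf i) (z.dm (some i)) z.hκ z.hX).choose_spec.2.2.choose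

theorem K_sub (i : ι) : S.Sub (z.K i) :=
  (rows_tay z.Z z.hc z.R (s.lf i) (z.dm (some i)) z.hκ z.hX).choose_spec.2.2.choose_spec.1

/-- the event of the Taylor polynomials -/
def A (i : ι) (k : ℕ) (ω : (z.Z.sp.F k).Ω) : Prop := (∀ j a, |(z.G i k ω j).coeff a| ≤ z.K i k) ∧
  ∀ j, |z.X.v k ω j - MvPolynomial.eval ((z.Z.fr (s.lf i).Y).v k ω) (z.G i k ω j)| ≤ z.K i k * z.Z.sp.dl 1 k

theorem A_typ (i : ι) : Typ (S := z.Z.sp) (z.A i) :=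
  (rows_tay z.Z z.hc z.R (s.lf i) (z.dm (some i)) z.hκ z.hX).choose_spec.2.2.choose_spec.2.1

/-- the Taylor polynomials on the cube -/
theorem G_cube (i : ι) : Typ (S := z.Z.sp) (fun k (ω : (z.Z.l k).T.Ω) => ∀ y : Fin (s.lf i).e → ℝ,
    (∀ a, |y a - (z.Z.fr (s.lf i).Y).v k ω a| < 1) → ∀ j,
      |MvPolynomial.eval ((s.lf i).F k ((z.Z.l k).p.π ω) (fun a =>
        Pool.Agent.Helper89.TAY.crn (s.lf i) z.Z.c k ((z.Z.l k).p.π ω) a + S.dl z.Z.c k * y a)) (z.R.p k ω j) -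
          MvPolynomial.eval y (z.G i k ω j)| ≤ z.K i k * S.dl z.Z.u k) :=
  (rows_tay z.Z z.hc z.R (s.lf i) (z.dm (some i)) z.hκ z.hX).choose_spec.2.2.choose_spec.2.2

theorem G_fn' (i : ι) : ∀ᶠ k in UF, ∀ ω ω', (z.Z.sp.F k).μ ω ≠ 0 → (z.Z.sp.F k).μ ω' ≠ 0 → (z.Z.sp.F k).Z ω ω' →
    (z.Z.zLa (s.lf i) k) ω ω' → z.G i k ω = z.G i k ω' := by
  filter_upwards [z.G_fn i] with k hk ω ω' a b g r
  obtain ⟨g1, g2, -⟩ := z.Z.hZ k ω ω' a b g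
  exact hk ω ω' a b g2 g1 r

theorem A_pt (i : ι) : ∃ K : ℕ → ℝ, z.Z.sp.Sub K ∧ ∀ᶠ k in UF, ∀ ω, (z.Z.sp.F k).μ ω ≠ 0 → z.A i k ω →
    (∀ j a, |(z.G i k ω j).coeff a| ≤ K k) ∧
      ∀ j, |z.X.v k ω j - MvPolynomial.eval ((z.Z.fr (s.lf i).Y).v k ω) (z.G i k ω j)| ≤
        K k * z.Z.sp.dl 1 k :=
  ⟨z.K i, z.Z.Sub_sp.1 (z.K_sub i), Eventually.of_forall fun _ _ _ h => h⟩

/-- THE ZOOM IN THE COORDINATES OF THE ROWS -/
def sys : MSys z.Z.sp M' (lin z.κ) ι where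
  Q := z.X
  lf := fun i => ofPolyT z.κ z.hκ1 (s.lf i).e (z.he i) (z.Z.zLa (s.lf i)) (z.Z.fr (s.lf i).Y) (z.G i) (z.G_deg i)
    (z.G_fn' i) (z.A i) (z.A_typ i) (z.A_pt i) (z.Z.zfull (s.lf i) (z.dm (some i)))

theorem sys_Q : z.sys.Q = z.X := rfl

theorem sys_e (i : ι) : (z.sys.lf i).e = (s.lf i).e := rfl

/-- parts in the space of the zoom -/
abbrev upz (A : Part S) : Part z.Z.sp := z.Z.l.up z.Z.u z.Z.hu A

theorem PLe_upz {A B : Part S} (h : PLe A B) : PLe (z.upz A) (z.upz B) :=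
  Lab.PLe_up (l := z.Z.l) (c := z.Z.u) (hc := z.Z.hu) h

/-- the coordinates are known to the point -/
theorem pcd_up : PLe (pcd z.sys.Q) (z.upz (pcd s.Q)) := by
  obtain ⟨K, hK, hT⟩ := z.R.lp (fun _ => 1) (S.Sub_const zero_le_one)
  have hT2 : Typ (S := z.Z.sp) (fun k (ω : (z.Z.l k).T.Ω) =>
    ∀ y : Fin M → ℝ, (∀ i, |y i - s.Q.v k ((z.Z.l k).p.π ω) i| ≤ 1 * S.dl 1 k) → ∀ j,
      |MvPolynomial.eval y (z.R.p k ω j) - MvPolynomial.eval (s.Q.v k ((z.Z.l k).p.π ω)) (z.R.p k ω j)| ≤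
        K k * S.dl z.Z.u k) := hT
  obtain ⟨KX, hKX, hX⟩ := z.hX
  refine PLe_cell_typ (S := z.Z.sp) z.X 1
    (fun k => Setoid.comap (z.Z.l k).p.π (Setoid.ker (s.Q.cellv 1 k))) (fun k => K k + 2 * KX k)
    (z.Z.Sub_sp.1 (hK.add ((S.Sub_const (by norm_num)).mul hKX))) (hX.and hT2) ?_
  filter_upwards [z.R.fn] with k hfn
  intro (ω : (z.Z.l k).T.Ω) (ω' : (z.Z.l k).T.Ω) a b h1 h2 g r j
  obtain ⟨g1, g2, -⟩ := z.Z.hZ k ω ω' a b g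
  rw [z.Z.sp_dl1]
  have h3 : z.R.p k ω = z.R.p k ω' := hfn ω ω' a b g2 g1
  have h4 := h2.2 (s.Q.v k ((z.Z.l k).p.π ω)) (fun i => by
    rw [one_mul]
    exact abs_sub_le_of_floor_eq (S.dl_pos 1 k) (congrFun r i)) j
  have h5 := h1.1 j
  have h6 := h2.1 j
  have e1 : z.X.v k ω j - z.X.v k ω' j = (z.X.v k ω j - Rows.val z.Z z.R k ω j) +
      (Rows.val z.Z z.R k ω j - Rows.val z.Z z.R k ω' j) - (z.X.v k ω' j - Rows.val z.Z z.R k ω' j) := by ring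
  have h7 : |Rows.val z.Z z.R k ω j - Rows.val z.Z z.R k ω' j| ≤ K k * S.dl z.Z.u k := by
    unfold Rows.val
    rw [h3]
    exact h4
  rw [e1, add_mul, mul_assoc]
  have h8 := abs_sub ((z.X.v k ω j - Rows.val z.Z z.R k ω j) +
      (Rows.val z.Z z.R k ω j - Rows.val z.Z z.R k ω' j)) (z.X.v k ω' j - Rows.val z.Z z.R k ω' j)
  have h9 := abs_add_le (z.X.v k ω j - Rows.val z.Z z.R k ω j) (Rows.val z.Z z.R k ω j - Rows.val z.Z z.R k ω' j)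
  linarith

/-- windows of the zoom -/
theorem win_le (i : ι) {b : ℝ} (hb : 0 ≤ b) :
    PLe ((z.sys.lf i).win b) (z.upz ((s.lf i).win (z.Z.c + z.Z.u * b))) :=
  PLe.trans (S := z.Z.sp) (ofPolyT_win_le (S := z.Z.sp) z.κ z.hκ1 (s.lf i).e (z.he i) (z.Z.zLa (s.lf i))
    (z.Z.fr (s.lf i).Y) (z.G i) (z.G_deg i) (z.G_fn' i) (z.A i) (z.A_typ i) (z.A_pt i)
    (z.Z.zfull (s.lf i) (z.dm (some i))) b) (z.Z.win_up (s.lf i) hb)

theorem win_ge (i : ι) (b : ℝ) :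
    PLe (z.upz ((s.lf i).win (z.Z.c + z.Z.u * b))) ((z.sys.lf i).win b) :=
  PLe.trans (S := z.Z.sp) (z.Z.up_win (s.lf i) b) (ofPolyT_win_ge (S := z.Z.sp) z.κ z.hκ1 (s.lf i).e (z.he i)
    (z.Z.zLa (s.lf i)) (z.Z.fr (s.lf i).Y) (z.G i) (z.G_deg i) (z.G_fn' i) (z.A i) (z.A_typ i) (z.A_pt i)
    (z.Z.zfull (s.lf i) (z.dm (some i))) b)

/-- CONDITIONS OF THE ZOOM -/
theorem cnd_up {b : ℝ} (hb : 0 ≤ b) (i : Option ι) : PLe (z.sys.cnd b i) (z.upz (s.cnd (z.Z.c + z.Z.u * b) i)) := by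
  rcases i with _ | i
  · exact z.pcd_up
  · exact z.win_le i hb

theorem c_le {b : ℝ} (hb : 0 ≤ b) : z.Z.c ≤ z.Z.c + z.Z.u * b := by
  have := mul_nonneg z.Z.hu.le hb
  linarith

/-- labels of the zoom, in terms of the conditions of the system -/
theorem DMc_up {b : ℝ} (hb : 0 ≤ b) {y : Lab z.Z.sp} (h : z.sys.DMc b y) :
    y.DMf (fun i => z.upz (s.cnd (z.Z.c + z.Z.u * b) i)) := Lab.DMf.mono h fun i => ⟨i, z.cnd_up hb i⟩

/-- labels of the zoom as labels of the system -/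
def cl (y : Lab z.Z.sp) : Lab S := z.Z.l.comp z.Z.u z.Z.hu y

/-- LABELS OF THE ZOOM ARE LABELS OF THE SYSTEM -/
theorem DMc_cl {b : ℝ} (hb : 0 ≤ b) {y : Lab z.Z.sp} (hy : z.sys.DMc b y) :
    s.DMc (z.Z.c + z.Z.u * b) (z.cl y) := Lab.DMf.comp (z.dm.mono (z.c_le hb)) (z.DMc_up hb hy)

/-- OVER A MAXIMAL LABEL OF THE WINDOW `c` THE ZOOM IS CONNECTED at the window `0` -/
theorem Con_zero (h : s.IsKap z.Z.c z.Z.l) : z.sys.Con 0 := by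
  have h1 : Lab.Conf (fun i => z.upz (s.cnd z.Z.c i)) := Lab.IsMaxf.conf (i₀ := none) h (pcd_Bd s.Q)
  refine Lab.Conf.mono h1 fun i => ⟨i, ?_⟩
  have h2 := z.cnd_up le_rfl i
  rw [mul_zero, add_zero] at h2
  exact h2

end RZ

end

end Pool.Agent.Helper7.GZ
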