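import Pool.Agent.Helper7.GZ.Zm

/-! VOLUMES, LABELS AND CONNECTEDNESS OF ANY ZOOM `Gz` in the coordinates of a frame. -/

set_option autoImplicit false

namespace Pool.Agent.Helper7.GZ

open Finset Filter Topology Matrix Pool.Agent.Helper69.RK Pool.Agent.Helper31.EC Pool.Agent.Helper31.EC.Sp
open Pool.Agent.Helper40.EL Pool.Agent.Helper89.LX Pool.Agent.Helper3.LF Pool.Agent.Helper84.MT
open Pool.Agent.Helper36.AM (Frm Gz volO)

noncomputable section

variable {S : Sp} {M : ℕ} {E E' : ℕ → ℕ} {ι : Type}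

namespace FrZ

variable {s : MSys S M E ι} {l : Lab S} {La : Fin M → ℝ} (F : FrZ s l La)

/-- the zoom with another point near the coordinates of the frame -/
def rzX (X : F.zu.sp.VV M) (hX : Rows.IsX F.zu F.rows X) : RZ s M where
  Z := F.zu
  hc := F.hc
  dm := F.dm
  D := (F.κ₀ + 1) ^ M
  Λ := F.Λ
  R := F.rows
  X := X
  hX := hX
  κ := F.κ
  hκ1 := F.hκ1
  he := F.hdim
  hκ := F.hκ

theorem vol_le_X [Finite ι] (X : F.zu.sp.VV M) (hX : Rows.IsX F.zu F.rows X) {D DD : ℕ} (hD : 1 ≤ D)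
    (hDD : D * (F.κ₀ + 1) ^ M ≤ DD) {b : ℝ} (hb : 0 ≤ b) :
    s.vol DD (F.c + F.e * b) ≤ M - ∑ j, La j - F.e * (M - (F.rzX X hX).sys.vol D b) := by
  classical
  have h := (F.rzX X hX).vol_le hD hDD hb (fun _ _ => ∑ j, La j) (∑ j, La j) (Eventually.of_forall fun k ω _ => by
    rw [abs_of_nonneg (Finset.sum_nonneg fun j _ => F.h0 j)]) (fun _ => 1) (S.Sub_const zero_le_one) (by
    refine (Typ_true (S := (F.rzX X hX).Z.l.sp)).mono (Eventually.of_forall fun k ω _ _ => le_of_eq ?_)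
    have h1 : (jac ((F.rzX X hX).R.p k ω) (s.Q.v k (((F.rzX X hX).Z.l k).p.π ω))).det = ∏ j, (S.dl (La j) k)⁻¹ :=
      jac_inv (F.f.tri k ω) (fun j => (S.dl (La j) k)⁻¹) _
    rw [h1, one_mul]
    have h2 : ∏ j, (S.dl (La j) k)⁻¹ = 2 ^ ((∑ j, La j) * (S.F k).n) := by
      rw [Finset.sum_mul, Real.rpow_sum_of_pos (by norm_num)]
      exact Finset.prod_congr rfl fun j _ => dl_inv_eq _ _
    rw [h2, ← Real.rpow_natCast, ← Real.rpow_mul (by norm_num)]
    congr 1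
    push_cast
    ring)
  have h2 : ul (fun k => ∑ ω, ((F.rzX X hX).Z.l k).T.μ ω * ∑ j, La j) = ∑ j, La j := by
    have h3 : (fun k => ∑ ω, ((F.rzX X hX).Z.l k).T.μ ω * ∑ j, La j) = fun _ => ∑ j, La j := by
      funext k
      rw [← Finset.sum_mul, Pool.Agent.Helper3.PR.sum_mu, one_mul]
    rw [h3, ul_const]
  rw [h2] at h
  exact h

/-! ### any zoom in the coordinates of the frame -/

variable {t : MSys (l.ovr F.e F.he) M E' ι} (h : Gz s l F.c F.e F.he F.f.X t)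

include h

theorem gz_isX : Rows.IsX F.zu F.rows t.Q := by
  obtain ⟨K, hK, h1⟩ := F.isX
  obtain ⟨K', hK', h2⟩ := h.pt
  refine ⟨fun k => K' k + K k, hK'.add hK, ?_⟩
  refine Typ.mono (S := F.zu.sp) h1 ?_
  filter_upwards [h2] with k a
  intro (ω : (l k).T.Ω) hω b j
  have a1 : |t.Q.v k ω j - F.f.X.v k ω j| ≤ K' k * S.dl F.e k := a ω hω j
  have a2 : |F.f.X.v k ω j - Rows.val F.zu F.rows k ω j| ≤ K k * S.dl F.e k := b j
  have a3 := abs_add_le (t.Q.v k ω j - F.f.X.v k ω j) (F.f.X.v k ω j - Rows.val F.zu F.rows k ω j)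
  rw [sub_add_sub_cancel] at a3
  show |t.Q.v k ω j - Rows.val F.zu F.rows k ω j| ≤ (K' k + K k) * S.dl F.e k
  rw [add_mul]
  linarith

theorem gz_eqv {b : ℝ} (hb : 0 ≤ b) (hb1 : b ≤ 1) : Eqv (F.rzX t.Q (F.gz_isX h)).sys t b where
  pt := rfl
  le := fun i => by
    rcases i with _ | i
    · exact PLe.refl _
    · exact (h.win b i hb hb1).1.trans ((F.rzX t.Q (F.gz_isX h)).win_ge i b)
  ge := fun i => by
    rcases i with _ | i
    · exact PLe.refl _
    · exact ((F.rzX t.Q (F.gz_isX h)).win_le i hb).trans (h.win b i hb hb1).2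

/-- LABELS of a zoom -/
theorem gz_DMc {b : ℝ} (hb : 0 ≤ b) (hb1 : b ≤ 1) {y : Lab (l.ovr F.e F.he)} (hy : t.DMc b y) :
    s.DMc (F.c + F.e * b) (l.comp F.e F.he y) :=
  (F.rzX t.Q (F.gz_isX h)).DMc_cl hb ((F.gz_eqv h hb hb1).DMc hy)

/-- CONNECTEDNESS of a zoom -/
theorem gz_con (hl : s.IsKap F.c l) : t.Con 0 :=
  (F.gz_eqv h le_rfl zero_le_one).Con ((F.rzX t.Q (F.gz_isX h)).Con_zero hl)

/-- VOLUMES of a zoom -/
theorem gz_vol [Finite ι] {D DD : ℕ} (hD : 1 ≤ D) (hDD : D * (F.κ₀ + 1) ^ M ≤ DD) {b : ℝ} (hb : 0 ≤ b) (hb1 : b ≤ 1) :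
    s.vol DD (F.c + F.e * b) ≤ M - ∑ j, La j - F.e * (M - t.vol D b) := by
  have h3 : t.vol D b = (F.rzX t.Q (F.gz_isX h)).sys.vol D b := (F.gz_eqv h hb hb1).vol D
  refine (F.vol_le_X t.Q (F.gz_isX h) hD hDD hb).trans (le_of_eq ?_)
  exact congrArg (fun v : ℝ => (M : ℝ) - ∑ j, La j - F.e * (M - v)) h3.symm

theorem gz_volO [Finite ι] {b : ℝ} (hb : 0 ≤ b) (hb1 : b ≤ 1) :
    volO s (F.c + F.e * b) ≤ M - ∑ j, La j - F.e * (M - volO t b) := by
  have h1 : ∀ D : ℕ, 1 ≤ D → volO s (F.c + F.e * b) ≤ M - ∑ j, La j - F.e * (M - t.vol D b) := fun D hD =>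
    (Pool.Agent.Helper84.MT.volO_le s (D * (F.κ₀ + 1) ^ M) _).trans (F.gz_vol h hD le_rfl hb hb1)
  have h2 : ∀ D : ℕ, volO s (F.c + F.e * b) ≤ M - ∑ j, La j - F.e * (M - t.vol D b) := by
    intro D
    rcases Nat.eq_zero_or_pos D with h0 | h0
    · rw [h0, t.vol_zero]
      have h3 := h1 1 le_rfl
      have h4 := mul_nonneg F.he.le (sub_nonneg.2 (t.vol_le_M 1 b))
      linarith
    · exact h1 D h0
  have h5 := F.he
  have h3 : (M - (M - ∑ j, La j - volO s (F.c + F.e * b)) / F.e) ≤ volO t b := by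
    refine le_ciInf fun D => ?_
    have h4 := h2 D
    have h7 : M - t.vol D b ≤ (M - ∑ j, La j - volO s (F.c + F.e * b)) / F.e := by
      rw [le_div_iff₀ h5]
      linarith
    linarith
  have h6 : M - volO t b ≤ (M - ∑ j, La j - volO s (F.c + F.e * b)) / F.e := by linarith
  rw [le_div_iff₀ h5] at h6
  linarith

/-- HULL of a zoom -/
theorem gz_hull [Finite ι] (hv : (M : ℝ) - ∑ j, La j ≤ volO s F.c) : volO t 0 = M := by
  have h8 := F.gz_volO h le_rfl zero_le_one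
  rw [mul_zero, add_zero] at h8
  apply le_antisymm (volO_le_M t 0)
  have h9 : 0 ≤ -(F.e * (M - volO t 0)) := by linarith
  have h10 := F.he
  nlinarith

end FrZ

/-! ### the same for frames with weights -/

/-- the degrees of a frame with weights -/
theorem frm_deg {Q : S.VV M} {l : Lab S} {w : Fin M → ℝ} {c : ℝ} (f : Frm Q l (fun j => w j * c)) (hc : 0 < c)
    (hw : ∀ j, 1 ≤ w j) {W : ℕ} (hW : ∀ j, w j ≤ W) (k : ℕ) (ω : (l.sp.F k).Ω) (j : Fin M) :
    (f.P k ω j).totalDegree ≤ W := by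
  have h0 : ∀ j, (0 : ℝ) ≤ w j := fun j => zero_le_one.trans (hw j)
  have h1 : Pool.Agent.Helper77.WDG.WLe w (w j) (f.P k ω j) := by
    intro a ha
    by_cases h : a = 0
    · rw [h, Pool.Agent.Helper77.WDG.wt_zero]
      exact h0 j
    · have h2 := f.red k ω j a ha h
      have h3 : Pool.Agent.Helper77.WDG.wt w a * c < w j * c := by
        rw [← Pool.Agent.Helper77.WDG.wt_smul]
        exact h2
      exact (lt_of_mul_lt_mul_right h3 hc.le).le
  have h2 := (h1.totalDegree hw (h0 j)).trans (hW j)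
  exact_mod_cast h2

/-- data: a frame with exponents `w j * c` of a label of the window `c`, unit `e` -/
def frzW {g : ℕ} {s : MSys S M (Pool.Agent.Helper84.MT.lin g) ι} {l : Lab S} {w : Fin M → ℝ} {c e : ℝ}
    (f : Frm s.Q l (fun j => w j * c)) (hc : 0 < c) (he : 0 < e) (h1 : c + e ≤ 1) (hwe : ∀ j, w j * c + e ≤ 1)
    (dm : s.DMc c l) (hw : ∀ j, 1 ≤ w j) {W : ℕ} (hW : ∀ j, w j ≤ W) : FrZ s l (fun j => w j * c) where
  f := f
  c := c
  e := e
  hc := hc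
  he := he
  h1 := h1
  dm := dm
  h0 := fun j => mul_nonneg (zero_le_one.trans (hw j)) hc.le
  hLe := hwe
  κ₀ := W
  hκ₀ := frm_deg f hc hw hW
  Λ := 1 - e
  hΛ := fun j => by
    have := hwe j
    linarith
  κ := ⌈1 / c⌉₊ + g + 1
  hκ1 := Nat.le_add_left _ _
  hdim := fun i => by
    have h1 := (s.lf i).he
    unfold Pool.Agent.Helper84.MT.lin at h1
    rw [zero_add, mul_one] at h1
    omega
  hκ := by
    have h1 : 1 / c ≤ ⌈1 / c⌉₊ := Nat.le_ceil _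
    rw [div_le_iff₀ hc] at h1
    push_cast
    have h3 : (0 : ℝ) ≤ g := Nat.cast_nonneg g
    nlinarith

/-- ANY ZOOM in the coordinates of a frame with weights: labels, connectedness, volumes, hull -/
theorem gz_all [Finite ι] {g : ℕ} {s : MSys S M (Pool.Agent.Helper84.MT.lin g) ι} {l : Lab S} {w : Fin M → ℝ}
    {c e : ℝ} (f : Frm s.Q l (fun j => w j * c)) (hc : 0 < c) (he : 0 < e) (h1 : c + e ≤ 1)
    (hwe : ∀ j, w j * c + e ≤ 1) (dm : s.DMc c l) (hw : ∀ j, 1 ≤ w j) {t : MSys (l.ovr e he) M E' ι}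
    (h : Gz s l c e he f.X t) :
    (s.IsKap c l → t.Con 0) ∧
    (∀ b, 0 ≤ b → b ≤ 1 → ∀ y : Lab (l.ovr e he), t.DMc b y → s.DMc (c + e * b) (l.comp e he y)) ∧
    (∀ b, 0 ≤ b → b ≤ 1 → volO s (c + e * b) ≤ M - (∑ j, w j) * c - e * (M - volO t b)) ∧
    ((M : ℝ) - (∑ j, w j) * c ≤ volO s c → volO t 0 = M) := by
  obtain ⟨W, hW⟩ : ∃ W : ℕ, ∀ j, w j ≤ W := by
    obtain ⟨W, hW⟩ := exists_nat_ge (∑ j, w j)
    exact ⟨W, fun j => (Finset.single_le_sum (f := w) (fun i _ => zero_le_one.trans (hw i))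
      (Finset.mem_univ j)).trans hW⟩
  rw [Finset.sum_mul]
  exact ⟨(frzW f hc he h1 hwe dm hw hW).gz_con h, fun b hb hb1 y hy => (frzW f hc he h1 hwe dm hw hW).gz_DMc h hb hb1 hy,
    fun b hb hb1 => (frzW f hc he h1 hwe dm hw hW).gz_volO h hb hb1, (frzW f hc he h1 hwe dm hw hW).gz_hull h⟩

end

end Pool.Agent.Helper7.GZ
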