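import Pool.Agent.Helper84.MT.Vol
import Pool.Agent.Helper26.MT.Zg
import Pool.Agent.Helper81.MI.Pol

/-! FORMS PULLED BACK ALONG POLYNOMIAL MAPS. Let `P : R ^ M → R ^ m` be a polynomial map of degree `p` and `B` a form of
degree `D` on `R ^ m`. The form `sbf P r B` of degree `D p` on `R ^ M` is the sum of the pull backs of `B` along all the
maps `P + r τ`, `τ` a node. Its gradient matrix at one point is above the pull back of the gradient matrix `Jq` of `B`. -/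

set_option autoImplicit false

namespace Pool.Agent.Helper7.GZ

open MvPolynomial Matrix Pool.Agent.Helper95.LF Pool.Agent.Helper3.LF Pool.Agent.Helper84.MT
open Pool.Agent.Helper81.MI (totalDegree_bind eval_bind)

noncomputable section

variable {M m D DD : ℕ}

/-- the coefficients of the pulled back monomials -/
def Tm (DD : ℕ) (P : Fin m → MvPolynomial (Fin M) ℝ) : Matrix (Mon M DD) (Mon m D) ℝ :=
  Matrix.of fun a b => (bind₁ P b.mon).coeff a.ex

/-- the vector of the coefficients -/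
def cfv (DD : ℕ) (q : MvPolynomial (Fin M) ℝ) : Mon M DD → ℝ := fun a => q.coeff a.ex

theorem pol_cfv (q : MvPolynomial (Fin M) ℝ) (hq : q.totalDegree ≤ DD) : pol (cfv DD q) = q := by
  obtain ⟨c, rfl⟩ := exists_pol q hq
  have h : cfv DD (pol c) = c := funext fun a => coeff_pol c a
  rw [h]

theorem mon_deg (b : Mon m D) : b.mon.totalDegree ≤ D := by
  unfold Mon.mon
  refine (totalDegree_monomial_le _ _).trans ?_
  exact b.ex_sum

theorem bind_deg (P : Fin m → MvPolynomial (Fin M) ℝ) {p : ℕ} (hP : ∀ i, (P i).totalDegree ≤ p) (hDD : D * p ≤ DD)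
    (b : Mon m D) : (bind₁ P b.mon).totalDegree ≤ DD :=
  (totalDegree_bind b.mon (mon_deg b) P hP).trans hDD

theorem Tm_dot (P : Fin m → MvPolynomial (Fin M) ℝ) (v : Mon M DD → ℝ) (b : Mon m D) :
    ((Tm DD P).transpose *ᵥ v) b = cfv DD (bind₁ P b.mon) ⬝ᵥ v := rfl

theorem Tm_vv (P : Fin m → MvPolynomial (Fin M) ℝ) {p : ℕ} (hP : ∀ i, (P i).totalDegree ≤ p) (hDD : D * p ≤ DD)
    (x : Fin M → ℝ) : (Tm (D := D) DD P).transpose *ᵥ vv x = vv (fun i => eval x (P i)) := by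
  funext b
  rw [Tm_dot, ← eval_pol, pol_cfv _ (bind_deg P hP hDD b), eval_bind]
  rfl

/-! ### gradients -/

/-- chain rule -/
theorem pderiv_bind' (u : Fin m → MvPolynomial (Fin M) ℝ) (a : Fin M) (p : MvPolynomial (Fin m) ℝ) :
    pderiv a (bind₁ u p) = ∑ i, bind₁ u (pderiv i p) * pderiv a (u i) := by
  classical
  induction p using MvPolynomial.induction_on with
  | C c => simp
  | add p q hp hq =>
    simp only [map_add, hp, hq, add_mul, Finset.sum_add_distrib]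
  | mul_X p n hp =>
    simp only [map_mul, bind₁_X_right, Derivation.leibniz, smul_eq_mul, hp, map_add, pderiv_X]
    rw [Finset.mul_sum]
    have h1 : ∀ i : Fin m, (bind₁ u p * bind₁ u (Pi.single (M := fun _ => MvPolynomial (Fin m) ℝ) i 1 n) +
        u n * bind₁ u (pderiv i p)) * pderiv a (u i) =
        bind₁ u p * (bind₁ u (Pi.single (M := fun _ => MvPolynomial (Fin m) ℝ) i 1 n) * pderiv a (u i)) +
          u n * (bind₁ u (pderiv i p) * pderiv a (u i)) := fun i => by ring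
    have h2 : ∑ i, bind₁ u p * (bind₁ u (Pi.single (M := fun _ => MvPolynomial (Fin m) ℝ) i 1 n) * pderiv a (u i)) =
        bind₁ u p * pderiv a (u n) := by
      rw [Finset.sum_eq_single n]
      · rw [Pi.single_eq_same, map_one, one_mul]
      · intro i _ hi
        rw [Pi.single_eq_of_ne (fun h => hi h.symm), map_zero, zero_mul, mul_zero]
      · intro h
        exact absurd (Finset.mem_univ n) h
    rw [Finset.sum_congr rfl fun i _ => h1 i, Finset.sum_add_distrib, ← Finset.mul_sum, h2]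

theorem eval_dir2 (v : Fin M → ℝ) (x : Fin M → ℝ) (q : MvPolynomial (Fin M) ℝ) :
    eval x (dir v q) = ∑ a, v a * eval x (pderiv a q) := by
  unfold dir
  rw [map_sum]
  exact Finset.sum_congr rfl fun a _ => by rw [map_mul, eval_C]

/-- the derivative of the map in the direction `e` -/
def dP (P : Fin m → MvPolynomial (Fin M) ℝ) (x e : Fin M → ℝ) : Fin m → ℝ := fun i => eval x (dir e (P i))

theorem dir_bind (P : Fin m → MvPolynomial (Fin M) ℝ) (q : MvPolynomial (Fin m) ℝ) (x e : Fin M → ℝ) :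
    eval x (dir e (bind₁ P q)) = eval (fun i => eval x (P i)) (dir (dP P x e) q) := by
  rw [eval_dir2, eval_dir2]
  have h1 : ∀ a, e a * eval x (pderiv a (bind₁ P q)) =
      ∑ i, eval (fun i => eval x (P i)) (pderiv i q) * (e a * eval x (pderiv a (P i))) := by
    intro a
    rw [pderiv_bind', map_sum, Finset.mul_sum]
    refine Finset.sum_congr rfl fun i _ => ?_
    rw [map_mul, eval_bind]
    ring
  rw [Finset.sum_congr rfl fun a _ => h1 a, Finset.sum_comm]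
  refine Finset.sum_congr rfl fun i _ => ?_
  rw [← Finset.mul_sum]
  unfold dP
  rw [eval_dir2]
  ring

theorem Tm_dd (P : Fin m → MvPolynomial (Fin M) ℝ) {p : ℕ} (hP : ∀ i, (P i).totalDegree ≤ p) (hDD : D * p ≤ DD)
    (x e : Fin M → ℝ) : (Tm (D := D) DD P).transpose *ᵥ (Wq M DD x *ᵥ e) =
      Wq m D (fun i => eval x (P i)) *ᵥ dP P x e := by
  classical
  funext b
  rw [Tm_dot, ← eval_dir, pol_cfv _ (bind_deg P hP hDD b), dir_bind]
  have h1 : (Wq m D (fun i => eval x (P i)) *ᵥ dP P x e) b =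
      (Pi.single b (1 : ℝ)) ⬝ᵥ (Wq m D (fun i => eval x (P i)) *ᵥ dP P x e) := by
    rw [single_one_dotProduct]
  have h2 : pol (Pi.single b (1 : ℝ)) = b.mon := by
    unfold pol
    rw [Finset.sum_eq_single b]
    · rw [Pi.single_eq_same, C_1, one_mul]
    · intro c _ hc
      rw [Pi.single_eq_of_ne hc, C_0, zero_mul]
    · intro h
      exact absurd (Finset.mem_univ b) h
  rw [h1, ← eval_dir, h2]

/-! ### the pulled back form -/

/-- the pull back of a form -/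
def pbf (DD : ℕ) (P : Fin m → MvPolynomial (Fin M) ℝ) (B : Matrix (Mon m D) (Mon m D) ℝ) :
    Matrix (Mon M DD) (Mon M DD) ℝ := Tm (D := D) DD P * B * (Tm (D := D) DD P).transpose

theorem pbf_qf (P : Fin m → MvPolynomial (Fin M) ℝ) (B : Matrix (Mon m D) (Mon m D) ℝ) (x : Mon M DD → ℝ) :
    x ⬝ᵥ (pbf DD P B *ᵥ x) = ((Tm DD P).transpose *ᵥ x) ⬝ᵥ (B *ᵥ ((Tm DD P).transpose *ᵥ x)) := by
  have h := dv_conj (Tm DD P).transpose B x
  rw [Matrix.transpose_transpose] at h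
  exact h

theorem pbf_symm (P : Fin m → MvPolynomial (Fin M) ℝ) {B : Matrix (Mon m D) (Mon m D) ℝ} (hB : B.IsSymm) :
    (pbf DD P B).IsSymm := by
  unfold Matrix.IsSymm pbf
  rw [Matrix.transpose_mul, Matrix.transpose_mul, Matrix.transpose_transpose, hB.eq, Matrix.mul_assoc]

/-- the map moved by a node -/
def shP (D : ℕ) (P : Fin m → MvPolynomial (Fin M) ℝ) (r : ℝ) (j : Fin m → Fin (D + 1)) :
    Fin m → MvPolynomial (Fin M) ℝ := fun i => P i + C (r * nod D (j i))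

theorem shP_deg (P : Fin m → MvPolynomial (Fin M) ℝ) {p : ℕ} (hP : ∀ i, (P i).totalDegree ≤ p) (r : ℝ)
    (j : Fin m → Fin (D + 1)) (i : Fin m) : (shP D P r j i).totalDegree ≤ p := by
  refine (totalDegree_add _ _).trans (max_le (hP i) ?_)
  rw [totalDegree_C]
  exact Nat.zero_le _

theorem shP_eval (P : Fin m → MvPolynomial (Fin M) ℝ) (r : ℝ) (j : Fin m → Fin (D + 1)) (x : Fin M → ℝ) :
    (fun i => eval x (shP D P r j i)) = nodp D (fun i => eval x (P i)) r j := by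
  funext i
  unfold shP nodp
  rw [map_add, eval_C]

theorem shP_dP (P : Fin m → MvPolynomial (Fin M) ℝ) (r : ℝ) (j : Fin m → Fin (D + 1)) (x e : Fin M → ℝ) :
    dP (shP D P r j) x e = dP P x e := by
  funext i
  unfold dP
  rw [eval_dir2, eval_dir2]
  refine Finset.sum_congr rfl fun a _ => ?_
  unfold shP
  rw [map_add, pderiv_C, add_zero]

/-- THE PULLED BACK FORM, all nodes -/
def sbf (DD : ℕ) (P : Fin m → MvPolynomial (Fin M) ℝ) (r : ℝ) (B : Matrix (Mon m D) (Mon m D) ℝ) :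
    Matrix (Mon M DD) (Mon M DD) ℝ := ∑ j : Fin m → Fin (D + 1), pbf DD (shP D P r j) B

theorem sbf_qf (P : Fin m → MvPolynomial (Fin M) ℝ) (r : ℝ) (B : Matrix (Mon m D) (Mon m D) ℝ) (x : Mon M DD → ℝ) :
    x ⬝ᵥ (sbf DD P r B *ᵥ x) = ∑ j : Fin m → Fin (D + 1),
      ((Tm DD (shP D P r j)).transpose *ᵥ x) ⬝ᵥ (B *ᵥ ((Tm DD (shP D P r j)).transpose *ᵥ x)) := by
  unfold sbf
  rw [dv_sum]
  exact Finset.sum_congr rfl fun j _ => pbf_qf _ _ _

theorem sbf_nonneg (P : Fin m → MvPolynomial (Fin M) ℝ) (r : ℝ) {B : Matrix (Mon m D) (Mon m D) ℝ}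
    (hB : ∀ x, 0 ≤ x ⬝ᵥ (B *ᵥ x)) (x : Mon M DD → ℝ) : 0 ≤ x ⬝ᵥ (sbf DD P r B *ᵥ x) := by
  rw [sbf_qf]
  exact Finset.sum_nonneg fun j _ => hB _

theorem sbf_symm (P : Fin m → MvPolynomial (Fin M) ℝ) (r : ℝ) {B : Matrix (Mon m D) (Mon m D) ℝ} (hB : B.IsSymm) :
    (sbf DD P r B).IsSymm := by
  unfold Matrix.IsSymm sbf
  rw [Matrix.transpose_sum]
  exact Finset.sum_congr rfl fun j _ => pbf_symm _ hB

/-- the values of the form at a point -/
theorem vv_le (B : Matrix (Mon m D) (Mon m D) ℝ) (hB : PdM B) (r K : ℝ) (hr : 0 < r) (hK : 1 ≤ K) (q y : Fin m → ℝ)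
    (hy : ∀ i, |y i - q i| ≤ K * r) : vv y ⬝ᵥ (B *ᵥ vv y) ≤ (Cu D * Cm m D * K ^ D) ^ 2 * phi r B q := by
  obtain ⟨C, hC, h1, -⟩ := exists_rows B hB
  have e1 : ∀ x : Mon m D → ℝ, x ⬝ᵥ (B *ᵥ x) = ∑ k, (C k ⬝ᵥ x) ^ 2 := fun x => by rw [hC, qf_rows]
  rw [e1, h1, Finset.mul_sum]
  refine Finset.sum_le_sum fun k _ => ?_
  rw [← eval_pol]
  exact gro_le (pol (C k)) (pol_deg _) r K hr hK q y hy

/-- SIZE of the pulled back form -/
theorem phi_sbf (P : Fin m → MvPolynomial (Fin M) ℝ) {p : ℕ} (hP : ∀ i, (P i).totalDegree ≤ p) (hDD : D * p ≤ DD)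
    (B : Matrix (Mon m D) (Mon m D) ℝ) (hB : PdM B) {r r' K : ℝ} (hr' : 0 < r') (hK : 0 ≤ K) (x : Fin M → ℝ)
    (q : Fin m → ℝ) (hx : ∀ (j : Fin M → Fin (DD + 1)) (i : Fin m), |eval (nodp DD x r j) (P i) - q i| ≤ K * r') :
    phi r (sbf DD P r' B) x ≤ nn M DD * (nn m D * ((Cu D * Cm m D * (K + 1) ^ D) ^ 2 * phi r' B q)) := by
  unfold phi
  have h1 : ∀ j ∈ (Finset.univ : Finset (Fin M → Fin (DD + 1))),
      vv (D := DD) (nodp DD x r j) ⬝ᵥ (sbf DD P r' B *ᵥ vv (nodp DD x r j)) ≤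
        nn m D * ((Cu D * Cm m D * (K + 1) ^ D) ^ 2 * phi r' B q) := by
    intro j _
    rw [sbf_qf]
    have h2 : ∀ j' ∈ (Finset.univ : Finset (Fin m → Fin (D + 1))),
        ((Tm DD (shP D P r' j')).transpose *ᵥ vv (nodp DD x r j)) ⬝ᵥ
          (B *ᵥ ((Tm DD (shP D P r' j')).transpose *ᵥ vv (nodp DD x r j))) ≤
        (Cu D * Cm m D * (K + 1) ^ D) ^ 2 * phi r' B q := by
      intro j' _
      rw [Tm_vv (shP D P r' j') (shP_deg P hP r' j') hDD, shP_eval]
      apply vv_le B hB r' (K + 1) hr' (by linarith)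
      intro i
      have h3 := hx j i
      have h4 : nodp D (fun i => eval (nodp DD x r j) (P i)) r' j' i - q i =
          (eval (nodp DD x r j) (P i) - q i) + r' * nod D (j' i) := by
        unfold nodp
        ring
      rw [h4]
      refine (abs_add_le _ _).trans ?_
      have h5 : |r' * nod D (j' i)| ≤ r' := by
        rw [abs_mul, abs_of_pos hr', abs_of_nonneg (nod_nonneg D _)]
        exact mul_le_of_le_one_right hr'.le (nod_le D _ (Nat.le_of_lt_succ (j' i).2))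
      linarith
    have h3 := Finset.sum_le_card_nsmul _ _ _ h2
    rw [nsmul_eq_mul, card_nodes] at h3
    exact h3
  have h3 := Finset.sum_le_card_nsmul _ _ _ h1
  rw [nsmul_eq_mul, card_nodes] at h3
  exact h3

theorem nodp_zero' (P : Fin M → ℝ) (r : ℝ) : nodp D P r (fun _ => 0) = P := by
  funext i
  unfold nodp nod
  simp

/-- GRADIENTS of the pulled back form -/
theorem Jq_sbf (P : Fin m → MvPolynomial (Fin M) ℝ) {p : ℕ} (hP : ∀ i, (P i).totalDegree ≤ p) (hDD : D * p ≤ DD)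
    (B : Matrix (Mon m D) (Mon m D) ℝ) (hB : ∀ x, 0 ≤ x ⬝ᵥ (B *ᵥ x)) (r r' : ℝ) (x e : Fin M → ℝ) :
    dP P x e ⬝ᵥ (Jq r' B (fun i => eval x (P i)) *ᵥ dP P x e) ≤ e ⬝ᵥ (Jq r (sbf DD P r' B) x *ᵥ e) := by
  rw [Jq_qf, Jq_qf]
  refine le_trans ?_ (Finset.single_le_sum (f := fun j : Fin M → Fin (DD + 1) =>
    (Wq M DD (nodp DD x r j) *ᵥ e) ⬝ᵥ (sbf DD P r' B *ᵥ (Wq M DD (nodp DD x r j) *ᵥ e)))
    (fun j _ => sbf_nonneg P r' hB _) (Finset.mem_univ (fun _ => 0)))
  show _ ≤ (Wq M DD (nodp DD x r (fun _ => 0)) *ᵥ e) ⬝ᵥ (sbf DD P r' B *ᵥ (Wq M DD (nodp DD x r (fun _ => 0)) *ᵥ e))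
  rw [nodp_zero', sbf_qf]
  refine Finset.sum_le_sum fun j _ => le_of_eq ?_
  rw [Tm_dd (shP D P r' j) (shP_deg P hP r' j) hDD, shP_eval, shP_dP]

/-! ### volumes -/

/-- the Jacobian matrix -/
def jac (P : Fin m → MvPolynomial (Fin M) ℝ) (x : Fin M → ℝ) : Matrix (Fin m) (Fin M) ℝ :=
  Matrix.of fun i a => eval x (pderiv a (P i))

theorem jac_mul (P : Fin m → MvPolynomial (Fin M) ℝ) (x e : Fin M → ℝ) : jac P x *ᵥ e = dP P x e := by
  funext i
  unfold dP
  rw [eval_dir2]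
  unfold jac Matrix.mulVec dotProduct
  refine Finset.sum_congr rfl fun a _ => ?_
  show eval x (pderiv a (P i)) * e a = e a * eval x (pderiv a (P i))
  exact mul_comm _ _

/-- VOLUME of the pulled back form -/
theorem GQ_sbf (P : Fin M → MvPolynomial (Fin M) ℝ) {p : ℕ} (hP : ∀ i, (P i).totalDegree ≤ p) (hDD : D * p ≤ DD)
    (hD : 1 ≤ D) (B : Matrix (Mon M D) (Mon M D) ℝ) (hB : B.IsSymm) (hB1 : ∀ x, x ⬝ᵥ x ≤ x ⬝ᵥ (B *ᵥ x)) (r r' : ℝ)
    (x : Fin M → ℝ) : (jac P x).det ^ 2 * GQ r' B (fun i => eval x (P i)) ≤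
      2 ^ M * GQ r (1 + sbf DD P r' B) x := by
  have hB0 : ∀ x : Mon M D → ℝ, 0 ≤ x ⬝ᵥ (B *ᵥ x) := fun x => (self_nonneg' x).trans (hB1 x)
  have hs0 : ∀ x : Mon M DD → ℝ, 0 ≤ x ⬝ᵥ ((1 + sbf DD P r' B) *ᵥ x) := fun x => by
    rw [dv_add, Matrix.one_mulVec]
    have h1 := self_nonneg' x
    have h2 := sbf_nonneg (DD := DD) P r' hB0 x
    linarith
  have hss : (1 + sbf DD P r' B).IsSymm := Matrix.isSymm_one.add (sbf_symm P r' hB)
  have hG : 1 ≤ GQ r (1 + sbf DD P r' B) x := one_le_GQ r hss hs0 x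
  rcases eq_or_ne (jac P x).det 0 with h0 | h0
  · rw [h0]
    have : (0 : ℝ) ≤ 2 ^ M * GQ r (1 + sbf DD P r' B) x := by positivity
    simpa using this
  set J := 1 + Jq r' B (fun i => eval x (P i)) with hJ
  have hJs : J.IsSymm := one_Jq_symm r' hB _
  have hJp : PdM J := one_Jq_pd r' hB hB0 _
  have hu : IsUnit (jac P x).det := isUnit_iff_ne_zero.2 h0
  have hcp : PdM ((jac P x).transpose * J * jac P x) := by
    refine ⟨?_, fun v hv => ?_⟩
    · unfold Matrix.IsSymm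
      rw [Matrix.transpose_mul, Matrix.transpose_mul, Matrix.transpose_transpose, hJs.eq, Matrix.mul_assoc]
    · rw [dv_conj]
      apply hJp.2
      intro h1
      apply hv
      have h2 : (jac P x)⁻¹ *ᵥ (jac P x *ᵥ v) = v := by
        rw [Matrix.mulVec_mulVec, Matrix.nonsing_inv_mul _ hu, Matrix.one_mulVec]
      rw [← h2, h1, Matrix.mulVec_zero]
  have h1 := det_le_pow (one_Jq_pd r hss hs0 x) hcp (K := 2) (by norm_num) (fun v => by
    rw [dv_conj, hJ, dv_add, dv_add, one_dv, one_dv, jac_mul]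
    have h2 := Jq_sbf (DD := DD) P hP hDD B hB0 r r' x v
    have h3 := Pool.Agent.Helper26.MZ.Jq_ge_self hD r' hB1 (fun i => eval x (P i)) (dP P x v)
    have h4 : v ⬝ᵥ (Jq r (sbf DD P r' B) x *ᵥ v) ≤ v ⬝ᵥ (Jq r (1 + sbf DD P r' B) x *ᵥ v) := by
      apply Jq_mono
      intro y
      rw [dv_add, Matrix.one_mulVec]
      have := self_nonneg' y
      linarith
    have h5 := self_nonneg' v
    linarith)
  rw [Fintype.card_fin, Matrix.det_mul, Matrix.det_mul, Matrix.det_transpose] at h1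
  have h2 : (jac P x).det * J.det * (jac P x).det = (jac P x).det ^ 2 * GQ r' B (fun i => eval x (P i)) := by
    rw [hJ]
    unfold GQ
    ring
  rw [h2] at h1
  exact h1

end

end Pool.Agent.Helper7.GZ
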