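import Pool.Agent.Helper7.GZ.Vo
import Pool.Agent.Helper36.AM.St
import Pool.Agent.Helper36.AM.Inv
import Pool.Agent.Helper63.FRT.Cof

/-! FRAMES ARE ROWS: the inverse of the triangular chart of a frame gives rows with the Jacobian `2 ^ (Σ La n)`; the zoom
in the coordinates of a frame. -/

set_option autoImplicit false

namespace Pool.Agent.Helper7.GZ

open Finset Filter Topology Matrix Pool.Agent.Helper69.RK Pool.Agent.Helper31.EC Pool.Agent.Helper31.EC.Sp
open Pool.Agent.Helper40.EL Pool.Agent.Helper89.LX Pool.Agent.Helper3.LF Pool.Agent.Helper84.MT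
open Pool.Agent.Helper36.AM (Frm Gz inv inv_eq inv_eval inv_deg inv_val eval_congr pderiv_bind)

noncomputable section

/-! ### bounds of the inverse -/

/-- bounds on the unit cube, by iteration -/
def Bq (M κ : ℕ) (K : ℝ) : ℕ → ℝ
  | 0 => 1
  | n + 1 => Bq M κ K n + (1 + ((κ : ℝ) + 1) ^ M * (K * Bq M κ K n ^ κ))

theorem Bq_one (M κ : ℕ) {K : ℝ} (hK : 0 ≤ K) : ∀ n, 1 ≤ Bq M κ K n
  | 0 => le_rfl
  | n + 1 => by
    have h := Bq_one M κ hK n
    show 1 ≤ Bq M κ K n + (1 + ((κ : ℝ) + 1) ^ M * (K * Bq M κ K n ^ κ))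
    have : 0 ≤ ((κ : ℝ) + 1) ^ M * (K * Bq M κ K n ^ κ) := by positivity
    linarith

theorem inv_cube {M κ : ℕ} {P : Fin M → MvPolynomial (Fin M) ℝ} (tri : ∀ j, ∀ i ∈ (P j).vars, i < j)
    (hκ : ∀ j, (P j).totalDegree ≤ κ) {K : ℝ} (hK : 0 ≤ K) (hc : ∀ j a, |(P j).coeff a| ≤ K) (x : Fin M → ℝ)
    (hx : ∀ i, |x i| ≤ 1) : ∀ (n : ℕ) (j : Fin M), (j : ℕ) < n → |MvPolynomial.eval x (inv P j)| ≤ Bq M κ K n := by
  intro n
  induction n with
  | zero => intro j hj; omega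
  | succ n ih =>
    intro j hj
    have hB := Bq_one M κ hK n
    rw [inv_eval tri]
    have e1 : MvPolynomial.eval (fun i => MvPolynomial.eval x (inv P i)) (P j) =
        MvPolynomial.eval (fun i => if i < j then MvPolynomial.eval x (inv P i) else 0) (P j) := by
      apply eval_congr
      intro i hi
      rw [if_pos (tri j i hi)]
    rw [e1]
    have h2 := Pool.Agent.Helper81.MI.eval_le (P j) (hκ j) (fun i => if i < j then MvPolynomial.eval x (inv P i) else 0)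
      (Bq M κ K n) K hB hK (fun i => by
        by_cases h : i < j
        · simp only [if_pos h]
          exact ih i (by
            have : (i : ℕ) < j := h
            omega)
        · simp only [if_neg h, abs_zero]
          linarith) (fun s => hc j s)
    show _ ≤ Bq M κ K n + (1 + ((κ : ℝ) + 1) ^ M * (K * Bq M κ K n ^ κ))
    refine (abs_sub _ _).trans ?_
    have h3 := hx j
    linarith

/-! ### the Jacobian of the inverse -/

theorem pderiv_inv {M : ℕ} {P : Fin M → MvPolynomial (Fin M) ℝ} (tri : ∀ j, ∀ i ∈ (P j).vars, i < j) :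
    ∀ (n : ℕ) (j : Fin M), (j : ℕ) < n → ∀ a, j ≤ a →
      MvPolynomial.pderiv a (inv P j) = if a = j then 1 else 0 := by
  classical
  intro n
  induction n with
  | zero => intro j hj; omega
  | succ n ih =>
    intro j hj a ha
    have h0 : MvPolynomial.pderiv a (inv P j) = MvPolynomial.pderiv a (MvPolynomial.X j) -
        ∑ i, MvPolynomial.bind₁ (inv P) (MvPolynomial.pderiv i (P j)) * MvPolynomial.pderiv a (inv P i) := by
      conv_lhs => rw [inv_eq tri j]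
      rw [map_sub, pderiv_bind]
    have h1 : ∑ i, MvPolynomial.bind₁ (inv P) (MvPolynomial.pderiv i (P j)) * MvPolynomial.pderiv a (inv P i) = 0 := by
      apply Finset.sum_eq_zero
      intro i _
      by_cases hi : i ∈ (P j).vars
      · have hij := tri j i hi
        have h2 : MvPolynomial.pderiv a (inv P i) = 0 := by
          rw [ih i (by
            have : (i : ℕ) < j := hij
            omega) a (hij.le.trans ha), if_neg (fun h : a = i => by
            rw [← h] at hij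
            exact absurd hij (not_lt_of_ge ha))]
        rw [h2, mul_zero]
      · rw [MvPolynomial.pderiv_eq_zero_of_notMem_vars hi, map_zero, zero_mul]
    rw [h0, h1, sub_zero, MvPolynomial.pderiv_X, Pi.single_apply]
    by_cases h : a = j
    · rw [if_pos h, if_pos h.symm]
    · rw [if_neg h, if_neg (fun h' => h h'.symm)]

theorem jac_inv {M : ℕ} {P : Fin M → MvPolynomial (Fin M) ℝ} (tri : ∀ j, ∀ i ∈ (P j).vars, i < j) (d : Fin M → ℝ)
    (x : Fin M → ℝ) : (jac (fun i => MvPolynomial.C (d i) * inv P i) x).det = ∏ i, d i := by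
  classical
  have h0 : ∀ i a : Fin M, i ≤ a → jac (fun i => MvPolynomial.C (d i) * inv P i) x i a = if a = i then d i else 0 := by
    intro i a ha
    show MvPolynomial.eval x (MvPolynomial.pderiv a (MvPolynomial.C (d i) * inv P i)) = _
    rw [MvPolynomial.pderiv_C_mul, map_mul, MvPolynomial.eval_C, pderiv_inv tri M i i.2 a ha]
    by_cases h : a = i
    · rw [if_pos h, if_pos h, map_one, mul_one]
    · rw [if_neg h, if_neg h, map_zero, mul_zero]
  rw [Matrix.det_of_isLowerTriangular]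
  · exact Finset.prod_congr rfl fun i _ => by rw [h0 i i le_rfl, if_pos rfl]
  · intro i j hij
    have h1 : i < j := hij
    rw [h0 i j h1.le, if_neg h1.ne']

/-! ### the rows of a frame -/

variable {S : Sp} {M : ℕ}

theorem dl_inv_eq (r : ℝ) (k : ℕ) : (S.dl r k)⁻¹ = 2 ^ (r * (S.F k).n) := by
  unfold Sp.dl
  rw [← Real.rpow_neg (by norm_num), neg_neg]

theorem Bq_Sub {K : ℕ → ℝ} (hK : S.Sub K) (M κ : ℕ) : ∀ n, S.Sub (fun k => Bq M κ (K k) n)
  | 0 => S.Sub_const zero_le_one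
  | n + 1 => by
    have h := Bq_Sub hK M κ n
    have h1 : (0 : ℝ) ≤ ((κ : ℝ) + 1) ^ M := by positivity
    exact h.add ((S.Sub_const zero_le_one).add ((S.Sub_const h1).mul (hK.mul (Sub_pow' h κ))))

section rows

variable {Q : S.VV M} {l : Lab S} {La : Fin M → ℝ} (f : Frm Q l La)

/-- the rows -/
def frow (k : ℕ) (ω : (l k).T.Ω) (i : Fin M) : MvPolynomial (Fin M) ℝ :=
  MvPolynomial.C (S.dl (La i) k)⁻¹ * inv (f.P k ω) i

theorem frow_deg {κ : ℕ} (hκ : ∀ k ω j, (f.P k ω j).totalDegree ≤ κ) (k : ℕ) (ω : (l k).T.Ω) (i : Fin M) :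
    (frow f k ω i).totalDegree ≤ (κ + 1) ^ M := by
  refine (MvPolynomial.totalDegree_mul _ _).trans ?_
  rw [MvPolynomial.totalDegree_C, zero_add]
  exact inv_deg (fun j => hκ k ω j) i

/-- the values of the rows near the point -/
theorem frow_near {κ : ℕ} (hκ : ∀ k ω j, (f.P k ω j).totalDegree ≤ κ) (h0 : ∀ j, 0 ≤ La j) {u : ℝ}
    (hu : ∀ j, La j + u ≤ 1) {L : ℕ → ℝ} (hL : S.Sub L) : ∃ K : ℕ → ℝ, S.Sub K ∧ ∀ᶠ k in UF,
      ∀ ω : (l k).T.Ω, (l k).T.μ ω ≠ 0 → ∀ y : Fin M → ℝ, (∀ i, |y i - Q.v k ((l k).p.π ω) i| ≤ L k * S.dl 1 k) →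
        ∀ j, |MvPolynomial.eval y (frow f k ω j) - f.X.v k ω j| ≤ K k * S.dl u k := by
  obtain ⟨Kc, hKc, hc⟩ := f.bd
  obtain ⟨Kp, hKp, hp⟩ := f.pt
  obtain ⟨Kx, hKx', hx⟩ := f.X.bd
  have hKx : S.Sub Kx := (sp_Sub l).mp hKx'
  obtain ⟨Lc, hLc⟩ : ∃ Lc : ℕ → ℝ, Lc = fun k => ((κ : ℝ) + 1) ^ M * Kc k * (κ * (Kx k + 1) ^ κ) := ⟨_, rfl⟩
  have hLS : S.Sub Lc := by
    rw [hLc]
    exact ((S.Sub_const (by positivity)).mul hKc).mul ((S.Sub_const (Nat.cast_nonneg _)).mul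
      (Sub_pow' (hKx.add (S.Sub_const zero_le_one)) κ))
  have hE : S.Sub (fun k => (1 + Lc k) ^ M * (L k + Kp k)) :=
    (Sub_pow' ((S.Sub_const zero_le_one).add hLS) M).mul (hL.add hKp)
  refine ⟨_, hE, ?_⟩
  filter_upwards [hc, hp, hx, hKc.1, hKp.1, hKx.1, hL.1, hE.eventually_le one_pos] with k c1 c2 c3 c4 c5 c6 cL c7 ω hω y hy j
  have hL0 : 0 ≤ Lc k := by rw [hLc]; positivity
  have hδ := S.dl_pos 1 k
  have hd1 : S.dl 1 k * 2 ^ (1 * (S.F k).n) = 1 := by
    unfold Sp.dl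
    rw [← Real.rpow_add (by norm_num)]
    norm_num
  have hdi : ∀ i, S.dl (La i) k ≤ 1 := fun i => by
    rw [← S.dl_zero k]
    exact S.dl_anti (h0 i) k
  have hs : (1 + Lc k) ^ M * ((L k + Kp k) * S.dl 1 k) ≤ 1 := by
    rw [← mul_assoc]
    have h2 : (1 + Lc k) ^ M * (L k + Kp k) * S.dl 1 k ≤ 2 ^ (1 * (S.F k).n) * S.dl 1 k :=
      mul_le_mul_of_nonneg_right (by linarith) hδ.le
    rw [mul_comm] at hd1
    linarith
  obtain ⟨U, hU⟩ : ∃ U : Fin M → ℝ, U = fun i => S.dl (La i) k * f.X.v k ω i := ⟨_, rfl⟩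
  have hUB : ∀ i, |U i| ≤ Kx k := by
    intro i
    rw [hU]
    show |S.dl (La i) k * f.X.v k ω i| ≤ _
    rw [abs_mul, abs_of_pos (S.dl_pos _ _)]
    exact (mul_le_mul_of_nonneg_left (c3 ω hω i) (S.dl_pos _ _).le).trans (mul_le_of_le_one_left c6 (hdi i))
  have hval := inv_val (f.tri k ω) (fun j => hκ k ω j) c4 (fun j a => c1 ω hω j a) c6
    (mul_nonneg (add_nonneg cL c5) hδ.le) (L := Lc k) (by rw [hLc]) hs U y hUB (fun j => by
      have h2 : |Q.v k ((l k).p.π ω) j - (MvPolynomial.eval U (f.P k ω j) + U j)| ≤ Kp k * S.dl 1 k := by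
        rw [hU]
        exact c2 ω hω j
      have h3 : y j - (MvPolynomial.eval U (f.P k ω j) + U j) = (y j - Q.v k ((l k).p.π ω) j) +
          (Q.v k ((l k).p.π ω) j - (MvPolynomial.eval U (f.P k ω j) + U j)) := by ring
      rw [h3]
      refine (abs_add_le _ _).trans ?_
      have := hy j
      rw [add_mul]
      linarith) j
  have e1 : MvPolynomial.eval y (frow f k ω j) - f.X.v k ω j =
      (S.dl (La j) k)⁻¹ * (MvPolynomial.eval y (inv (f.P k ω) j) - U j) := by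
    unfold frow
    rw [map_mul, MvPolynomial.eval_C, hU]
    have := (S.dl_pos (La j) k).ne'
    field_simp
  rw [e1, abs_mul, abs_of_pos (inv_pos.2 (S.dl_pos _ _)), inv_mul_le_iff₀ (S.dl_pos _ _)]
  refine hval.trans ?_
  have h6 : S.dl 1 k ≤ S.dl (La j) k * S.dl u k := by
    rw [← S.dl_add]
    exact S.dl_anti (hu j) k
  have h7 : 0 ≤ (1 + Lc k) ^ M * (L k + Kp k) := by positivity
  calc (1 + Lc k) ^ M * ((L k + Kp k) * S.dl 1 k) = (1 + Lc k) ^ M * (L k + Kp k) * S.dl 1 k := by ring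
    _ ≤ (1 + Lc k) ^ M * (L k + Kp k) * (S.dl (La j) k * S.dl u k) := mul_le_mul_of_nonneg_left h6 h7
    _ = _ := by ring

/-- the coefficients of the rows -/
theorem frow_cf {κ : ℕ} (hκ : ∀ k ω j, (f.P k ω j).totalDegree ≤ κ) {Λ : ℝ} (hΛ : ∀ j, La j ≤ Λ) :
    ∃ K : ℕ → ℝ, S.Sub K ∧ ∀ᶠ k in UF, ∀ ω : (l k).T.Ω, (l k).T.μ ω ≠ 0 → ∀ j a,
      |(frow f k ω j).coeff a| ≤ K k * 2 ^ (Λ * (S.F k).n) := by
  obtain ⟨Kc, hKc, hc⟩ := f.bd
  obtain ⟨B, hB1, hB⟩ := Pool.Agent.Helper63.FRT.exists_coef_bd M ((κ + 1) ^ M)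
  refine ⟨fun k => B * Bq M κ (Kc k) M, (S.Sub_const (by linarith)).mul (Bq_Sub hKc M κ M), ?_⟩
  filter_upwards [hc, hKc.1] with k c1 c2 ω hω j a
  have h1 := hB (inv (f.P k ω) j) (inv_deg (fun j => hκ k ω j) j) (Bq M κ (Kc k) M) (fun y hy =>
    inv_cube (f.tri k ω) (fun j => hκ k ω j) c2 (fun j a => c1 ω hω j a) y (fun i => by
      rw [abs_le]
      have := hy i
      constructor <;> linarith) M j j.2) a
  show |MvPolynomial.coeff a (MvPolynomial.C (S.dl (La j) k)⁻¹ * inv (f.P k ω) j)| ≤ _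
  rw [MvPolynomial.coeff_C_mul, abs_mul, abs_of_pos (inv_pos.2 (S.dl_pos _ _)), dl_inv_eq, mul_comm]
  have h2 : (2 : ℝ) ^ (La j * (S.F k).n) ≤ 2 ^ (Λ * (S.F k).n) :=
    Real.rpow_le_rpow_of_exponent_le (by norm_num) (mul_le_mul_of_nonneg_right (hΛ j) (S.F k).pos.le)
  have h3 := Bq_one M κ c2 M
  exact mul_le_mul h1 h2 (by positivity) (by positivity)

/-- THE ROWS OF A FRAME -/
def frows {κ : ℕ} (hκ : ∀ k ω j, (f.P k ω j).totalDegree ≤ κ) (h0 : ∀ j, 0 ≤ La j) {u : ℝ} (hu0 : 0 ≤ u)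
    (hu : ∀ j, La j + u ≤ 1) {Λ : ℝ} (hΛ : ∀ j, La j ≤ Λ) : Rows Q l M ((κ + 1) ^ M) Λ u where
  p := frow f
  deg := frow_deg f hκ
  fn := by
    filter_upwards [f.fn] with k hk ω ω' h1 h2 h3 h4
    funext i
    show MvPolynomial.C (S.dl (La i) k)⁻¹ * inv (f.P k ω) i = MvPolynomial.C (S.dl (La i) k)⁻¹ * inv (f.P k ω') i
    rw [hk ω ω' h1 h2 h3 h4]
  cf := frow_cf f hκ hΛ
  bd := by
    obtain ⟨K, hK, h1⟩ := frow_near f hκ h0 hu (S.Sub_const zero_le_one)
    obtain ⟨Kx, hKx', hx⟩ := f.X.bd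
    have hKx : S.Sub Kx := (sp_Sub l).mp hKx'
    refine ⟨fun k => Kx k + K k, hKx.add hK, (Typ_true (S := l.sp)).mono ?_⟩
    filter_upwards [h1, hx, hK.1] with k a b c ω hω _ j
    have h2 := a ω hω (Q.v k ((l k).p.π ω)) (fun i => by
      rw [sub_self, abs_zero]
      exact mul_nonneg zero_le_one (S.dl_pos 1 k).le) j
    have h3 := b ω hω j
    have h4 : S.dl u k ≤ 1 := by
      rw [← S.dl_zero k]
      exact S.dl_anti hu0 k
    have h5 := mul_le_mul_of_nonneg_left h4 c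
    have h6 := abs_add_le (MvPolynomial.eval (Q.v k ((l k).p.π ω)) (frow f k ω j) - f.X.v k ω j) (f.X.v k ω j)
    rw [sub_add_cancel] at h6
    linarith
  lp := by
    intro L hL
    obtain ⟨K, hK, h1⟩ := frow_near f hκ h0 hu hL
    refine ⟨fun k => 2 * K k, (S.Sub_const (by norm_num)).mul hK, (Typ_true (S := l.sp)).mono ?_⟩
    filter_upwards [h1, hL.1] with k a c ω hω _ y hy j
    have h2 := a ω hω y hy j
    have h3 := a ω hω (Q.v k ((l k).p.π ω)) (fun i => by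
      rw [sub_self, abs_zero]
      exact mul_nonneg c (S.dl_pos 1 k).le) j
    have e1 : MvPolynomial.eval y (frow f k ω j) - MvPolynomial.eval (Q.v k ((l k).p.π ω)) (frow f k ω j) =
        (MvPolynomial.eval y (frow f k ω j) - f.X.v k ω j) -
          (MvPolynomial.eval (Q.v k ((l k).p.π ω)) (frow f k ω j) - f.X.v k ω j) := by ring
    rw [e1]
    refine (abs_sub _ _).trans ?_
    linarith

end rows

end

end Pool.Agent.Helper7.GZ
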