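import Pool.Agent.Helper7.GZ.Wd
import Pool.Agent.Helper26.MT.Zw

/-! ZOOMS OF SYSTEMS WITH WEIGHTED DEGREES, all properties: for a system with `r` types of complexity `g` whose coordinate
`j` has degree at most `w j ≤ g` along the types, a label `l` of the window `c`, a frame of `l` with exponents `w j * c`
and a unit `e`, the zoom `FW.sys` in the coordinates of the frame. -/

set_option autoImplicit false

namespace Pool.Agent.Helper7.GZ

open Finset Filter Topology Matrix Pool.Agent.Helper69.RK Pool.Agent.Helper31.EC Pool.Agent.Helper31.EC.Sp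
open Pool.Agent.Helper40.EL Pool.Agent.Helper89.LX Pool.Agent.Helper3.LF Pool.Agent.Helper84.MT
open Pool.Agent.Helper89.TAY (crn)
open Pool.Agent.Helper36.AM (Frm Gz inv inv_eq volO)
open Pool.Agent.Helper77.WDG (WLe wt wt_smul wLe_one_iff)

noncomputable section

variable {S : Sp} {M : ℕ} {E : ℕ → ℕ} {ι : Type}

/-- VOLUMES in all degrees -/
theorem FrZ.volO_le {s : MSys S M E ι} {l : Lab S} {La : Fin M → ℝ} (F : FrZ s l La) [Finite ι] {b : ℝ} (hb : 0 ≤ b) :
    volO s (F.c + F.e * b) ≤ M - ∑ j, La j - F.e * (M - volO F.sys b) := by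
  have h1 : ∀ D : ℕ, 1 ≤ D → volO s (F.c + F.e * b) ≤ M - ∑ j, La j - F.e * (M - F.sys.vol D b) := fun D hD =>
    (Pool.Agent.Helper84.MT.volO_le s (D * (F.κ₀ + 1) ^ M) _).trans (F.vol_le hD le_rfl hb)
  have h2 : ∀ D : ℕ, volO s (F.c + F.e * b) ≤ M - ∑ j, La j - F.e * (M - F.sys.vol D b) := by
    intro D
    rcases Nat.eq_zero_or_pos D with h0 | h0
    · rw [h0, F.sys.vol_zero]
      have h3 := h1 1 le_rfl
      have h4 := mul_nonneg F.he.le (sub_nonneg.2 (F.sys.vol_le_M 1 b))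
      linarith
    · exact h1 D h0
  have h3 : (M - (M - ∑ j, La j - volO s (F.c + F.e * b)) / F.e) ≤ volO F.sys b := by
    refine le_ciInf fun D => ?_
    have h4 := h2 D
    have h5 := F.he
    have h6 : F.e * (M - F.sys.vol D b) ≤ M - ∑ j, La j - volO s (F.c + F.e * b) := by linarith
    have h7 : M - F.sys.vol D b ≤ (M - ∑ j, La j - volO s (F.c + F.e * b)) / F.e := by
      rw [le_div_iff₀ h5]
      linarith
    linarith
  have h5 := F.he
  have h6 : M - volO F.sys b ≤ (M - ∑ j, La j - volO s (F.c + F.e * b)) / F.e := by linarith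
  rw [le_div_iff₀ h5] at h6
  linarith

/-- data of the zoom of a system with weighted degrees -/
structure FW (g : ℕ) (s : MSys S M (lin g) ι) (l : Lab S) (w : Fin M → ℝ) (c e : ℝ) where
  f : Frm s.Q l (fun j => w j * c)
  hc : 0 < c
  he : 0 < e
  h1 : c + e ≤ 1
  hwe : ∀ j, w j * c + e ≤ 1
  dm : s.DMc c l
  hw : ∀ j, 1 ≤ w j
  hwg : ∀ j, w j ≤ g
  hg : 1 ≤ g
  wd : WDeg s w

namespace FW

variable {g : ℕ} {s : MSys S M (lin g) ι} {l : Lab S} {w : Fin M → ℝ} {c e : ℝ} (F : FW g s l w c e)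

theorem degP (k : ℕ) (ω : (l.sp.F k).Ω) (j : Fin M) : (F.f.P k ω j).totalDegree ≤ g := by
  have h0 : ∀ j, (0 : ℝ) ≤ w j := fun j => zero_le_one.trans (F.hw j)
  have h1 : WLe w (w j) (F.f.P k ω j) := by
    intro a ha
    by_cases h : a = 0
    · rw [h, Pool.Agent.Helper77.WDG.wt_zero]
      exact h0 j
    · have h2 := F.f.red k ω j a ha h
      have h3 : wt w a * c < w j * c := by
        rw [← wt_smul]
        exact h2
      exact (lt_of_mul_lt_mul_right h3 F.hc.le).le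
  have h2 := (h1.totalDegree F.hw (h0 j)).trans (F.hwg j)
  exact_mod_cast h2

/-- the data of the zoom -/
def fz : FrZ s l (fun j => w j * c) where
  f := F.f
  c := c
  e := e
  hc := F.hc
  he := F.he
  h1 := F.h1
  dm := F.dm
  h0 := fun j => mul_nonneg (zero_le_one.trans (F.hw j)) F.hc.le
  hLe := F.hwe
  κ₀ := g
  hκ₀ := F.degP
  Λ := 1 - e
  hΛ := fun j => by
    have := F.hwe j
    linarith
  κ := ⌈1 / c⌉₊ + g
  hκ1 := F.hg.trans (Nat.le_add_left _ _)
  hdim := fun i => by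
    have h1 := (s.lf i).he
    unfold Pool.Agent.Helper84.MT.lin at h1
    rw [zero_add, mul_one] at h1
    exact h1.trans (Nat.le_add_left _ _)
  hκ := by
    have h1 : 1 / c ≤ ⌈1 / c⌉₊ := Nat.le_ceil _
    have h2 := F.hc
    rw [div_le_iff₀ h2] at h1
    push_cast
    have h3 : (0 : ℝ) ≤ g := Nat.cast_nonneg g
    nlinarith

/-- the exact charts -/
def xc : XC F.fz.rz := (F.fz.exists_xc (c := c) rfl (fun j => zero_le_one.trans (F.hw j)) F.hg (fun i => by
    have h1 := (s.lf i).he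
    unfold Pool.Agent.Helper84.MT.lin at h1
    rw [zero_add, mul_one] at h1
    exact h1) F.hwg F.wd).choose

theorem xc_κ : F.xc.κx = g := (F.fz.exists_xc (c := c) rfl (fun j => zero_le_one.trans (F.hw j)) F.hg (fun i => by
    have h1 := (s.lf i).he
    unfold Pool.Agent.Helper84.MT.lin at h1
    rw [zero_add, mul_one] at h1
    exact h1) F.hwg F.wd).choose_spec.1

theorem xc_deg : ∀ i k ω j, ((F.xc.G i k ω j).totalDegree : ℝ) ≤ w j :=
  (F.fz.exists_xc (c := c) rfl (fun j => zero_le_one.trans (F.hw j)) F.hg (fun i => by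
    have h1 := (s.lf i).he
    unfold Pool.Agent.Helper84.MT.lin at h1
    rw [zero_add, mul_one] at h1
    exact h1) F.hwg F.wd).choose_spec.2

/-- THE ZOOM -/
def sys0 : MSys (l.ovr e F.he) M (lin F.xc.κx) ι := F.xc.sys

theorem gz0 : Gz s l c e F.he F.f.X F.sys0 := F.xc.gz (z := F.fz.rz) F.f.X fun _ _ _ => rfl

theorem eqv {b : ℝ} (hb : 0 ≤ b) : Eqv F.fz.sys F.sys0 b := F.xc.eqv hb

theorem wdeg0 : WDeg F.sys0 w := by
  classical
  intro i
  refine ⟨fun k ω j => if F.xc.A i k ω then F.xc.G i k ω j else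
      MvPolynomial.C (rnd ((l.ovr e F.he).dl 1 k) (F.fz.rz.X.v k ω j)), Eventually.of_forall fun k ω _ y j => ?_,
      fun k ω j => ?_⟩
  · exact F.xc.sys_F i k ω y j
  · show ((if F.xc.A i k ω then F.xc.G i k ω j else
      MvPolynomial.C (rnd ((l.ovr e F.he).dl 1 k) (F.fz.rz.X.v k ω j)) : MvPolynomial _ ℝ).totalDegree : ℝ) ≤ w j
    split_ifs
    · exact F.xc_deg i k ω j
    · rw [MvPolynomial.totalDegree_C, Nat.cast_zero]
      exact zero_le_one.trans (F.hw j)

/-- ALL PROPERTIES of the zoom -/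
theorem exists_zoom [Finite ι] : ∃ t : MSys (l.ovr e F.he) M (lin g) ι, Gz s l c e F.he F.f.X t ∧ WDeg t w ∧
    t.Q = F.fz.XX ∧ (∀ i, (t.lf i).e = (s.lf i).e) ∧ (s.IsKap c l → t.Con 0) ∧
    (∀ b, 0 ≤ b → ∀ y : Lab (l.ovr e F.he), t.DMc b y → s.DMc (c + e * b) (l.comp e F.he y)) ∧
    (∀ b, 0 ≤ b → volO s (c + e * b) ≤ M - (∑ j, w j) * c - e * (M - volO t b)) ∧
    ((M : ℝ) - (∑ j, w j) * c ≤ volO s c → volO t 0 = M) := by
  have key : ∀ g' : ℕ, F.xc.κx = g' → ∃ t : MSys (l.ovr e F.he) M (lin g') ι, Gz s l c e F.he F.f.X t ∧ WDeg t w ∧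
    t.Q = F.fz.XX ∧ (∀ i, (t.lf i).e = (s.lf i).e) ∧ (s.IsKap c l → t.Con 0) ∧
    (∀ b, 0 ≤ b → ∀ y : Lab (l.ovr e F.he), t.DMc b y → s.DMc (c + e * b) (l.comp e F.he y)) ∧
    (∀ b, 0 ≤ b → volO s (c + e * b) ≤ M - (∑ j, w j) * c - e * (M - volO t b)) := by
    rintro g' rfl
    refine ⟨F.sys0, F.gz0, F.wdeg0, rfl, fun i => rfl, fun h => (F.eqv le_rfl).Con (F.fz.con h),
      fun b hb y hy => F.fz.DMc_cl hb ((F.eqv hb).DMc hy), fun b hb => ?_⟩
    have h1 := F.fz.volO_le hb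
    have h2 : volO F.sys0 b = volO F.fz.sys b := by
      unfold volO
      congr 1
      funext D
      exact (F.eqv hb).vol D
    rw [h2, Finset.sum_mul]
    exact h1
  obtain ⟨t, h1, h2, h3, h4, h5, h6, h7⟩ := key g F.xc_κ
  refine ⟨t, h1, h2, h3, h4, h5, h6, h7, fun h => ?_⟩
  have h8 := h7 0 le_rfl
  rw [mul_zero, add_zero] at h8
  apply le_antisymm (volO_le_M t 0)
  have h9 : 0 ≤ -(e * (M - volO t 0)) := by linarith
  have h10 := F.he
  nlinarith

end FW

end

end Pool.Agent.Helper7.GZ
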