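import Pool.Agent.Helper7.GZ.Sys
import Pool.Agent.Helper7.GZ.Pb
import Pool.Agent.Helper26.MT.Zo

/-! ZOOM IN THE COORDINATES OF ROWS, forms and volumes: forms of the zoom of degree `D`, pulled back along the rows, are
admissible forms of the system of degree `DD`. If the Jacobian of the rows is at least `2 ^ (λ n)` the exponents of the
system of the window `c + u b` are at least `λ` plus `u` times the exponents of the zoom of the window `b`. -/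

set_option autoImplicit false

namespace Pool.Agent.Helper7.GZ

open Finset Filter Topology Matrix Pool.Agent.Helper69.RK Pool.Agent.Helper31.EC Pool.Agent.Helper31.EC.Sp
open Pool.Agent.Helper40.EL Pool.Agent.Helper89.LX Pool.Agent.Helper3.LF Pool.Agent.Helper84.MT
open Pool.Agent.Helper95.LF
open Pool.Agent.Helper3.PR (cutm cutm_cpd cutFD cut_typ exp_le)
open Pool.Agent.Helper14.MC (adf_sub gx vx vol_eq vx_UB vx_nonneg vol_opt_le vol_opt_eq)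

noncomputable section

variable {S : Sp} {M M' : ℕ} {E : ℕ → ℕ} {ι : Type}

/-! ### measurable rows -/

section rows

variable {Q : S.VV M} {l : Lab S} {D : ℕ} {Λ u : ℝ} (R : Rows Q l M' D Λ u)

/-- the rows are functions of the label at the index `k` -/
def Rows.ms (k : ℕ) : Prop := ∀ ω ω', (l k).T.μ ω ≠ 0 → (l k).T.μ ω' ≠ 0 → (l k).T.Z ω ω' → (l k).V ω ω' →
  R.p k ω = R.p k ω'

open Classical in
/-- the rows, zero at the indices where they are not functions of the label -/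
def Rows.pz (k : ℕ) (ω : (l k).T.Ω) : Fin M' → MvPolynomial (Fin M) ℝ := if R.ms k then R.p k ω else fun _ => 0

theorem Rows.pz_deg (k : ℕ) (ω : (l k).T.Ω) (j : Fin M') : (R.pz k ω j).totalDegree ≤ D := by
  unfold Rows.pz
  split_ifs
  · exact R.deg k ω j
  · rw [MvPolynomial.totalDegree_zero]
    exact Nat.zero_le _

theorem Rows.pz_meas (k : ℕ) (ω ω' : (l k).T.Ω) (h : (l k).T.μ ω ≠ 0) (h' : (l k).T.μ ω' ≠ 0) (hZ : (l k).T.Z ω ω')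
    (hV : (l k).V ω ω') : R.pz k ω = R.pz k ω' := by
  unfold Rows.pz
  by_cases hm : R.ms k
  · rw [if_pos hm, if_pos hm]
    exact hm ω ω' h h' hZ hV
  · rw [if_neg hm, if_neg hm]

theorem Rows.pz_ev : ∀ᶠ k in UF, ∀ ω, R.pz k ω = R.p k ω := by
  filter_upwards [R.fn] with k hk ω
  unfold Rows.pz
  exact if_pos hk

end rows

namespace RZ

variable {s : MSys S M E ι} (z : RZ s M')

/-! ### forms -/

section out

variable {D : ℕ} (DD : ℕ) (y : ∀ k, FD (z.Z.sp.F k) (Mon M' D))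

/-- the form of the system -/
def zfm (k : ℕ) (ω : (y k).l.T.Ω) : Matrix (Mon M DD) (Mon M DD) ℝ :=
  1 + sbf DD (z.R.pz k ((y k).l.p.π ω)) (z.Z.sp.dl 1 k) ((y k).g ω)

theorem zfm_meas (k : ℕ) (ω ω' : (z.cl (lb y) k).T.Ω)
    (h : (z.cl (lb y) k).T.μ ω ≠ 0) (h' : (z.cl (lb y) k).T.μ ω' ≠ 0) (hV : (z.cl (lb y) k).V ω ω')
    (hZ : (z.cl (lb y) k).T.Z ω ω') : z.zfm DD y k ω = z.zfm DD y k ω' := by
  have a : (y k).l.T.μ ω ≠ 0 := h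
  have a' : (y k).l.T.μ ω' ≠ 0 := h'
  have b : (z.Z.l k).T.μ ((y k).l.p.π ω) ≠ 0 := (y k).l.p.supp ω a
  have b' : (z.Z.l k).T.μ ((y k).l.p.π ω') ≠ 0 := (y k).l.p.supp ω' a'
  have c1 : (z.Z.l k).V ((y k).l.p.π ω) ((y k).l.p.π ω') := hV.1
  have c2 : (y k).l.V ω ω' := hV.2
  have c3 : (S.F k).Z ((z.Z.l k).p.π ((y k).l.p.π ω)) ((z.Z.l k).p.π ((y k).l.p.π ω')) := hZ
  have c4 : (z.Z.l k).T.Z ((y k).l.p.π ω) ((y k).l.p.π ω') := ((z.Z.l k).p.hZ _ _ b b').mpr c3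
  have c5 : (y k).l.T.Z ω ω' := ((y k).l.p.hZ ω ω' a a').mpr ⟨c1, c4⟩
  have e1 := ((y k).meas ω ω' a a' c2 c5).1
  have e2 := z.R.pz_meas k _ _ b b' c4 c1
  unfold zfm
  rw [e1, e2]

theorem one_sbf_ge {P : Fin M' → MvPolynomial (Fin M) ℝ} {r : ℝ} {B : Matrix (Mon M' D) (Mon M' D) ℝ} (hs : B.IsSymm)
    (hB : ∀ x, 0 ≤ x ⬝ᵥ (B *ᵥ x)) : (1 + sbf DD P r B).IsSymm ∧ ∀ x, x ⬝ᵥ x ≤ qf (1 + sbf DD P r B) x := by
  refine ⟨Matrix.isSymm_one.add (sbf_symm P r hs), fun x => ?_⟩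
  rw [qf_add, qf_one']
  have := sbf_nonneg (DD := DD) P r hB x
  show x ⬝ᵥ x ≤ x ⬝ᵥ x + x ⬝ᵥ (sbf DD P r B *ᵥ x)
  linarith

variable {y} {κ : Type} {A : κ → Part z.Z.sp}

theorem zfm_ge {Φ : Gau z.Z.sp (Mon M' D)} (hy : Φ.Adf A y) : ∀ᶠ k in UF, ∀ ω, (z.cl (lb y) k).T.μ ω ≠ 0 →
      (z.zfm DD y k ω).IsSymm ∧ ∀ x, x ⬝ᵥ x ≤ qf (z.zfm DD y k ω) x := by
  filter_upwards [hy 1 one_pos] with k hk ω hω
  have h1 := (hk.2.1 ω hω).1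
  exact one_sbf_ge DD h1.1 fun v => h1.psd.2 v

/-- sizes -/
theorem zfm_phi (hDD : D * z.D ≤ DD) (hy : (gaq z.sys.Q D).Adf A y) :
    ∃ L : ℕ → ℝ, S.Sub L ∧ Sp.Typ (S := (z.cl (lb y)).sp) (fun k (ω : (y k).l.T.Ω) =>
      (gaq s.Q DD).φ k ((z.cl (lb y) k).p.π ω) (z.zfm DD y k ω) ≤ L k) := by
  obtain ⟨K1, hK1, hT⟩ := adf_sub hy
  obtain ⟨K2, hK2, h2⟩ := (gaq s.Q DD).one
  obtain ⟨KL, hKL, hlp⟩ := z.R.lp (fun _ => 1) (S.Sub_const zero_le_one)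
  obtain ⟨KX, hKX, hX⟩ := z.hX
  have hKK : S.Sub (fun k => KL k + KX k) := hKL.add hKX
  have hc1 : (0 : ℝ) ≤ nn M DD := by have := nn_one M DD; linarith
  have hc2 : (0 : ℝ) ≤ nn M' D := by have := nn_one M' D; linarith
  have hc3 : (0 : ℝ) ≤ Cu D * Cm M' D := by
    have h1 := Cu_one D
    have h2 := Cm_one M' D
    positivity
  have hLs : S.Sub (fun k => K2 k + nn M DD * (nn M' D * ((Cu D * Cm M' D * (KL k + KX k + 1) ^ D) ^ 2 * K1 k))) :=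
    hK2.add ((S.Sub_const hc1).mul ((S.Sub_const hc2).mul ((Sub_pow' ((S.Sub_const hc3).mul
      (Sub_pow' (hKK.add (S.Sub_const zero_le_one)) D)) 2).mul (z.Z.Sub_sp.mpr hK1))))
  refine ⟨_, hLs, ?_⟩
  -- the event on the space of the zoom
  have hE : Typ (S := z.Z.sp) (fun k (ω : (z.Z.l k).T.Ω) =>
    (∀ j, |z.X.v k ω j - Rows.val z.Z z.R k ω j| ≤ KX k * S.dl z.Z.u k) ∧
      ∀ y : Fin M → ℝ, (∀ i, |y i - s.Q.v k ((z.Z.l k).p.π ω) i| ≤ 1 * S.dl 1 k) → ∀ j,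
      |MvPolynomial.eval y (z.R.p k ω j) - MvPolynomial.eval (s.Q.v k ((z.Z.l k).p.π ω)) (z.R.p k ω j)| ≤
        KL k * S.dl z.Z.u k) := Typ.and (S := z.Z.sp) hX hlp
  have hE' : Tendsto (fun k => (y k).l.T.pb (fun ω => ¬ ((∀ j, |z.X.v k ((y k).l.p.π ω) j -
    Rows.val z.Z z.R k ((y k).l.p.π ω) j| ≤ KX k * S.dl z.Z.u k) ∧
      ∀ y' : Fin M → ℝ, (∀ i, |y' i - s.Q.v k ((z.Z.l k).p.π ((y k).l.p.π ω)) i| ≤ 1 * S.dl 1 k) → ∀ j,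
      |MvPolynomial.eval y' (z.R.p k ((y k).l.p.π ω) j) - MvPolynomial.eval
        (s.Q.v k ((z.Z.l k).p.π ((y k).l.p.π ω))) (z.R.p k ((y k).l.p.π ω) j)| ≤ KL k * S.dl z.Z.u k))) UF (𝓝 0) := by
    refine Tendsto.congr (fun k => ?_) hE
    exact (pb_push (y k).l.p _).symm
  have hT' : Tendsto (fun k => (y k).l.T.pb (fun ω => ¬ (gaq z.sys.Q D).φ k ((y k).l.p.π ω) ((y k).g ω) ≤ K1 k)) UF
    (𝓝 0) := hT
  have hT2 : Typ (S := (lb y).sp) (fun k (ω : (y k).l.T.Ω) => (gaq z.sys.Q D).φ k ((y k).l.p.π ω) ((y k).g ω) ≤ K1 k ∧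
      ((∀ j, |z.X.v k ((y k).l.p.π ω) j -
    Rows.val z.Z z.R k ((y k).l.p.π ω) j| ≤ KX k * S.dl z.Z.u k) ∧
      ∀ y' : Fin M → ℝ, (∀ i, |y' i - s.Q.v k ((z.Z.l k).p.π ((y k).l.p.π ω)) i| ≤ 1 * S.dl 1 k) → ∀ j,
      |MvPolynomial.eval y' (z.R.p k ((y k).l.p.π ω) j) - MvPolynomial.eval
        (s.Q.v k ((z.Z.l k).p.π ((y k).l.p.π ω))) (z.R.p k ((y k).l.p.π ω) j)| ≤ KL k * S.dl z.Z.u k)) :=
    typ_and (S := (lb y).sp) hT' hE'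
  refine squeeze_zero' (Eventually.of_forall fun k => Sp.mass_res_nonneg (S := (z.cl (lb y)).sp) k _) ?_ hT2
  filter_upwards [h2, z.R.pz_ev, hy 1 one_pos, hKL.1, hKX.1, hK1.1] with k a hpz hy1 hKL0 hKX0 hK10
  refine mass_res_mono (y k).l.T.μ _ _ (y k).l.T.nn (fun ω hω hE hcon => hE ?_)
  obtain ⟨hc1', hc2', hc3'⟩ := hcon
  have hω' : (z.Z.l k).T.μ ((y k).l.p.π ω) ≠ 0 := (y k).l.p.supp ω hω
  have hω'' := (z.Z.l k).p.supp _ hω'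
  have hCp := (hy1.2.1 ω hω).1
  have hPd : PdM ((y k).g ω) := ⟨hCp.1, fun v hv => (self_pos hv).trans_le (hCp.2.1 v)⟩
  show (gaq s.Q DD).φ k ((z.Z.l k).p.π ((y k).l.p.π ω)) (z.zfm DD y k ω) ≤ _
  unfold zfm
  rw [(gaq s.Q DD).add]
  refine add_le_add (a _ hω'') ?_
  have hdu : 0 < z.Z.sp.dl 1 k := z.Z.sp.dl_pos 1 k
  have e0 : z.R.pz k ((y k).l.p.π ω) = z.R.p k ((y k).l.p.π ω) := hpz _
  have h3 := phi_sbf (DD := DD) (z.R.pz k ((y k).l.p.π ω)) (z.R.pz_deg k _) hDD ((y k).g ω) hPd (r := S.dl 1 k)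
    (r' := z.Z.sp.dl 1 k) (K := KL k + KX k) hdu (add_nonneg hKL0 hKX0)
    (s.Q.v k ((z.Z.l k).p.π ((y k).l.p.π ω))) (z.sys.Q.v k ((y k).l.p.π ω)) (fun j i => by
      rw [e0, z.Z.sp_dl1]
      have h4 := hc3' (nodp DD (s.Q.v k ((z.Z.l k).p.π ((y k).l.p.π ω))) (S.dl 1 k) j) (fun i => by
        have e1 : nodp DD (s.Q.v k ((z.Z.l k).p.π ((y k).l.p.π ω))) (S.dl 1 k) j i -
            s.Q.v k ((z.Z.l k).p.π ((y k).l.p.π ω)) i = S.dl 1 k * nod DD (j i) := by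
          unfold nodp
          ring
        rw [e1, abs_mul, abs_of_pos (S.dl_pos 1 k), abs_of_nonneg (nod_nonneg DD _), one_mul]
        exact mul_le_of_le_one_right (S.dl_pos 1 k).le (nod_le DD _ (Nat.le_of_lt_succ (j i).2))) i
      have h5 : |z.sys.Q.v k ((y k).l.p.π ω) i - Rows.val z.Z z.R k ((y k).l.p.π ω) i| ≤ KX k * S.dl z.Z.u k := hc2' i
      have h6 := abs_sub (MvPolynomial.eval (nodp DD (s.Q.v k ((z.Z.l k).p.π ((y k).l.p.π ω))) (S.dl 1 k) j)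
        (z.R.p k ((y k).l.p.π ω) i) - Rows.val z.Z z.R k ((y k).l.p.π ω) i)
        (z.sys.Q.v k ((y k).l.p.π ω) i - Rows.val z.Z z.R k ((y k).l.p.π ω) i)
      have e2 : MvPolynomial.eval (nodp DD (s.Q.v k ((z.Z.l k).p.π ((y k).l.p.π ω))) (S.dl 1 k) j)
        (z.R.p k ((y k).l.p.π ω) i) - Rows.val z.Z z.R k ((y k).l.p.π ω) i -
        (z.sys.Q.v k ((y k).l.p.π ω) i - Rows.val z.Z z.R k ((y k).l.p.π ω) i) =
        MvPolynomial.eval (nodp DD (s.Q.v k ((z.Z.l k).p.π ((y k).l.p.π ω))) (S.dl 1 k) j)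
        (z.R.p k ((y k).l.p.π ω) i) - z.sys.Q.v k ((y k).l.p.π ω) i := by ring
      rw [e2] at h6
      have h7 : |MvPolynomial.eval (nodp DD (s.Q.v k ((z.Z.l k).p.π ((y k).l.p.π ω))) (S.dl 1 k) j)
        (z.R.p k ((y k).l.p.π ω) i) - Rows.val z.Z z.R k ((y k).l.p.π ω) i| ≤ KL k * S.dl z.Z.u k := h4
      rw [add_mul]
      linarith)
  refine h3.trans ?_
  apply mul_le_mul_of_nonneg_left _ hc1
  apply mul_le_mul_of_nonneg_left _ hc2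
  apply mul_le_mul_of_nonneg_left _ (sq_nonneg _)
  exact hc1'

/-- the form of the zoom as a form of the system -/
def out (DD : ℕ) (y : ∀ k, FD (z.Z.sp.F k) (Mon M' D)) : ∀ k, FD (S.F k) (Mon M DD) :=
  cutFD (gaq s.Q DD) (z.cl (lb y)) (z.zfm DD y) (z.zfm_meas DD y)

theorem out_l (DD : ℕ) (y : ∀ k, FD (z.Z.sp.F k) (Mon M' D)) :
    (fun k => (z.out DD y k).l) = z.cl (fun k => (y k).l) := rfl

theorem out_typ (hDD : D * z.D ≤ DD) (hy : (gaq z.sys.Q D).Adf A y) :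
    Tendsto (fun k => (y k).l.T.pb (fun ω => ¬ Cpd ((gaq s.Q DD).cp k) (z.zfm DD y k ω))) UF (𝓝 0) := by
  obtain ⟨L, hL, hT⟩ := z.zfm_phi DD hDD hy
  exact cut_typ (Φ := gaq s.Q DD) (z.cl (lb y)) (z.zfm DD y) (z.zfm_ge DD hy) L hL hT

theorem out_g (k : ℕ) (ω : (y k).l.T.Ω) (h : Cpd ((gaq s.Q DD).cp k) (z.zfm DD y k ω)) :
    (z.out DD y k).g ω = z.zfm DD y k ω := cutm_pos h

end out

/-- FORMS OF THE ZOOM ARE ADMISSIBLE FOR THE SYSTEM -/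
theorem out_ad [Finite ι] {D DD : ℕ} (hDD : D * z.D ≤ DD) {b : ℝ} (hb : 0 ≤ b)
    {y : ∀ k, FD (z.Z.sp.F k) (Mon M' D)} (hy : (gaq z.sys.Q D).Adf (z.sys.cnd b) y) :
    (gaq s.Q DD).Adf (s.cnd (z.Z.c + z.Z.u * b)) (z.out DD y) := by
  obtain ⟨L, hL, hT⟩ := z.zfm_phi DD hDD hy
  exact cut_adf (Φ := gaq s.Q DD) (z.cl (lb y)) (z.DMc_cl hb (Gau.Adf.dm _ hy)) (z.zfm DD y) (z.zfm_meas DD y)
    (z.zfm_ge DD hy) L hL hT

end RZ

end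

end Pool.Agent.Helper7.GZ
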