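import Pool.Agent.Helper7.GZ.Ex
import Pool.Agent.Helper77.WDG.Wd

/-! ZOOMS OF SYSTEMS WITH WEIGHTED DEGREES: if along the types the coordinate `j` is a polynomial of degree at most `w j`
and the frame has the exponents `w j * c`, the zoom in the coordinates of the frame has charts of degree at most `w j`. -/

set_option autoImplicit false

namespace Pool.Agent.Helper7.GZ

open Finset Filter Topology Matrix Pool.Agent.Helper69.RK Pool.Agent.Helper31.EC Pool.Agent.Helper31.EC.Sp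
open Pool.Agent.Helper40.EL Pool.Agent.Helper89.LX Pool.Agent.Helper3.LF Pool.Agent.Helper84.MT
open Pool.Agent.Helper89.TAY (crn)
open Pool.Agent.Helper36.AM (Frm Gz inv inv_eq)
open Pool.Agent.Helper77.WDG (WLe wt wt_smul wLe_one_iff)

noncomputable section

/-- the inverse of a triangular chart of reduced weighted degree -/
theorem inv_wLe {M : ℕ} {P : Fin M → MvPolynomial (Fin M) ℝ} {w : Fin M → ℝ} (hw : ∀ j, 0 ≤ w j)
    (tri : ∀ j, ∀ i ∈ (P j).vars, i < j) (red : ∀ j, ∀ a ∈ (P j).support, a ≠ 0 → wt w a < w j) :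
    ∀ (n : ℕ) (j : Fin M), (j : ℕ) < n → WLe w (w j) (inv P j) := by
  intro n
  induction n with
  | zero => intro j hj; omega
  | succ n ih =>
    intro j hj
    rw [inv_eq tri j]
    refine (WLe.X le_rfl).sub ?_
    have h1 : WLe w (w j) (P j) := by
      intro a ha
      by_cases h0 : a = 0
      · rw [h0, Pool.Agent.Helper77.WDG.wt_zero]
        exact hw j
      · exact (red j a ha h0).le
    refine h1.bind _ fun i hi => ih i ?_
    have : (i : ℕ) < j := tri j i hi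
    omega

/-- an affine change of the parameter -/
theorem deg_aff {e : ℕ} (G : MvPolynomial (Fin e) ℝ) (o : Fin e → ℝ) (d : ℝ) {r : ℝ} (hr : 0 ≤ r)
    (hG : (G.totalDegree : ℝ) ≤ r) :
    WLe (fun _ : Fin e => (1 : ℝ)) r (MvPolynomial.bind₁ (fun i => MvPolynomial.C (o i) +
      MvPolynomial.C d * MvPolynomial.X i) G) := by
  have h1 : WLe (fun _ : Fin e => (1 : ℝ)) r G := (wLe_one_iff hr).2 hG
  exact h1.bind _ fun i _ => (WLe.C zero_le_one _).add ((WLe.X le_rfl).C_mul d)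

variable {S : Sp} {M : ℕ} {E : ℕ → ℕ} {ι : Type}

/-- weighted degrees of the types (the field `wd` of `Hom`) -/
def WDeg (s : MSys S M E ι) (w : Fin M → ℝ) : Prop :=
  ∀ i, ∃ G : ∀ k, (S.F k).Ω → Fin M → MvPolynomial (Fin (s.lf i).e) ℝ,
    (∀ᶠ k in UF, ∀ ω, (S.F k).μ ω ≠ 0 → ∀ y j, (s.lf i).F k ω y j = MvPolynomial.eval y (G k ω j)) ∧
      ∀ k ω j, ((G k ω j).totalDegree : ℝ) ≤ w j

/-- the chart of the zoom: the row, the chart and the affine change of the parameter -/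
def wch {e : ℕ} (p : MvPolynomial (Fin M) ℝ) (G : Fin M → MvPolynomial (Fin e) ℝ) (o : Fin e → ℝ) (d : ℝ) :
    MvPolynomial (Fin e) ℝ :=
  MvPolynomial.bind₁ (fun i => MvPolynomial.bind₁ (fun a => MvPolynomial.C (o a) +
    MvPolynomial.C d * MvPolynomial.X a) (G i)) p

theorem wch_eval {e : ℕ} (p : MvPolynomial (Fin M) ℝ) (G : Fin M → MvPolynomial (Fin e) ℝ) (o : Fin e → ℝ) (d : ℝ)
    (y : Fin e → ℝ) : MvPolynomial.eval y (wch p G o d) =
      MvPolynomial.eval (fun i => MvPolynomial.eval (fun a => o a + d * y a) (G i)) p := by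
  unfold wch
  rw [Pool.Agent.Helper81.MI.eval_bind]
  congr 2
  funext i
  rw [Pool.Agent.Helper81.MI.eval_bind]
  congr 2
  funext a
  rw [map_add, map_mul, MvPolynomial.eval_C, MvPolynomial.eval_C, MvPolynomial.eval_X]

theorem wch_deg {e : ℕ} {w : Fin M → ℝ} (hw : ∀ j, 0 ≤ w j) {p : MvPolynomial (Fin M) ℝ} {r : ℝ} (hr : 0 ≤ r)
    (hp : WLe w r p) {G : Fin M → MvPolynomial (Fin e) ℝ} (hG : ∀ j, ((G j).totalDegree : ℝ) ≤ w j) (o : Fin e → ℝ)
    (d : ℝ) : ((wch p G o d).totalDegree : ℝ) ≤ r :=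
  (wLe_one_iff hr).1 (hp.bind _ fun i _ => deg_aff (G i) o d (hw i) (hG i))

namespace FrZ

variable {s : MSys S M E ι} {l : Lab S} {w : Fin M → ℝ} {c : ℝ} (F : FrZ s l (fun j => w j * c))

/-- EXACT CHARTS of the zoom in the coordinates of a frame -/
theorem exists_xc (hF : F.c = c) (hw : ∀ j, 0 ≤ w j) {g : ℕ} (hg1 : 1 ≤ g) (hdim : ∀ i, (s.lf i).e ≤ g)
    (hwg : ∀ j, w j ≤ g) (hwd : WDeg s w) :
    ∃ x : XC F.rz, x.κx = g ∧ ∀ i k ω j, ((x.G i k ω j).totalDegree : ℝ) ≤ w j := by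
  classical
  choose G hG1 hG2 using hwd
  have hc : 0 < c := hF ▸ F.hc
  have hrow : ∀ k (ω : (l k).T.Ω) j, WLe w (w j) (frow F.f k ω j) := by
    intro k ω j
    refine (inv_wLe hw (F.f.tri k ω) (fun j a ha h0 => ?_) M j j.2).C_mul _
    have h1 := F.f.red k ω j a ha h0
    have h2 : wt w a * c < w j * c := by
      rw [← wt_smul]
      exact h1
    exact lt_of_mul_lt_mul_right h2 hc.le
  have hdeg : ∀ i k (ω : (l k).T.Ω) j, ((wch (frow F.f k ω j) (G i k ((l k).p.π ω)) (crn (s.lf i) F.c k ((l k).p.π ω))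
      (S.dl F.c k)).totalDegree : ℝ) ≤ w j := fun i k ω j =>
    wch_deg hw (hw j) (hrow k ω j) (fun j => hG2 i k _ j) _ _
  refine ⟨{
    κx := g
    hκ1 := hg1
    he := hdim
    G := fun i k ω j => wch (frow F.f k ω j) (G i k ((l k).p.π ω)) (crn (s.lf i) F.c k ((l k).p.π ω)) (S.dl F.c k)
    deg := fun i k ω j => by
      have h1 := (hdeg i k ω j).trans (hwg j)
      exact_mod_cast h1
    fn := ?_
    ex := ?_ }, rfl, fun i k ω j => hdeg i k ω j⟩
  · intro i
    filter_upwards [F.rz.R.fn, (s.lf i).fn, hG1 i] with k h1 h2 h3 ω ω' a b z v r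
    have e1 : frow F.f k ω = frow F.f k ω' := h1 ω ω' a b z v
    have hω := (l k).p.supp ω a
    have hω' := (l k).p.supp ω' b
    have zz := ((l k).p.hZ ω ω' a b).1 z
    have e2 : (s.lf i).F k ((l k).p.π ω) = (s.lf i).F k ((l k).p.π ω') := h2 _ _ hω hω' zz r.1
    have e3 : G i k ((l k).p.π ω) = G i k ((l k).p.π ω') := by
      funext j
      apply MvPolynomial.funext
      intro y
      rw [← h3 _ hω y j, ← h3 _ hω' y j, e2]
    have e4 : crn (s.lf i) F.c k ((l k).p.π ω) = crn (s.lf i) F.c k ((l k).p.π ω') := by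
      funext a
      have h4 : ⌊(s.lf i).Y.v k ((l k).p.π ω) a / S.dl F.c k⌋ = ⌊(s.lf i).Y.v k ((l k).p.π ω') a / S.dl F.c k⌋ :=
        congrFun r.2 a
      unfold crn
      rw [h4]
    funext j
    show wch (frow F.f k ω j) _ _ _ = wch (frow F.f k ω' j) _ _ _
    rw [e1, e3, e4]
  · intro i
    filter_upwards [hG1 i] with k h3 ω hω y j
    show MvPolynomial.eval y (wch (frow F.f k ω j) (G i k ((l k).p.π ω)) (crn (s.lf i) F.c k ((l k).p.π ω))
      (S.dl F.c k)) = MvPolynomial.eval ((s.lf i).F k ((l k).p.π ω)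
        (fun a => crn (s.lf i) F.c k ((l k).p.π ω) a + S.dl F.c k * y a)) (frow F.f k ω j)
    rw [wch_eval]
    congr 2
    funext i'
    exact (h3 _ ((l k).p.supp ω hω) _ i').symm

end FrZ

end

end Pool.Agent.Helper7.GZ
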