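import Pool.Agent.Helper7.GZ.Frm

/-! THE ZOOM IN THE COORDINATES OF A FRAME (`Gz` of Helper36/AM/St): existence, connectedness, volumes. -/

set_option autoImplicit false

namespace Pool.Agent.Helper7.GZ

open Finset Filter Topology Matrix Pool.Agent.Helper69.RK Pool.Agent.Helper31.EC Pool.Agent.Helper31.EC.Sp
open Pool.Agent.Helper40.EL Pool.Agent.Helper89.LX Pool.Agent.Helper3.LF Pool.Agent.Helper84.MT
open Pool.Agent.Helper36.AM (Frm Gz)

noncomputable section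

variable {S : Sp} {M : ℕ} {E : ℕ → ℕ} {ι : Type}

/-- the zoom of a system in the coordinates of a frame is a zoom -/
theorem RZ.gz {s : MSys S M E ι} (z : RZ s M) (X : z.Z.l.sp.VV M) (hX : ∀ k ω j, z.X.v k ω j = X.v k ω j) :
    Gz s z.Z.l z.Z.c z.Z.u z.Z.hu X z.sys where
  pt := by
    refine ⟨fun _ => 0, S.Sub_const le_rfl, Eventually.of_forall fun k ω _ j => ?_⟩
    have h1 : z.sys.Q.v k ω j = X.v k ω j := hX k ω j
    rw [h1, sub_self, abs_zero, zero_mul]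
  win := fun b i hb _ => ⟨z.win_le i hb, z.win_ge i b⟩

/-- data of the zoom in the coordinates of a frame -/
structure FrZ (s : MSys S M E ι) (l : Lab S) (La : Fin M → ℝ) where
  f : Frm s.Q l La
  c : ℝ
  e : ℝ
  hc : 0 < c
  he : 0 < e
  h1 : c + e ≤ 1
  dm : s.DMc c l
  h0 : ∀ j, 0 ≤ La j
  hLe : ∀ j, La j + e ≤ 1
  κ₀ : ℕ
  hκ₀ : ∀ k ω j, (f.P k ω j).totalDegree ≤ κ₀
  Λ : ℝ
  hΛ : ∀ j, La j ≤ Λ
  κ : ℕ
  hκ1 : 1 ≤ κ
  hdim : ∀ i, (s.lf i).e ≤ κ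
  hκ : Λ + e ≤ c * (κ + 1)

namespace FrZ

variable {s : MSys S M E ι} {l : Lab S} {La : Fin M → ℝ} (F : FrZ s l La)

/-- the zoom data -/
def zu : ZU S := ⟨l, F.c, F.e, F.hc.le, F.he, F.h1⟩

/-- the rows -/
def rows : Rows s.Q F.zu.l M ((F.κ₀ + 1) ^ M) F.Λ F.zu.u := frows F.f F.hκ₀ F.h0 F.he.le F.hLe F.hΛ

/-- the coordinates as a vector of the space of the zoom -/
def XX : F.zu.sp.VV M := F.f.X.chg l.V F.e F.he

theorem XX_v (k : ℕ) (ω : (l.sp.F k).Ω) (j : Fin M) : F.XX.v k ω j = F.f.X.v k ω j := rfl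

theorem isX : Rows.IsX F.zu F.rows F.XX := by
  obtain ⟨K, hK, h1⟩ := frow_near F.f F.hκ₀ F.h0 F.hLe (S.Sub_const zero_le_one)
  refine ⟨K, hK, (Typ_true (S := F.zu.sp)).mono ?_⟩
  filter_upwards [h1] with k a ω hω _ j
  have h2 := a ω hω (s.Q.v k ((l k).p.π ω)) (fun i => by
    rw [sub_self, abs_zero]
    exact mul_nonneg zero_le_one (S.dl_pos 1 k).le) j
  rw [abs_sub_comm] at h2
  exact h2

/-- the data of the zoom in the coordinates of rows -/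
def rz : RZ s M where
  Z := F.zu
  hc := F.hc
  dm := F.dm
  D := (F.κ₀ + 1) ^ M
  Λ := F.Λ
  R := F.rows
  X := F.XX
  hX := F.isX
  κ := F.κ
  hκ1 := F.hκ1
  he := F.hdim
  hκ := F.hκ

/-- THE ZOOM -/
def sys : MSys (l.ovr F.e F.he) M (lin F.κ) ι := F.rz.sys

theorem gz : Gz s l F.c F.e F.he F.f.X F.sys := F.rz.gz F.f.X fun _ _ _ => rfl

theorem sys_e (i : ι) : (F.sys.lf i).e = (s.lf i).e := rfl

theorem con (h : s.IsKap F.c l) : F.sys.Con 0 := F.rz.Con_zero h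

/-- labels of the zoom are labels of the system -/
theorem DMc_cl {b : ℝ} (hb : 0 ≤ b) {y : Lab (l.ovr F.e F.he)} (hy : F.sys.DMc b y) :
    s.DMc (F.c + F.e * b) (l.comp F.e F.he y) := F.rz.DMc_cl hb hy

/-- VOLUMES -/
theorem vol_le [Finite ι] {D DD : ℕ} (hD : 1 ≤ D) (hDD : D * (F.κ₀ + 1) ^ M ≤ DD) {b : ℝ} (hb : 0 ≤ b) :
    s.vol DD (F.c + F.e * b) ≤ M - ∑ j, La j - F.e * (M - F.sys.vol D b) := by
  classical
  have h := F.rz.vol_le hD hDD hb (fun _ _ => ∑ j, La j) (∑ j, La j) (Eventually.of_forall fun k ω _ => by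
    rw [abs_of_nonneg (Finset.sum_nonneg fun j _ => F.h0 j)]) (fun _ => 1) (S.Sub_const zero_le_one) (by
    refine (Typ_true (S := F.rz.Z.l.sp)).mono (Eventually.of_forall fun k ω _ _ => le_of_eq ?_)
    have h1 : (jac (F.rz.R.p k ω) (s.Q.v k ((F.rz.Z.l k).p.π ω))).det = ∏ j, (S.dl (La j) k)⁻¹ :=
      jac_inv (F.f.tri k ω) (fun j => (S.dl (La j) k)⁻¹) _
    rw [h1, one_mul]
    have h2 : ∏ j, (S.dl (La j) k)⁻¹ = 2 ^ ((∑ j, La j) * (S.F k).n) := by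
      rw [Finset.sum_mul, Real.rpow_sum_of_pos (by norm_num)]
      exact Finset.prod_congr rfl fun j _ => dl_inv_eq _ _
    rw [h2, ← Real.rpow_natCast, ← Real.rpow_mul (by norm_num)]
    congr 1
    push_cast
    ring)
  have h2 : ul (fun k => ∑ ω, (F.rz.Z.l k).T.μ ω * ∑ j, La j) = ∑ j, La j := by
    have h3 : (fun k => ∑ ω, (F.rz.Z.l k).T.μ ω * ∑ j, La j) = fun _ => ∑ j, La j := by
      funext k
      rw [← Finset.sum_mul, Pool.Agent.Helper3.PR.sum_mu, one_mul]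
    rw [h3, ul_const]
  rw [h2] at h
  exact h

/-- the zoom fills its hull if the volume of the box is the product of its sides -/
theorem hull [Finite ι] {D DD : ℕ} (hD : 1 ≤ D) (hDD : D * (F.κ₀ + 1) ^ M ≤ DD)
    (hv : (M : ℝ) - ∑ j, La j ≤ s.vol DD F.c) : F.sys.vol D 0 = M := by
  apply le_antisymm (F.sys.vol_le_M D 0)
  have h := F.vol_le hD hDD le_rfl
  rw [mul_zero, add_zero] at h
  have h2 : 0 ≤ -(F.e * (M - F.sys.vol D 0)) := by linarith
  have h3 := F.he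
  nlinarith

end FrZ

end

end Pool.Agent.Helper7.GZ
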