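import Pool.Agent.Helper7.GZ.Inst

/-! ZOOM IN THE COORDINATES OF ROWS WITH EXACT CHARTS: if the rows along the charts are polynomials of degree at most `κx`
these polynomials may be taken as the charts of the zoom. Systems with the same point and equivalent windows have the
same labels and volumes. -/

set_option autoImplicit false

namespace Pool.Agent.Helper7.GZ

open Finset Filter Topology Matrix Pool.Agent.Helper69.RK Pool.Agent.Helper31.EC Pool.Agent.Helper31.EC.Sp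
open Pool.Agent.Helper40.EL Pool.Agent.Helper89.LX Pool.Agent.Helper3.LF Pool.Agent.Helper84.MT
open Pool.Agent.Helper89.TAY (crn)

noncomputable section

variable {S : Sp} {M M' : ℕ} {E E' : ℕ → ℕ} {ι : Type}

/-! ### equivalent systems -/

/-- two systems with the same point and equivalent conditions of the window `b` -/
structure Eqv (s : MSys S M E ι) (t : MSys S M E' ι) (b : ℝ) : Prop where
  pt : t.Q = s.Q
  le : ∀ i, PLe (t.cnd b i) (s.cnd b i)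
  ge : ∀ i, PLe (s.cnd b i) (t.cnd b i)

theorem Eqv.symm {s : MSys S M E ι} {t : MSys S M E' ι} {b : ℝ} (h : Eqv s t b) : Eqv t s b :=
  ⟨h.pt.symm, h.ge, h.le⟩

theorem Eqv.DMc {s : MSys S M E ι} {t : MSys S M E' ι} {b : ℝ} (h : Eqv s t b) {y : Lab S} (hy : t.DMc b y) :
    s.DMc b y := Lab.DMf.mono hy fun i => ⟨i, h.le i⟩

theorem Eqv.Kap {s : MSys S M E ι} {t : MSys S M E' ι} {b : ℝ} (h : Eqv s t b) {y : Lab S} (hy : t.IsKap b y) :
    s.IsKap b y := Lab.IsMaxf.congr hy (fun i => ⟨i, h.le i⟩) (fun i => ⟨i, h.ge i⟩)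

theorem Eqv.Con {s : MSys S M E ι} {t : MSys S M E' ι} {b : ℝ} (h : Eqv s t b) (ht : s.Con b) : t.Con b :=
  Lab.Conf.mono ht fun i => ⟨i, h.le i⟩

theorem Eqv.adf [Finite ι] {s : MSys S M E ι} {t : MSys S M E' ι} {b : ℝ} (h : Eqv s t b) {D : ℕ}
    {y : ∀ k, FD (S.F k) (Mon M D)} (hy : (gaq t.Q D).Adf (t.cnd b) y) : (gaq s.Q D).Adf (s.cnd b) y := by
  rw [← h.pt]
  exact hy.mono_of fun i => ⟨i, h.le i⟩

theorem Eqv.vol [Finite ι] {s : MSys S M E ι} {t : MSys S M E' ι} {b : ℝ} (h : Eqv s t b) (D : ℕ) :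
    t.vol D b = s.vol D b := by
  apply le_antisymm
  · obtain ⟨y, hy⟩ := s.exists_can D b
    rw [← s.vol_eq hy.1]
    have h1 := t.vol_le_of (h.symm.adf hy.1.1)
    rwa [h.pt] at h1
  · obtain ⟨y, hy⟩ := t.exists_can D b
    rw [← t.vol_eq hy.1]
    have h1 := s.vol_le_of (h.adf hy.1.1)
    rwa [← h.pt] at h1

/-! ### exact charts -/

/-- EXACT CHARTS of a zoom in the coordinates of rows -/
structure XC {s : MSys S M E ι} (z : RZ s M') where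
  κx : ℕ
  hκ1 : 1 ≤ κx
  he : ∀ i, (s.lf i).e ≤ κx
  G : ∀ i k, (z.Z.l k).T.Ω → Fin M' → MvPolynomial (Fin (s.lf i).e) ℝ
  deg : ∀ i k ω j, (G i k ω j).totalDegree ≤ κx
  fn : ∀ i, ∀ᶠ k in UF, ∀ ω ω', (z.Z.l k).T.μ ω ≠ 0 → (z.Z.l k).T.μ ω' ≠ 0 → (z.Z.l k).T.Z ω ω' →
    (z.Z.l k).V ω ω' → (z.Z.zLa (s.lf i) k) ω ω' → G i k ω = G i k ω'
  ex : ∀ i, ∀ᶠ k in UF, ∀ ω, (z.Z.l k).T.μ ω ≠ 0 → ∀ (y : Fin (s.lf i).e → ℝ) (j : Fin M'),
    MvPolynomial.eval y (G i k ω j) = MvPolynomial.eval ((s.lf i).F k ((z.Z.l k).p.π ω)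
      (fun a => crn (s.lf i) z.Z.c k ((z.Z.l k).p.π ω) a + S.dl z.Z.c k * y a)) (z.R.p k ω j)

namespace XC

variable {s : MSys S M E ι} {z : RZ s M'} (x : XC z)

/-- the coefficients of the exact charts are tame -/
theorem bound (i : ι) : ∃ K : ℕ → ℝ, S.Sub K ∧ Typ (S := z.Z.sp) (fun k (ω : (z.Z.l k).T.Ω) =>
    (∀ j a, |(x.G i k ω j).coeff a| ≤ K k) ∧ ∀ j,
      |z.X.v k ω j - MvPolynomial.eval ((z.Z.fr (s.lf i).Y).v k ω) (x.G i k ω j)| ≤ K k * z.Z.sp.dl 1 k) := by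
  obtain ⟨B, hB1, hB⟩ := Pool.Agent.Helper63.FRT.exists_coef_bd (s.lf i).e (max x.κx z.κ)
  have hBs : S.Sub (fun _ => B) := S.Sub_const (by linarith)
  refine ⟨fun k => z.K i k + B * z.K i k + z.K i k, ((z.K_sub i).add (hBs.mul (z.K_sub i))).add (z.K_sub i), ?_⟩
  refine Typ.mono (S := z.Z.sp) (Typ.and (S := z.Z.sp) (z.A_typ i) (z.G_cube i)) ?_
  filter_upwards [x.ex i, (z.K_sub i).1] with k hex hK0
  intro (ω : (z.Z.l k).T.Ω) hω h
  obtain ⟨⟨h1, h2⟩, h3⟩ := h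
  have hdu : S.dl z.Z.u k ≤ 1 := by
    rw [← S.dl_zero k]
    exact S.dl_anti z.Z.hu.le k
  have hdu0 := S.dl_pos z.Z.u k
  have hfr0 : ∀ a, 0 ≤ (z.Z.fr (s.lf i).Y).v k ω a := fun a => by
    rw [z.Z.fr_v]
    linarith [Int.floor_le ((s.lf i).Y.v k ((z.Z.l k).p.π ω) a / S.dl z.Z.c k)]
  have hfr1 : ∀ a, (z.Z.fr (s.lf i).Y).v k ω a < 1 := fun a => by
    rw [z.Z.fr_v]
    linarith [Int.lt_floor_add_one ((s.lf i).Y.v k ((z.Z.l k).p.π ω) a / S.dl z.Z.c k)]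
  have hdiff : ∀ j, ∀ y : Fin (s.lf i).e → ℝ, (∀ a, |y a - (z.Z.fr (s.lf i).Y).v k ω a| < 1) →
      |MvPolynomial.eval y (x.G i k ω j - z.G i k ω j)| ≤ z.K i k * S.dl z.Z.u k := by
    intro j y hy
    rw [map_sub, hex ω hω y j]
    exact h3 y hy j
  constructor
  · intro j a
    have h4 := hB (x.G i k ω j - z.G i k ω j) ((MvPolynomial.totalDegree_sub _ _).trans
      (max_le_max (x.deg i k ω j) (z.G_deg i k ω j))) (z.K i k * S.dl z.Z.u k) (fun y hy => hdiff j y (fun a => by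
        have := hy a
        have := hfr0 a
        have := hfr1 a
        rw [abs_lt]
        constructor <;> linarith)) a
    rw [MvPolynomial.coeff_sub] at h4
    have h5 := abs_sub_abs_le_abs_sub ((x.G i k ω j).coeff a) ((z.G i k ω j).coeff a)
    have h6 := h1 j a
    have h7 : z.K i k * S.dl z.Z.u k ≤ z.K i k := mul_le_of_le_one_right hK0 hdu
    have h8 : B * (z.K i k * S.dl z.Z.u k) ≤ B * z.K i k := mul_le_mul_of_nonneg_left h7 (by linarith)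
    linarith
  · intro j
    have h4 := h2 j
    have h5 := hdiff j ((z.Z.fr (s.lf i).Y).v k ω) (fun a => by
      rw [sub_self, abs_zero]
      exact one_pos)
    rw [z.Z.sp_dl1] at h4 ⊢
    have e1 : z.X.v k ω j - MvPolynomial.eval ((z.Z.fr (s.lf i).Y).v k ω) (x.G i k ω j) =
        (z.X.v k ω j - MvPolynomial.eval ((z.Z.fr (s.lf i).Y).v k ω) (z.G i k ω j)) -
          MvPolynomial.eval ((z.Z.fr (s.lf i).Y).v k ω) (x.G i k ω j - z.G i k ω j) := by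
      rw [map_sub]
      ring
    rw [e1]
    refine (abs_sub _ _).trans ?_
    have h6 : 0 ≤ B * z.K i k * S.dl z.Z.u k := by positivity
    calc |z.X.v k ω j - MvPolynomial.eval ((z.Z.fr (s.lf i).Y).v k ω) (z.G i k ω j)| +
          |MvPolynomial.eval ((z.Z.fr (s.lf i).Y).v k ω) (x.G i k ω j - z.G i k ω j)| ≤
        z.K i k * S.dl z.Z.u k + z.K i k * S.dl z.Z.u k := add_le_add h4 h5
      _ ≤ (z.K i k + B * z.K i k + z.K i k) * S.dl z.Z.u k := by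
        rw [add_mul, add_mul]
        linarith

/-- the bound -/
def K (i : ι) : ℕ → ℝ := (x.bound i).choose

/-- the event -/
def A (i : ι) (k : ℕ) (ω : (z.Z.sp.F k).Ω) : Prop := (∀ j a, |(x.G i k ω j).coeff a| ≤ x.K i k) ∧ ∀ j,
      |z.X.v k ω j - MvPolynomial.eval ((z.Z.fr (s.lf i).Y).v k ω) (x.G i k ω j)| ≤ x.K i k * z.Z.sp.dl 1 k

theorem A_typ (i : ι) : Typ (S := z.Z.sp) (x.A i) := (x.bound i).choose_spec.2

theorem A_pt (i : ι) : ∃ K : ℕ → ℝ, z.Z.sp.Sub K ∧ ∀ᶠ k in UF, ∀ ω, (z.Z.sp.F k).μ ω ≠ 0 → x.A i k ω →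
    (∀ j a, |(x.G i k ω j).coeff a| ≤ K k) ∧
      ∀ j, |z.X.v k ω j - MvPolynomial.eval ((z.Z.fr (s.lf i).Y).v k ω) (x.G i k ω j)| ≤ K k * z.Z.sp.dl 1 k :=
  ⟨x.K i, z.Z.Sub_sp.1 (x.bound i).choose_spec.1, Eventually.of_forall fun _ _ _ h => h⟩

theorem fn' (i : ι) : ∀ᶠ k in UF, ∀ ω ω', (z.Z.sp.F k).μ ω ≠ 0 → (z.Z.sp.F k).μ ω' ≠ 0 → (z.Z.sp.F k).Z ω ω' →
    (z.Z.zLa (s.lf i) k) ω ω' → x.G i k ω = x.G i k ω' := by
  filter_upwards [x.fn i] with k hk ω ω' a b g r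
  obtain ⟨g1, g2, -⟩ := z.Z.hZ k ω ω' a b g
  exact hk ω ω' a b g2 g1 r

/-- THE ZOOM WITH EXACT CHARTS -/
def sys : MSys z.Z.sp M' (lin x.κx) ι where
  Q := z.X
  lf := fun i => ofPolyT x.κx x.hκ1 (s.lf i).e (x.he i) (z.Z.zLa (s.lf i)) (z.Z.fr (s.lf i).Y) (x.G i) (x.deg i)
    (x.fn' i) (x.A i) (x.A_typ i) (x.A_pt i) (z.Z.zfull (s.lf i) (z.dm (some i)))

theorem sys_Q : x.sys.Q = z.X := rfl

theorem sys_e (i : ι) : (x.sys.lf i).e = (s.lf i).e := rfl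

theorem sys_Y (i : ι) : (x.sys.lf i).Y = z.Z.fr (s.lf i).Y := rfl

open Classical in
theorem sys_F (i : ι) (k : ℕ) (ω : (z.Z.sp.F k).Ω) (y : Fin (s.lf i).e → ℝ) (j : Fin M') :
    (x.sys.lf i).F k ω y j = MvPolynomial.eval y (if x.A i k ω then x.G i k ω j else
      MvPolynomial.C (rnd (z.Z.sp.dl 1 k) (z.X.v k ω j))) := rfl

/-- windows -/
theorem win_le (i : ι) {b : ℝ} (hb : 0 ≤ b) :
    PLe ((x.sys.lf i).win b) (z.upz ((s.lf i).win (z.Z.c + z.Z.u * b))) :=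
  PLe.trans (S := z.Z.sp) (ofPolyT_win_le (S := z.Z.sp) x.κx x.hκ1 (s.lf i).e (x.he i) (z.Z.zLa (s.lf i))
    (z.Z.fr (s.lf i).Y) (x.G i) (x.deg i) (x.fn' i) (x.A i) (x.A_typ i) (x.A_pt i)
    (z.Z.zfull (s.lf i) (z.dm (some i))) b) (z.Z.win_up (s.lf i) hb)

theorem win_ge (i : ι) (b : ℝ) :
    PLe (z.upz ((s.lf i).win (z.Z.c + z.Z.u * b))) ((x.sys.lf i).win b) :=
  PLe.trans (S := z.Z.sp) (z.Z.up_win (s.lf i) b) (ofPolyT_win_ge (S := z.Z.sp) x.κx x.hκ1 (s.lf i).e (x.he i)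
    (z.Z.zLa (s.lf i)) (z.Z.fr (s.lf i).Y) (x.G i) (x.deg i) (x.fn' i) (x.A i) (x.A_typ i) (x.A_pt i)
    (z.Z.zfull (s.lf i) (z.dm (some i))) b)

/-- the zoom with exact charts is equivalent to the zoom -/
theorem eqv {b : ℝ} (hb : 0 ≤ b) : Eqv z.sys x.sys b where
  pt := rfl
  le := fun i => by
    rcases i with _ | i
    · exact PLe.refl _
    · exact (x.win_le i hb).trans (z.win_ge i b)
  ge := fun i => by
    rcases i with _ | i
    · exact PLe.refl _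
    · exact (z.win_le i hb).trans (x.win_ge i b)

theorem gz {s : MSys S M E ι} {z : RZ s M} (x : XC z) (X : z.Z.l.sp.VV M) (hX : ∀ k ω j, z.X.v k ω j = X.v k ω j) :
    Pool.Agent.Helper36.AM.Gz s z.Z.l z.Z.c z.Z.u z.Z.hu X x.sys where
  pt := by
    refine ⟨fun _ => 0, S.Sub_const le_rfl, Eventually.of_forall fun k ω _ j => ?_⟩
    have h1 : x.sys.Q.v k ω j = X.v k ω j := hX k ω j
    rw [h1, sub_self, abs_zero, zero_mul]
  win := fun b i hb _ => ⟨x.win_le i hb, x.win_ge i b⟩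

end XC

end

end Pool.Agent.Helper7.GZ
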