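import Pool.Agent.Helper84.MT.Leaf0
import Pool.Agent.Helper26.MT.Zl

/-! ZOOM WITH A SMALL UNIT over a label: the space over the label with the unit `u`, remainders of variables of the level
`c`, windows of a type of leaves (port of Helper26/MT/{Zm,Zl} to units `u ≤ 1 - c`). -/

set_option autoImplicit false

namespace Pool.Agent.Helper7.GZ

open Finset Filter Topology Matrix Pool.Agent.Helper69.RK Pool.Agent.Helper31.EC Pool.Agent.Helper31.EC.Sp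
open Pool.Agent.Helper40.EL Pool.Agent.Helper89.LX Pool.Agent.Helper3.LF Pool.Agent.Helper84.MT
open Pool.Agent.Helper95.LF (PdM)

noncomputable section

/-- the data of a zoom: a label, the window `c`, the unit `u` -/
structure ZU (S : Sp) where
  l : Lab S
  c : ℝ
  u : ℝ
  h0 : 0 ≤ c
  hu : 0 < u
  h1 : c + u ≤ 1

namespace ZU

variable {S : Sp} (Z : ZU S)

/-- the space of the zoom -/
def sp : Sp := Z.l.ovr Z.u Z.hu

theorem sp_n (k : ℕ) : (Z.sp.F k).n = Z.u * (S.F k).n := Z.l.n_over Z.u Z.hu k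

theorem sp_dl' (r : ℝ) (k : ℕ) : Z.sp.dl r k = S.dl (Z.u * r) k := by
  unfold dl
  rw [sp_n]
  congr 1
  ring

theorem Sub_sp {K : ℕ → ℝ} : S.Sub K ↔ Z.sp.Sub K := by
  have h1 : (fun k => Real.logb 2 (K k + 2) / (Z.sp.F k).n) =
      fun k => Z.u⁻¹ * (Real.logb 2 (K k + 2) / (S.F k).n) := by
    funext k
    rw [sp_n]
    have := (S.F k).pos
    have := Z.hu
    field_simp
  unfold Sp.Sub
  rw [h1]
  constructor
  · intro h
    refine ⟨h.1, ?_⟩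
    have := h.2.const_mul Z.u⁻¹
    rwa [mul_zero] at this
  · intro h
    refine ⟨h.1, ?_⟩
    have h2 := h.2.const_mul Z.u
    rw [mul_zero] at h2
    refine h2.congr fun k => ?_
    rw [← mul_assoc, mul_inv_cancel₀ Z.hu.ne', one_mul]

/-- relative resolution at level `w` -/
theorem dl_rel (w : ℝ) (k : ℕ) : S.dl (Z.c + Z.u * w) k = S.dl Z.c k * Z.sp.dl w k := by
  rw [dl_add, sp_dl']

theorem sp_dl1 (k : ℕ) : Z.sp.dl 1 k = S.dl Z.u k := by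
  rw [sp_dl', mul_one]

theorem dl_eq' (k : ℕ) : S.dl Z.c k * S.dl Z.u k = S.dl (Z.c + Z.u) k := by
  rw [dl_add]

theorem dl_c_le (k : ℕ) : S.dl Z.c k ≤ 1 := by
  rw [← S.dl_zero k]
  exact S.dl_anti Z.h0 k

theorem supp (k : ℕ) (ω : (Z.l k).T.Ω) (h : (Z.l k).T.μ ω ≠ 0) : (S.F k).μ ((Z.l k).p.π ω) ≠ 0 :=
  (Z.l k).p.supp ω h

/-- the base of the zoom -/
theorem hZ (k : ℕ) (ω ω' : (Z.l k).T.Ω) (h : (Z.l k).T.μ ω ≠ 0) (h' : (Z.l k).T.μ ω' ≠ 0)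
    (hh : (Z.sp.F k).Z ω ω') : (Z.l k).V ω ω' ∧ (Z.l k).T.Z ω ω' ∧ (S.F k).Z ((Z.l k).p.π ω) ((Z.l k).p.π ω') :=
  ⟨hh.1, hh.2, ((Z.l k).p.hZ ω ω' h h').1 hh.2⟩

/-- the remainder of a variable -/
def fr {p : ℕ} (y : S.VV p) : Z.sp.VV p :=
  VV.of (S := Z.sp) (fun k (ω : (Z.l k).T.Ω) i => y.v k ((Z.l k).p.π ω) i / S.dl Z.c k -
    ⌊y.v k ((Z.l k).p.π ω) i / S.dl Z.c k⌋) (by
    refine ⟨1, Eventually.of_forall fun k ω _ i => ?_⟩
    have h1 := Int.floor_le (y.v k ((Z.l k).p.π ω) i / S.dl Z.c k)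
    have h2 := Int.lt_floor_add_one (y.v k ((Z.l k).p.π ω) i / S.dl Z.c k)
    rw [abs_le]; constructor <;> linarith)

theorem fr_v {p : ℕ} (y : S.VV p) (k : ℕ) (ω : (Z.l k).T.Ω) (i : Fin p) :
    (Z.fr y).v k ω i = y.v k ((Z.l k).p.π ω) i / S.dl Z.c k - ⌊y.v k ((Z.l k).p.π ω) i / S.dl Z.c k⌋ := rfl

/-- differences of remainders in one cell -/
theorem fr_sub {p : ℕ} (y : S.VV p) (k : ℕ) (ω ω' : (Z.l k).T.Ω)
    (h : y.cellv Z.c k ((Z.l k).p.π ω) = y.cellv Z.c k ((Z.l k).p.π ω')) (i : Fin p) :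
    y.v k ((Z.l k).p.π ω) i - y.v k ((Z.l k).p.π ω') i = S.dl Z.c k * ((Z.fr y).v k ω i - (Z.fr y).v k ω' i) := by
  have h1 : ⌊y.v k ((Z.l k).p.π ω) i / S.dl Z.c k⌋ = ⌊y.v k ((Z.l k).p.π ω') i / S.dl Z.c k⌋ := congrFun h i
  have hd := (S.dl_pos Z.c k).ne'
  rw [fr_v, fr_v, h1]
  field_simp
  ring

/-! ### digits of the remainder -/

/-- fine digits of the variable give fine digits of the remainder -/
theorem fr_PLe {p : ℕ} (y : S.VV p) (w : ℝ) (B : ∀ k, Setoid (Z.l k).T.Ω)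
    (hB : ∀ᶠ k in UF, ∀ ω ω', (Z.l k).T.μ ω ≠ 0 → (Z.l k).T.μ ω' ≠ 0 → (Z.sp.F k).Z ω ω' → B k ω ω' →
      y.cellv Z.c k ((Z.l k).p.π ω) = y.cellv Z.c k ((Z.l k).p.π ω') ∧
      y.cellv (Z.c + Z.u * w) k ((Z.l k).p.π ω) = y.cellv (Z.c + Z.u * w) k ((Z.l k).p.π ω')) :
    PLe (S := Z.sp) (fun k => fc (Setoid.ker ((Z.fr y).cellv w k))) (fun k => fc (B k : Setoid (Z.sp.F k).Ω)) := by
  refine PLe_cell (S := Z.sp) (Z.fr y) w B (fun _ => 1) (Z.sp.Sub_const zero_le_one) ?_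
  filter_upwards [hB] with k hk ω ω' a b g r i
  obtain ⟨h1, h2⟩ := hk ω ω' a b g r
  have h3 := Z.fr_sub y k ω ω' h1 i
  have h4 := abs_sub_le_of_floor_eq (S.dl_pos (Z.c + Z.u * w) k) (congrFun h2 i)
  rw [h3, abs_mul, abs_of_pos (S.dl_pos Z.c k), dl_rel] at h4
  rw [one_mul]
  exact le_of_mul_le_mul_left h4 (S.dl_pos Z.c k)

/-- fine digits of the remainder give fine digits of the variable -/
theorem fr_PLe' {p : ℕ} (y : S.VV p) (w : ℝ) (B : ∀ k, Setoid (Z.l k).T.Ω)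
    (hB : ∀ᶠ k in UF, ∀ ω ω', (Z.l k).T.μ ω ≠ 0 → (Z.l k).T.μ ω' ≠ 0 → (Z.sp.F k).Z ω ω' → B k ω ω' →
      y.cellv Z.c k ((Z.l k).p.π ω) = y.cellv Z.c k ((Z.l k).p.π ω') ∧
      (Z.fr y).cellv w k ω = (Z.fr y).cellv w k ω') :
    PLe (Z.l.up Z.u Z.hu (fun k => fc (Setoid.ker (y.cellv (Z.c + Z.u * w) k))))
      (fun k => fc (B k : Setoid (Z.sp.F k).Ω)) := by
  have h1 : Z.l.up Z.u Z.hu (fun k => fc (Setoid.ker (y.cellv (Z.c + Z.u * w) k))) =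
      fun k => fc (Setoid.ker (((Z.l.pj.vv y).chg Z.l.V Z.u Z.hu).cellv (Z.c / Z.u + w) k)) := by
    have h2 : ((Z.l.pj.vv y).chg Z.l.V Z.u Z.hu).cellv (Z.c / Z.u + w) =
        fun k ω => y.cellv (Z.c + Z.u * w) k ((Z.l k).p.π ω) := by
      funext k ω i
      have h4 : Z.sp.dl (Z.c / Z.u + w) k = S.dl (Z.c + Z.u * w) k := by
        rw [sp_dl']
        congr 1
        have := Z.hu.ne'
        field_simp
      show ⌊y.v k ((Z.l k).p.π ω) i / Z.sp.dl (Z.c / Z.u + w) k⌋ = ⌊y.v k ((Z.l k).p.π ω) i / S.dl (Z.c + Z.u * w) k⌋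
      rw [h4]
    rw [h2]
    rfl
  rw [h1]
  refine PLe_cell (S := Z.sp) ((Z.l.pj.vv y).chg Z.l.V Z.u Z.hu) (Z.c / Z.u + w) B (fun _ => 1)
    (Z.sp.Sub_const zero_le_one) ?_
  filter_upwards [hB] with k hk ω ω' a b g r i
  obtain ⟨h2, h3⟩ := hk ω ω' a b g r
  have h4 := Z.fr_sub y k ω ω' h2 i
  have h5 := abs_sub_le_of_floor_eq (Z.sp.dl_pos w k) (congrFun h3 i)
  show |y.v k ((Z.l k).p.π ω) i - y.v k ((Z.l k).p.π ω') i| ≤ 1 * Z.sp.dl (Z.c / Z.u + w) k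
  have h6 : Z.sp.dl (Z.c / Z.u + w) k = S.dl Z.c k * Z.sp.dl w k := by
    rw [sp_dl', ← dl_rel]
    congr 1
    have := Z.hu.ne'
    field_simp
  rw [h4, h6, abs_mul, abs_of_pos (S.dl_pos Z.c k), one_mul]
  exact mul_le_mul_of_nonneg_left h5 (S.dl_pos Z.c k).le

/-! ### rates over the label -/

theorem h_upx (x y : Part S) (k : ℕ) : h (Z.l.up Z.u Z.hu x k) (Z.l.up Z.u Z.hu y k) =
    h ((Z.l k).p.map (x k)) ((Z.l k).p.map (y k) ⊔ (Z.l k).v) := (Z.l k).h_up Z.u Z.hu (x k) (y k)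

/-- conditional rates given a condition without leak -/
theorem tendsto_up {x y : Part S} (hl : Nul S (fun k => (Z.l k).leak (y k))) {v : ℝ}
    (hv : Tendsto (fun k => h (x k) (y k) / (S.F k).n) UF (𝓝 v)) :
    Tendsto (fun k => h (Z.l.up Z.u Z.hu x k) (Z.l.up Z.u Z.hu y k) / (Z.sp.F k).n) UF (𝓝 (v / Z.u)) := by
  have e1 : (fun k => h (Z.l.up Z.u Z.hu x k) (Z.l.up Z.u Z.hu y k) / (Z.sp.F k).n) =
      fun k => (h ((Z.l k).p.map (x k)) ((Z.l k).p.map (y k) ⊔ (Z.l k).v) / (S.F k).n) / Z.u := by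
    funext k
    rw [h_upx, sp_n, div_div, mul_comm Z.u]
  rw [e1]
  apply Tendsto.div_const
  have t1 := hv.sub hl
  rw [sub_zero] at t1
  refine tendsto_of_tendsto_of_tendsto_of_le_of_le t1 hv (fun k => ?_) (fun k => ?_)
  · show h (x k) (y k) / (S.F k).n - (Z.l k).leak (y k) / (S.F k).n ≤ _
    rw [← sub_div]
    apply div_le_div_of_nonneg_right _ (S.F k).pos.le
    have h3 := I_eq' (Z.l k).v ((Z.l k).p.map (x k)) ((Z.l k).p.map (y k))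
    have h4 : I (Z.l k).v ((Z.l k).p.map (x k)) ((Z.l k).p.map (y k)) ≤ (Z.l k).leak (y k) :=
      I_mono_right (((Z.l k).p.map_le_top _).trans le_sup_left)
    rw [sup_comm (Z.l k).v, (Z.l k).p.h_map] at h3
    linarith
  · show _ ≤ h (x k) (y k) / (S.F k).n
    apply div_le_div_of_nonneg_right _ (S.F k).pos.le
    rw [← (Z.l k).p.h_map]
    exact h_anti le_sup_left


/-! ### the windows of a type -/

section leaf

variable {M : ℕ} {E : ℕ → ℕ} {Q : S.VV M} (l : Leaf S Q E)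

/-- the window `c` in the space of the label -/
def zLa (k : ℕ) : Setoid (Z.sp.F k).Ω :=
  Setoid.comap (Z.l k).p.π (l.La k ⊓ Setoid.ker (l.Y.cellv Z.c k))

theorem zLa_fc : (fun k => (fc (Z.zLa l k : Setoid (Z.sp.F k).Ω) : FL (Z.sp.F k))) =
    Z.l.up Z.u Z.hu (l.win Z.c) := rfl

/-- the parameter fills its cell -/
theorem zfull (hl : Nul S (fun k => (Z.l k).leak (l.win Z.c k))) :
    Tendsto (fun k => h (fc (Setoid.ker ((Z.fr l.Y).cellv 1 k))) (fc (Z.zLa l k)) / (Z.sp.F k).n) UF (𝓝 l.e) := by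
  have hcu : Z.c ≤ Z.c + Z.u := by linarith [Z.hu]
  have t1 := Z.tendsto_up hl (l.full_win Z.h0 hcu Z.h1)
  have e1 : (l.e : ℝ) * (Z.c + Z.u - Z.c) / Z.u = l.e := by
    have := Z.hu.ne'
    field_simp
    ring
  rw [e1] at t1
  have p1 : PLe (S := Z.sp) (fun k => fc (Setoid.ker ((Z.fr l.Y).cellv 1 k)))
      (fun k => fc (Setoid.comap (Z.l k).p.π (Setoid.ker (l.Y.cellv (Z.c + Z.u) k)) ⊓ Z.zLa l k)) := by
    apply Z.fr_PLe l.Y 1
    refine Eventually.of_forall fun k ω ω' _ _ _ r => ⟨r.2.2, ?_⟩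
    rw [mul_one]
    exact r.1
  have p2 : PLe (Z.l.up Z.u Z.hu (fun k => fc (Setoid.ker (l.Y.cellv (Z.c + Z.u) k))))
      (fun k => fc (Setoid.ker ((Z.fr l.Y).cellv 1 k) ⊓ Z.zLa l k : Setoid (Z.sp.F k).Ω)) := by
    have h1 := Z.fr_PLe' l.Y 1 (fun k => Setoid.ker ((Z.fr l.Y).cellv 1 k) ⊓ Z.zLa l k)
      (Eventually.of_forall fun k ω ω' _ _ _ r => ⟨r.2.2, r.1⟩)
    rw [mul_one] at h1
    exact h1
  exact tendsto_swap Z.sp (fun k => Setoid.comap (Z.l k).p.π (Setoid.ker (l.Y.cellv (Z.c + Z.u) k)))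
    (fun k => Setoid.ker ((Z.fr l.Y).cellv 1 k)) (Z.zLa l) t1 p1 p2

/-- the window `b` of the zoom -/
def zwin (b : ℝ) : Part Z.sp := fun k => fc (Z.zLa l k ⊓ Setoid.ker ((Z.fr l.Y).cellv b k))

/-- the window `c + u b` in the space of the label -/
def wz (b : ℝ) (k : ℕ) : Setoid (Z.sp.F k).Ω :=
  Setoid.comap (Z.l k).p.π (l.La k ⊓ Setoid.ker (l.Y.cellv (Z.c + Z.u * b) k))

theorem wz_fc (b : ℝ) : (fun k => (fc (Z.wz l b k : Setoid (Z.sp.F k).Ω) : FL (Z.sp.F k))) =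
    Z.l.up Z.u Z.hu (l.win (Z.c + Z.u * b)) := rfl

theorem zLa_wz {b : ℝ} (hb : 0 ≤ b) :
    PLe (S := Z.sp) (fun k => fc (Z.zLa l k : Setoid (Z.sp.F k).Ω)) (fun k => fc (Z.wz l b k : Setoid (Z.sp.F k).Ω)) := by
  have hm : Z.c ≤ Z.c + Z.u * b := by
    have := mul_nonneg Z.hu.le hb
    linarith
  have h1 : PLe (l.win Z.c) (l.win (Z.c + Z.u * b)) := l.win_mono hm
  have h2 : PLe (Z.l.up Z.u Z.hu (l.win Z.c)) (Z.l.up Z.u Z.hu (l.win (Z.c + Z.u * b))) :=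
    Lab.PLe_up (l := Z.l) (c := Z.u) (hc := Z.hu) h1
  rw [← wz_fc] at h2
  exact h2

/-- windows of the zoom are functions of windows -/
theorem win_up {b : ℝ} (hb : 0 ≤ b) :
    PLe (Z.zwin l b) (Z.l.up Z.u Z.hu (l.win (Z.c + Z.u * b))) := by
  have h1 := Z.zLa_wz l hb
  have h2 := Z.fr_PLe l.Y b (fun k => Z.wz l b k ⊓ Z.zLa l k)
    (Eventually.of_forall fun k ω ω' _ _ _ r => ⟨r.2.2, r.1.2⟩)
  have h3 : PLe (S := Z.sp) (fun k => fc (Z.wz l b k ⊓ Z.zLa l k : Setoid (Z.sp.F k).Ω))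
      (fun k => fc (Z.wz l b k : Setoid (Z.sp.F k).Ω)) :=
    PLe_inf (S := Z.sp) (A := Z.wz l b) (B := Z.zLa l) (X := fun k => fc (Z.wz l b k : Setoid (Z.sp.F k).Ω))
      (PLe.refl _) h1
  have h4 := PLe.trans (S := Z.sp) h2 h3
  have h5 := PLe_inf (S := Z.sp) (A := Z.zLa l) (B := fun k => Setoid.ker ((Z.fr l.Y).cellv b k)) h1 h4
  exact h5

/-- windows are functions of windows of the zoom -/
theorem up_win (b : ℝ) :
    PLe (Z.l.up Z.u Z.hu (l.win (Z.c + Z.u * b))) (Z.zwin l b) := by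
  have h1 : PLe (S := Z.sp) (fun k => fc (Setoid.comap (Z.l k).p.π (l.La k) : Setoid (Z.sp.F k).Ω))
      (fun k => fc (Z.zLa l k ⊓ Setoid.ker ((Z.fr l.Y).cellv b k) : Setoid (Z.sp.F k).Ω)) :=
    PLe_of_le (S := Z.sp) fun k => fc_le fun ω ω' _ _ _ r => r.1.1
  have h2 := Z.fr_PLe' l.Y b (fun k => Z.zLa l k ⊓ Setoid.ker ((Z.fr l.Y).cellv b k))
    (Eventually.of_forall fun k ω ω' _ _ _ r => ⟨r.1.2, r.2⟩)
  have h3 := PLe_inf (S := Z.sp) (A := fun k => (Setoid.comap (Z.l k).p.π (l.La k) : Setoid (Z.sp.F k).Ω))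
    (B := fun k => (Setoid.comap (Z.l k).p.π (Setoid.ker (l.Y.cellv (Z.c + Z.u * b) k)) : Setoid (Z.sp.F k).Ω)) h1 h2
  exact h3

end leaf

end ZU

end

end Pool.Agent.Helper7.GZ
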