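import Pool.Agent.Helper7.GZ.Zm

/-! LINEAR COEFFICIENTS of the charts of a zoom: for the coordinates of weight one the charts of the zoom have typically
the same linear coefficients as the charts of the system. -/

set_option autoImplicit false

namespace Pool.Agent.Helper7.GZ

open Finset Filter Topology Matrix Pool.Agent.Helper69.RK Pool.Agent.Helper31.EC Pool.Agent.Helper31.EC.Sp
open Pool.Agent.Helper40.EL Pool.Agent.Helper89.LX Pool.Agent.Helper3.LF Pool.Agent.Helper84.MT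
open Pool.Agent.Helper89.TAY (crn)
open Pool.Agent.Helper36.AM (Frm Gz inv inv_eq inv_eval volO)
open Pool.Agent.Helper77.WDG (WLe wt)

noncomputable section

/-- exponents of degree at most one -/
theorem exp_one {e : ℕ} {s : Fin e →₀ ℕ} (h : ∑ i, s i ≤ 1) : s = 0 ∨ ∃ b, s = Finsupp.single b 1 := by
  classical
  by_cases h0 : s = 0
  · exact Or.inl h0
  · right
    obtain ⟨b, hb⟩ : ∃ b, s b ≠ 0 := by
      by_contra hc
      push Not at hc
      exact h0 (Finsupp.ext hc)
    refine ⟨b, ?_⟩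
    ext i
    have h1 : s b + ∑ i ∈ Finset.univ.erase b, s i = ∑ i, s i := Finset.add_sum_erase _ _ (Finset.mem_univ b)
    by_cases hi : i = b
    · rw [hi, Finsupp.single_eq_same]
      omega
    · rw [Finsupp.single_eq_of_ne hi]
      have h2 : s i ≤ ∑ i ∈ Finset.univ.erase b, s i :=
        Finset.single_le_sum (f := fun i => s i) (fun _ _ => Nat.zero_le _) (Finset.mem_erase.2 ⟨hi, Finset.mem_univ i⟩)
      omega

/-- affine polynomials -/
theorem eval_aff {e : ℕ} (P : MvPolynomial (Fin e) ℝ) (hP : P.totalDegree ≤ 1) (o : Fin e → ℝ) (d : ℝ) (a : Fin e) :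
    MvPolynomial.eval (fun b => o b + d * (Pi.single a (1 : ℝ) : Fin e → ℝ) b) P - MvPolynomial.eval o P =
      d * (MvPolynomial.eval (Pi.single a (1 : ℝ)) P - MvPolynomial.eval (fun _ => 0) P) := by
  classical
  rw [MvPolynomial.eval_eq', MvPolynomial.eval_eq', MvPolynomial.eval_eq', MvPolynomial.eval_eq',
    ← Finset.sum_sub_distrib, ← Finset.sum_sub_distrib, Finset.mul_sum]
  refine Finset.sum_congr rfl fun s hs => ?_
  have h1 : ∑ i, s i ≤ 1 := Pool.Agent.Helper81.MI.sum_le_deg hP hs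
  rcases exp_one h1 with h0 | ⟨b, h0⟩
  · subst h0
    simp
  · subst h0
    have h2 : ∀ v : Fin e → ℝ, ∏ i, v i ^ (Finsupp.single b 1 : Fin e →₀ ℕ) i = v b := by
      intro v
      rw [Finset.prod_eq_single b]
      · rw [Finsupp.single_eq_same, pow_one]
      · intro i _ hi
        rw [Finsupp.single_eq_of_ne hi, pow_zero]
      · intro h
        exact absurd (Finset.mem_univ b) h
    rw [h2, h2, h2, h2]
    ring

/-- a row of weight one -/
theorem frow_one {S : Sp} {M : ℕ} {Q : S.VV M} {l : Lab S} {w : Fin M → ℝ} {c : ℝ} (f : Frm Q l (fun j => w j * c))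
    (hc : 0 < c) (hw : ∀ j, 1 ≤ w j) {j : Fin M} (hj : w j = 1) (k : ℕ) (ω : (l k).T.Ω) : ∃ p : ℝ,
      ∀ u : Fin M → ℝ, MvPolynomial.eval u (frow f k ω j) = (S.dl c k)⁻¹ * (u j - p) := by
  have h0 : ∀ j, (0 : ℝ) ≤ w j := fun j => zero_le_one.trans (hw j)
  have hP : (f.P k ω j).support ⊆ {0} := by
    intro a ha
    rw [Finset.mem_singleton]
    by_contra h
    have h2 := f.red k ω j a ha h
    have h3 : wt w a * c < w j * c := by
      rw [← Pool.Agent.Helper77.WDG.wt_smul]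
      exact h2
    have h4 := lt_of_mul_lt_mul_right h3 hc.le
    rw [hj] at h4
    have h5 := Pool.Agent.Helper77.WDG.deg_le_wt hw a
    have h6 : ((a.sum fun _ n => n : ℕ) : ℝ) < 1 := h5.trans_lt h4
    have h7 : (a.sum fun _ n => n) = 0 := by
      have : ((a.sum fun _ n => n : ℕ) : ℝ) < ((1 : ℕ) : ℝ) := by rw [Nat.cast_one]; exact h6
      have := Nat.cast_lt.1 this
      omega
    apply h
    ext i
    rw [Finsupp.sum_fintype _ _ (fun _ => rfl)] at h7
    exact (Finset.sum_eq_zero_iff.1 h7) i (Finset.mem_univ i)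
  have h1 : f.P k ω j = MvPolynomial.C ((f.P k ω j).coeff 0) := by
    ext a
    rw [MvPolynomial.coeff_C]
    by_cases ha : (0 : Fin M →₀ ℕ) = a
    · rw [if_pos ha, ← ha]
    · rw [if_neg ha]
      by_contra h
      have h2 := hP (MvPolynomial.mem_support_iff.2 h)
      rw [Finset.mem_singleton] at h2
      exact ha h2.symm
  refine ⟨(f.P k ω j).coeff 0, fun u => ?_⟩
  unfold frow
  rw [map_mul, MvPolynomial.eval_C, inv_eval (f.tri k ω)]
  have h2 : S.dl (w j * c) k = S.dl c k := by rw [hj, one_mul]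
  have h3 : MvPolynomial.eval (fun i => MvPolynomial.eval u (inv (f.P k ω) i)) (f.P k ω j) =
      (f.P k ω j).coeff 0 := by
    rw [h1, MvPolynomial.eval_C, MvPolynomial.coeff_C, if_pos rfl]
  show (S.dl (w j * c) k)⁻¹ * (u j - MvPolynomial.eval (fun i => MvPolynomial.eval u (inv (f.P k ω) i)) (f.P k ω j)) = _
  rw [h2, h3]

namespace FW

variable {S : Sp} {M : ℕ} {ι : Type}
variable {g : ℕ} {s : MSys S M (Pool.Agent.Helper84.MT.lin g) ι} {l : Lab S} {w : Fin M → ℝ} {c e : ℝ}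
variable (F : FW g s l w c e)

/-- LINEAR COEFFICIENTS of the coordinates of weight one -/
theorem lin_eq (i : ι) : Typ (S := l.ovr e F.he) (fun k (ω : (l k).T.Ω) => ∀ j, w j = 1 → ∀ a : Fin (s.lf i).e,
    (F.sys0.lf i).F k ω (Pi.single a (1 : ℝ)) j - (F.sys0.lf i).F k ω (fun _ => 0) j =
      (s.lf i).F k ((l k).p.π ω) (Pi.single a (1 : ℝ)) j - (s.lf i).F k ((l k).p.π ω) (fun _ => 0) j) := by
  classical
  obtain ⟨G, hG1, hG2⟩ := F.wd i
  have hT : Typ (S := l.ovr e F.he) (F.xc.A i) := F.xc.A_typ i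
  refine Typ.mono (S := l.ovr e F.he) hT ?_
  filter_upwards [F.xc.ex i, hG1] with k h1 h2
  intro (ω : (l k).T.Ω) hω hA j hj a
  have hω' := (l k).p.supp ω hω
  obtain ⟨p, hp⟩ := frow_one F.f F.hc F.hw hj k ω
  have hd := S.dl_pos c k
  have e1 : ∀ y : Fin (s.lf i).e → ℝ, (F.sys0.lf i).F k ω y j = (S.dl c k)⁻¹ *
      ((s.lf i).F k ((l k).p.π ω) (fun b => crn (s.lf i) c k ((l k).p.π ω) b + S.dl c k * y b) j - p) := by
    intro y
    have e2 : (F.sys0.lf i).F k ω y j = MvPolynomial.eval y (F.xc.G i k ω j) := by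
      have h3 := F.xc.sys_F i k ω y j
      rw [if_pos hA] at h3
      exact h3
    have h4 : MvPolynomial.eval y (F.xc.G i k ω j) = MvPolynomial.eval ((s.lf i).F k ((l k).p.π ω)
      (fun b => crn (s.lf i) c k ((l k).p.π ω) b + S.dl c k * y b)) (frow F.f k ω j) := h1 ω hω y j
    rw [e2, h4, hp]
  have hdeg : (G k ((l k).p.π ω) j).totalDegree ≤ 1 := by
    have h3 := hG2 k ((l k).p.π ω) j
    rw [hj] at h3
    exact_mod_cast h3
  have h5 := eval_aff (G k ((l k).p.π ω) j) hdeg (crn (s.lf i) c k ((l k).p.π ω)) (S.dl c k) a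
  have E1 : (F.sys0.lf i).F k ω (Pi.single a (1 : ℝ)) j = (S.dl c k)⁻¹ * (MvPolynomial.eval
      (fun b => crn (s.lf i) c k ((l k).p.π ω) b + S.dl c k * (Pi.single a (1 : ℝ) : Fin (s.lf i).e → ℝ) b)
        (G k ((l k).p.π ω) j) - p) := by
    have h6 := e1 (Pi.single a (1 : ℝ))
    rw [h2 _ hω'] at h6
    exact h6
  have E2 : (F.sys0.lf i).F k ω (fun _ => 0) j = (S.dl c k)⁻¹ * (MvPolynomial.eval
      (crn (s.lf i) c k ((l k).p.π ω)) (G k ((l k).p.π ω) j) - p) := by
    have h6 := e1 (fun _ => 0)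
    have e3 : (fun b => crn (s.lf i) c k ((l k).p.π ω) b + S.dl c k * (0 : ℝ)) = crn (s.lf i) c k ((l k).p.π ω) := by
      funext b
      rw [mul_zero, add_zero]
    rw [h2 _ hω', e3] at h6
    exact h6
  refine (congrArg₂ (fun x y : ℝ => x - y) E1 E2).trans ?_
  rw [h2 _ hω', h2 _ hω', ← mul_sub, sub_sub_sub_cancel_right, h5, ← mul_assoc, inv_mul_cancel₀ hd.ne', one_mul]

end FW

end

end Pool.Agent.Helper7.GZ
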