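import Pool.Agent.Helper7.GZ.Fo
import Pool.Agent.Helper84.MT.Fun

/-! ZOOM IN THE COORDINATES OF ROWS, volumes: if the Jacobian of the rows is typically at least `2 ^ (λ n)`, the volume
deficit of the window `c + u b` of the system is at least the mean of `λ` plus `u` times the volume deficit of the window
`b` of the zoom. -/

set_option autoImplicit false

namespace Pool.Agent.Helper7.GZ

open Finset Filter Topology Matrix Pool.Agent.Helper69.RK Pool.Agent.Helper31.EC Pool.Agent.Helper31.EC.Sp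
open Pool.Agent.Helper40.EL Pool.Agent.Helper89.LX Pool.Agent.Helper3.LF Pool.Agent.Helper84.MT
open Pool.Agent.Helper95.LF
open Pool.Agent.Helper3.PR (cutm cutm_cpd cutFD cut_typ exp_le)
open Pool.Agent.Helper14.MC (adf_sub gx vx vol_eq vx_UB vx_nonneg vol_opt_le vol_opt_eq)

noncomputable section

/-- the pointwise inequality -/
theorem gx_real {M D DD p : ℕ} (P : Fin M → MvPolynomial (Fin M) ℝ) (hP : ∀ i, (P i).totalDegree ≤ p)
    (hDD : D * p ≤ DD) (hD : 1 ≤ D) (B : Matrix (Mon M D) (Mon M D) ℝ) {c : ℝ} (hB : Cpd c B) {r r' n u lam C KX : ℝ}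
    (hr' : 0 < r') (hn : 0 < n) (hu : 0 < u) (hKX : 0 ≤ KX) (hC : 0 ≤ C) (x : Fin M → ℝ) (X : Fin M → ℝ)
    (hX : ∀ j, |X j - MvPolynomial.eval x (P j)| ≤ KX * r')
    (hdet : 2 ^ (2 * lam * n) ≤ C * (jac P x).det ^ 2) :
    lam + u * (Real.logb 2 (GQ r' B X) / (2 * (u * n))) ≤
      Real.logb 2 (GQ r (1 + sbf DD P r' B) x) / (2 * n) +
        (Real.logb 2 (C + 2) + M * Real.logb 2 (cQ M D) + 2 * D * M * Real.logb 2 (KX + 2) + M) / (2 * n) := by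
  have hBp : PdM B := ⟨hB.1, fun v hv => (self_pos hv).trans_le (hB.2.1 v)⟩
  have h1 := GQ_comp B hBp r' r' (KX + 1) hr' hr'.le (by linarith) (fun i => MvPolynomial.eval x (P i)) X (fun i => by
    have := hX i
    linarith)
  have h2 := GQ_sbf (DD := DD) P hP hDD hD B hB.1 hB.2.1 r r' x
  have hs := (RZ.one_sbf_ge (DD := DD) (P := P) (r := r') hB.1 hBp.nonneg)
  have a1 : 1 ≤ GQ r' B X := one_le_GQ _ hB.1 hBp.nonneg _
  have a2 : 1 ≤ GQ r (1 + sbf DD P r' B) x := one_le_GQ _ hs.1 (fun v => (self_nonneg' v).trans (hs.2 v)) _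
  have a3 : 1 ≤ GQ r' B (fun i => MvPolynomial.eval x (P i)) := one_le_GQ _ hB.1 hBp.nonneg _
  have hcQ := cQ_one M D
  have hG : (0 : ℝ) < GQ r (1 + sbf DD P r' B) x := by linarith
  have key : 2 ^ (2 * lam * n) * GQ r' B X ≤
      (C + 2) * (cQ M D ^ M * ((KX + 2) ^ (2 * D * M) * (2 ^ M * GQ r (1 + sbf DD P r' B) x))) := by
    have e1 : (0 : ℝ) ≤ (jac P x).det ^ 2 := sq_nonneg _
    have e2 : (0 : ℝ) < 2 ^ (2 * lam * n) := by positivity
    have e3 : (KX + 1) ^ (2 * D * M) ≤ (KX + 2) ^ (2 * D * M) := pow_le_pow_left₀ (by linarith) (by linarith) _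
    calc 2 ^ (2 * lam * n) * GQ r' B X ≤ C * (jac P x).det ^ 2 *
          (cQ M D ^ M * (KX + 1) ^ (2 * D * M) * GQ r' B (fun i => MvPolynomial.eval x (P i))) :=
          mul_le_mul hdet h1 (by linarith) (mul_nonneg hC e1)
      _ = C * (cQ M D ^ M * ((KX + 1) ^ (2 * D * M) *
          ((jac P x).det ^ 2 * GQ r' B (fun i => MvPolynomial.eval x (P i))))) := by ring
      _ ≤ C * (cQ M D ^ M * ((KX + 1) ^ (2 * D * M) * (2 ^ M * GQ r (1 + sbf DD P r' B) x))) := by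
          apply mul_le_mul_of_nonneg_left _ hC
          apply mul_le_mul_of_nonneg_left _ (by positivity)
          exact mul_le_mul_of_nonneg_left h2 (by positivity)
      _ ≤ (C + 2) * (cQ M D ^ M * ((KX + 1) ^ (2 * D * M) * (2 ^ M * GQ r (1 + sbf DD P r' B) x))) := by
          apply mul_le_mul_of_nonneg_right (by linarith) (by positivity)
      _ ≤ _ := by
          apply mul_le_mul_of_nonneg_left _ (by linarith)
          apply mul_le_mul_of_nonneg_left _ (by positivity)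
          exact mul_le_mul_of_nonneg_right e3 (by positivity)
  have e2 : (0 : ℝ) < 2 ^ (2 * lam * n) := by positivity
  have h4 := Real.logb_le_logb_of_le (b := 2) (by norm_num) (by positivity) key
  rw [Real.logb_mul e2.ne' (by linarith), Real.logb_rpow (by norm_num) (by norm_num),
    Real.logb_mul (by linarith) (by positivity), Real.logb_mul (by positivity) (by positivity), Real.logb_pow,
    Real.logb_mul (by positivity) (by positivity), Real.logb_pow, Real.logb_mul (by positivity) (by linarith),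
    Real.logb_pow, Real.logb_self_eq_one (by norm_num), mul_one] at h4
  have e5 : u * (Real.logb 2 (GQ r' B X) / (2 * (u * n))) = Real.logb 2 (GQ r' B X) / (2 * n) := by
    field_simp
  rw [e5, ← add_div, le_div_iff₀ (by positivity), add_mul, div_mul_cancel₀ _ (by positivity)]
  push_cast at h4
  linarith

variable {S : Sp} {M : ℕ} {E : ℕ → ℕ} {ι : Type}

theorem tend_t {C KX : ℕ → ℝ} (hC : S.Sub C) (hKX : S.Sub KX) (a b d : ℝ) :
    Tendsto (fun k => (Real.logb 2 (C k + 2) + a + b * Real.logb 2 (KX k + 2) + d) / (2 * (S.F k).n)) UF (𝓝 0) := by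
  have t1 := hC.2.const_mul (1 / 2 : ℝ)
  have t2 := hKX.2.const_mul (b / 2)
  have t3 := (S.div_n_tendsto 1).const_mul ((a + d) / 2)
  have t4 := (t1.add t2).add t3
  rw [mul_zero, mul_zero, mul_zero, add_zero, add_zero] at t4
  refine t4.congr fun k => ?_
  have := (S.F k).pos
  field_simp
  ring

namespace RZ

variable {s : MSys S M E ι} (z : RZ s M)

/-- VOLUME of the form of the zoom in the system -/
theorem vol_out_le [Finite ι] {D DD : ℕ} (hD : 1 ≤ D) (hDD : D * z.D ≤ DD) {b : ℝ} (hb : 0 ≤ b)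
    {y : ∀ k, FD (z.Z.sp.F k) (Mon M D)} (hy : (gaq z.sys.Q D).Adf (z.sys.cnd b) y)
    (lam : ∀ k, (z.Z.l k).T.Ω → ℝ) (Cl : ℝ) (hlb : ∀ᶠ k in UF, ∀ ω, (z.Z.l k).T.μ ω ≠ 0 → |lam k ω| ≤ Cl)
    (C : ℕ → ℝ) (hC : S.Sub C) (hdet : Typ (S := z.Z.l.sp) (fun k (ω : (z.Z.l k).T.Ω) =>
      2 ^ (2 * lam k ω * (S.F k).n) ≤ C k * (jac (z.R.p k ω) (s.Q.v k ((z.Z.l k).p.π ω))).det ^ 2)) :
    vol s.Q DD (z.out DD y) ≤
      M - ul (fun k => ∑ ω, (z.Z.l k).T.μ ω * lam k ω) - z.Z.u * (M - vol z.sys.Q D y) := by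
  have hx := z.out_ad hDD hb hy
  obtain ⟨Cy, hCy, hbd⟩ := gx_bd hy
  obtain ⟨C', -, hbd'⟩ := gx_bd hx
  have hUx := vx_UB hx
  have hUy := vx_UB hy
  obtain ⟨KX, hKX, hX⟩ := z.hX
  -- the averages
  have e1 : ∀ k, ∑ ω, (y k).l.T.μ ω * (lam k ((y k).l.p.π ω) + z.Z.u * gx z.sys.Q k ((y k).l.p.π ω) ((y k).g ω)) =
      ∑ ω, (z.Z.l k).T.μ ω * lam k ω + z.Z.u * vx z.sys.Q y k := by
    intro k
    have h1 : ∑ ω, (y k).l.T.μ ω * lam k ((y k).l.p.π ω) = ∑ ω, (z.Z.l k).T.μ ω * lam k ω :=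
      sum_push (y k).l.p (fun ω => lam k ω)
    rw [← h1]
    unfold vx
    rw [Finset.mul_sum, ← Finset.sum_add_distrib]
    exact Finset.sum_congr rfl fun ω _ => by ring
  have hUl : UB (fun k => ∑ ω, (z.Z.l k).T.μ ω * lam k ω) := by
    refine ⟨Cl, ?_⟩
    filter_upwards [hlb] with k hk
    refine (Finset.abs_sum_le_sum_abs _ _).trans ?_
    have h1 : ∀ ω ∈ (Finset.univ : Finset (z.Z.l k).T.Ω), |(z.Z.l k).T.μ ω * lam k ω| ≤ (z.Z.l k).T.μ ω * Cl := by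
      intro ω _
      rw [abs_mul, abs_of_nonneg ((z.Z.l k).T.nn ω)]
      by_cases h0 : (z.Z.l k).T.μ ω = 0
      · rw [h0, zero_mul, zero_mul]
      · exact mul_le_mul_of_nonneg_left (hk ω h0) ((z.Z.l k).T.nn ω)
    refine (Finset.sum_le_sum h1).trans (le_of_eq ?_)
    rw [← Finset.sum_mul, Pool.Agent.Helper3.PR.sum_mu, one_mul]
  have hUg : UB (fun k => ∑ ω, (y k).l.T.μ ω *
      (lam k ((y k).l.p.π ω) + z.Z.u * gx z.sys.Q k ((y k).l.p.π ω) ((y k).g ω))) := by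
    have h1 := hUl.add (hUy.const_mul z.Z.u)
    have h2 : (fun k => ∑ ω, (y k).l.T.μ ω *
        (lam k ((y k).l.p.π ω) + z.Z.u * gx z.sys.Q k ((y k).l.p.π ω) ((y k).g ω))) =
        fun k => ∑ ω, (z.Z.l k).T.μ ω * lam k ω + z.Z.u * vx z.sys.Q y k := funext e1
    rw [h2]
    exact h1
  have hE' : Tendsto (fun k => (y k).l.T.pb (fun ω => ¬ ((∀ j, |z.X.v k ((y k).l.p.π ω) j -
      Rows.val z.Z z.R k ((y k).l.p.π ω) j| ≤ KX k * S.dl z.Z.u k) ∧
      2 ^ (2 * lam k ((y k).l.p.π ω) * (S.F k).n) ≤ C k * (jac (z.R.p k ((y k).l.p.π ω))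
        (s.Q.v k ((z.Z.l k).p.π ((y k).l.p.π ω)))).det ^ 2))) UF (𝓝 0) := by
    have hE : Typ (S := z.Z.sp) (fun k (ω : (z.Z.l k).T.Ω) =>
      (∀ j, |z.X.v k ω j - Rows.val z.Z z.R k ω j| ≤ KX k * S.dl z.Z.u k) ∧
      2 ^ (2 * lam k ω * (S.F k).n) ≤ C k * (jac (z.R.p k ω) (s.Q.v k ((z.Z.l k).p.π ω))).det ^ 2) :=
      Typ.and (S := z.Z.sp) hX hdet
    refine Tendsto.congr (fun k => ?_) hE
    exact (pb_push (y k).l.p _).symm
  have hE2 : Tendsto (fun k => (y k).l.T.pb (fun ω => ¬ (Cpd ((gaq s.Q DD).cp k) (z.zfm DD y k ω) ∧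
      ((∀ j, |z.X.v k ((y k).l.p.π ω) j -
      Rows.val z.Z z.R k ((y k).l.p.π ω) j| ≤ KX k * S.dl z.Z.u k) ∧
      2 ^ (2 * lam k ((y k).l.p.π ω) * (S.F k).n) ≤ C k * (jac (z.R.p k ((y k).l.p.π ω))
        (s.Q.v k ((z.Z.l k).p.π ((y k).l.p.π ω)))).det ^ 2)))) UF (𝓝 0) :=
    typ_and (S := (lb y).sp) (z.out_typ DD hDD hy) hE'
  have key := ul_avg_le (fun k => (y k).l.T) (fun k ω => gx s.Q k ((z.out DD y k).l.p.π ω) ((z.out DD y k).g ω))
    (fun k ω => lam k ((y k).l.p.π ω) + z.Z.u * gx z.sys.Q k ((y k).l.p.π ω) ((y k).g ω))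
    (fun k ω => Cpd ((gaq s.Q DD).cp k) (z.zfm DD y k ω) ∧
      ((∀ j, |z.X.v k ((y k).l.p.π ω) j -
      Rows.val z.Z z.R k ((y k).l.p.π ω) j| ≤ KX k * S.dl z.Z.u k) ∧
      2 ^ (2 * lam k ((y k).l.p.π ω) * (S.F k).n) ≤ C k * (jac (z.R.p k ((y k).l.p.π ω))
        (s.Q.v k ((z.Z.l k).p.π ((y k).l.p.π ω)))).det ^ 2))
    (fun k => (Real.logb 2 (C k + 2) + M * Real.logb 2 (cQ M D) + 2 * D * M * Real.logb 2 (KX k + 2) + M) /
      (2 * (S.F k).n)) (tend_t hC hKX _ _ _) (Cl + z.Z.u * Cy) hE2 (by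
      filter_upwards [hy 1 one_pos, z.R.pz_ev, hKX.1, hC.1] with k h2 hpz hKX0 hC0 ω hω hE
      have a0 := z.out_g DD k ω hE.1
      have e0 : z.R.pz k ((y k).l.p.π ω) = z.R.p k ((y k).l.p.π ω) := hpz _
      have hXX : ∀ j, |z.sys.Q.v k ((y k).l.p.π ω) j - MvPolynomial.eval
          (s.Q.v k ((z.Z.l k).p.π ((y k).l.p.π ω))) (z.R.pz k ((y k).l.p.π ω) j)| ≤ KX k * z.Z.sp.dl 1 k := by
        intro j
        rw [e0, z.Z.sp_dl1]
        exact hE.2.1 j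
      have hdd : 2 ^ (2 * lam k ((y k).l.p.π ω) * (S.F k).n) ≤ C k * (jac (z.R.pz k ((y k).l.p.π ω))
        (s.Q.v k ((z.Z.l k).p.π ((y k).l.p.π ω)))).det ^ 2 := by
        rw [e0]
        exact hE.2.2
      have a1 := gx_real (DD := DD) (z.R.pz k ((y k).l.p.π ω)) (z.R.pz_deg k _) hDD hD ((y k).g ω)
        (h2.2.1 ω hω).1 (r := S.dl 1 k) (z.Z.sp.dl_pos 1 k) (S.F k).pos z.Z.hu hKX0 hC0
        (s.Q.v k ((z.Z.l k).p.π ((y k).l.p.π ω))) (z.sys.Q.v k ((y k).l.p.π ω)) hXX hdd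
      rw [a0]
      have e2 : gx z.sys.Q k ((y k).l.p.π ω) ((y k).g ω) =
          Real.logb 2 (GQ (z.Z.sp.dl 1 k) ((y k).g ω) (z.sys.Q.v k ((y k).l.p.π ω))) /
            (2 * (z.Z.u * (S.F k).n)) := by
        unfold gx
        rw [z.Z.sp_n]
      rw [e2]
      exact a1) (by
      filter_upwards [hbd, hlb] with k h2 h3 ω hω
      have h4 := mul_le_mul_of_nonneg_left (h2 ω hω).2 z.Z.hu.le
      have h5 := h3 ((y k).l.p.π ω) ((y k).l.p.supp ω hω)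
      have h6 := le_abs_self (lam k ((y k).l.p.π ω))
      linarith) (by
      filter_upwards [hbd'] with k h2 ω hω
      exact (h2 ω hω).1) hUg hUx
  have key2 : ul (fun k => ∑ ω, (z.Z.l k).T.μ ω * lam k ω + z.Z.u * vx z.sys.Q y k) ≤ ul (vx s.Q (z.out DD y)) := by
    have e3 : (fun k => ∑ ω, (z.Z.l k).T.μ ω * lam k ω + z.Z.u * vx z.sys.Q y k) =
        fun k => ∑ ω, (y k).l.T.μ ω *
          (lam k ((y k).l.p.π ω) + z.Z.u * gx z.sys.Q k ((y k).l.p.π ω) ((y k).g ω)) := funext fun k => (e1 k).symm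
    rw [e3]
    exact key
  rw [ul_add hUl (hUy.const_mul z.Z.u), ul_const_mul _ hUy] at key2
  rw [vol_eq, vol_eq]
  linarith

/-- VOLUMES of the windows of the zoom and of the system -/
theorem vol_le [Finite ι] {D DD : ℕ} (hD : 1 ≤ D) (hDD : D * z.D ≤ DD) {b : ℝ} (hb : 0 ≤ b)
    (lam : ∀ k, (z.Z.l k).T.Ω → ℝ) (Cl : ℝ) (hlb : ∀ᶠ k in UF, ∀ ω, (z.Z.l k).T.μ ω ≠ 0 → |lam k ω| ≤ Cl)
    (C : ℕ → ℝ) (hC : S.Sub C) (hdet : Typ (S := z.Z.l.sp) (fun k (ω : (z.Z.l k).T.Ω) =>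
      2 ^ (2 * lam k ω * (S.F k).n) ≤ C k * (jac (z.R.p k ω) (s.Q.v k ((z.Z.l k).p.π ω))).det ^ 2)) :
    s.vol DD (z.Z.c + z.Z.u * b) ≤
      M - ul (fun k => ∑ ω, (z.Z.l k).T.μ ω * lam k ω) - z.Z.u * (M - z.sys.vol D b) := by
  obtain ⟨y, hy⟩ := z.sys.exists_can D b
  rw [← z.sys.vol_eq hy.1]
  exact (s.vol_le_of (z.out_ad hDD hb hy.1.1)).trans (z.vol_out_le hD hDD hb hy.1.1 lam Cl hlb C hC hdet)

end RZ

end

end Pool.Agent.Helper7.GZ
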